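import Pool.Agent.Lib.MP_ae5b4e_an_AT.Defs

/-! # AT: sectors and sums -/

noncomputable section

namespace Pool.Agent.MP_ae5b4e_an_AT

open Complex Set Filter Topology Metric

/-- Proof. Put `z' = z + s + w`. `Re z' ≥ Re z + 7 s / 8`, `|Im z'| ≥ |Im z| - s / 8`, so
`Re z' + |Im z'| ≥ Re z + |Im z| + 3 s / 4 > 0`. Modulus: `Re z ≥ - ‖z‖ / √2` (if `Re z < 0` then
`|Re z| ≤ |Im z|`), so `‖z + s‖² = ‖z‖² + 2 s Re z + s² ≥ ‖z‖² - √2 s ‖z‖ + s²
≥ (1 - 1/√2) (‖z‖² + s²) ≥ (9/64) (‖z‖ + s)²` (`(1 - 1/√2) / 2 ≥ 9/64`), `‖z + s‖ ≥ (3/8) (‖z‖ + s)`, and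
`‖w‖ ≤ s / 8 ≤ (‖z‖ + s) / 8`. -/
theorem sec_add {z w : ℂ} {s : ℝ} (hz : -|z.im| < z.re) (hs : 0 ≤ s) (hw : ‖w‖ ≤ s / 8) :
    -|(z + s + w).im| < (z + s + w).re ∧ (‖z‖ + s) / 4 ≤ ‖z + s + w‖ := by
  have him : (z + s + w).im = z.im + w.im := by simp
  have hre : (z + s + w).re = z.re + s + w.re := by simp
  have hw1 : |w.im| ≤ s / 8 := (abs_im_le_norm w).trans hw
  have hw2 : |w.re| ≤ s / 8 := (abs_re_le_norm w).trans hw
  constructor
  · rw [him, hre]
    have h1 : |z.im| ≤ |z.im + w.im| + |w.im| := by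
      have := abs_sub (z.im + w.im) w.im
      rwa [add_sub_cancel_right] at this
    have h2 := (abs_le.1 hw2).1
    linarith
  · have hs' : (s : ℝ) ≤ s := le_rfl
    have hr0 : 0 ≤ ‖z‖ := norm_nonneg z
    have hkey : 3 / 8 * (‖z‖ + s) ≤ ‖z + (s : ℂ)‖ := by
      have h1 : ‖z + (s : ℂ)‖ ^ 2 = ‖z‖ ^ 2 + 2 * s * z.re + s ^ 2 := by
        rw [← normSq_eq_norm_sq, ← normSq_eq_norm_sq, normSq_apply, normSq_apply]
        simp only [add_re, add_im, ofReal_re, ofReal_im, add_zero]
        ring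
      have h2 : ‖z‖ ^ 2 = z.re * z.re + z.im * z.im := by
        rw [← normSq_eq_norm_sq, normSq_apply]
      refine le_of_sq_le_sq ?_ (norm_nonneg _)
      rw [h1]
      set r := ‖z‖ with hr
      have h3 : -(5 / 7 * r) ≤ z.re := by
        rcases le_or_gt 0 z.re with h | h
        · linarith
        · have h4 : -z.re ≤ |z.im| := by linarith
          have h5 : (-z.re) * (-z.re) ≤ z.im * z.im := by
            have := mul_self_le_mul_self (by linarith : 0 ≤ -z.re) h4
            rwa [abs_mul_abs_self] at this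
          have h6 : (-z.re) ^ 2 ≤ (5 / 7 * r) ^ 2 := by
            have h7 : 0 ≤ r ^ 2 := sq_nonneg r
            have h8 : (-z.re) ^ 2 = z.re * z.re := by ring
            have h9 : (5 / 7 * r) ^ 2 = 25 / 49 * r ^ 2 := by ring
            have h10 : (-z.re) * (-z.re) = z.re * z.re := by ring
            rw [h8, h9]
            rw [h10] at h5
            linarith
          have h7 := le_of_sq_le_sq h6 (by positivity)
          linarith
      have h4 : -(10 / 7 * (s * r)) ≤ 2 * s * z.re := by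
        have := mul_le_mul_of_nonneg_left h3 (by linarith : 0 ≤ 2 * s)
        linarith
      have h5 : 0 ≤ (r - s) ^ 2 := sq_nonneg _
      have h6 : 0 ≤ s * r := mul_nonneg hs hr0
      have h7 : (3 / 8 * (r + s)) ^ 2 = 9 / 64 * r ^ 2 + 18 / 64 * (s * r) + 9 / 64 * s ^ 2 := by
        ring
      have h8 : (r - s) ^ 2 = r ^ 2 - 2 * (s * r) + s ^ 2 := by ring
      rw [h7]
      rw [h8] at h5
      linarith
    have h1 : ‖z + (s : ℂ)‖ ≤ ‖z + s + w‖ + ‖w‖ := by
      have := norm_sub_le (z + s + w) w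
      rwa [add_sub_cancel_right] at this
    linarith

/-- A point of the sector is in the slit plane. -/
theorem sec_slit {z : ℂ} (hz : -|z.im| < z.re) : z ∈ slitPlane := by
  rw [mem_slitPlane_iff]
  by_contra h
  push Not at h
  rw [h.2, abs_zero, neg_zero] at hz
  linarith [h.1]

/-- Proof. `∑_(i<j) log (32 / ((i+1) h)) = j log (32 / h) - log j! ≤ j (log (32 / (j h)) + 1)` since
`log j! ≥ j log j - j` (induction, or `Nat.factorial_lt..`, `Real.add_one_le_exp`: `(1 + 1/j)^j ≤ e`); with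
`y = j h` the left side is `≤ y (C + 1 + log (32 / y))`, which tends to `0` for `y → 0+`. -/
theorem sum_log (C : ℝ) {η : ℝ} (hη : 0 < η) : ∃ t₀ : ℝ, 0 < t₀ ∧ t₀ ≤ 1 ∧ ∀ h : ℝ, 0 < h →
    ∀ j : ℕ, j * h ≤ t₀ →
      h * ∑ i ∈ Finset.range j, (C + Real.log (32 / ((i + 1) * h))) ≤ η := by
  have hg : Continuous fun y : ℝ => y * (C + 1 + Real.log 32) - y * Real.log y :=
    (continuous_id.mul continuous_const).sub Real.continuous_mul_log
  have hg0 : Tendsto (fun y : ℝ => y * (C + 1 + Real.log 32) - y * Real.log y) (𝓝 0) (𝓝 0) := by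
    have := hg.tendsto 0
    simpa using this
  obtain ⟨d, hd, hd'⟩ := Metric.eventually_nhds_iff.1 (hg0.eventually (gt_mem_nhds hη))
  refine ⟨min 1 (d / 2), lt_min one_pos (by linarith), min_le_left _ _, ?_⟩
  intro h hh j hj
  rcases Nat.eq_zero_or_pos j with rfl | hj0
  · simpa using hη.le
  have hj1 : (0 : ℝ) < j := by exact_mod_cast hj0
  have hy : 0 < j * h := mul_pos hj1 hh
  have hy2 : j * h < d := by
    have := hj.trans (min_le_right _ _)
    linarith
  have h1 := hd' (y := j * h) (by rw [Real.dist_eq, sub_zero, abs_of_pos hy]; exact hy2)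
  have h2 : ∀ n : ℕ, (n : ℝ) * Real.log n - n ≤ ∑ i ∈ Finset.range n, Real.log ((i : ℝ) + 1) := by
    intro n
    induction n with
    | zero => simp
    | succ n ih =>
      rw [Finset.sum_range_succ]
      rcases Nat.eq_zero_or_pos n with rfl | hn
      · simp
      have hn' : (0 : ℝ) < n := by exact_mod_cast hn
      have h3 : Real.log ((n : ℝ) + 1) - Real.log n ≤ 1 / n := by
        rw [← Real.log_div (by positivity) hn'.ne']
        have h4 : ((n : ℝ) + 1) / n = 1 / n + 1 := by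
          rw [add_div, div_self hn'.ne', add_comm]
        rw [h4]
        have h5 := Real.log_le_sub_one_of_pos (by positivity : (0 : ℝ) < 1 / n + 1)
        linarith
      have h6 : (n : ℝ) * (Real.log ((n : ℝ) + 1) - Real.log n) ≤ 1 := by
        have := mul_le_mul_of_nonneg_left h3 hn'.le
        rwa [mul_one_div_cancel hn'.ne'] at this
      push_cast
      linarith
  have h3 : ∑ i ∈ Finset.range j, (C + Real.log (32 / ((i + 1) * h))) =
      j * (C + Real.log 32 - Real.log h) - ∑ i ∈ Finset.range j, Real.log ((i : ℝ) + 1) := by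
    have h4 : ∀ i ∈ Finset.range j, C + Real.log (32 / (((i : ℝ) + 1) * h)) =
        (C + Real.log 32 - Real.log h) - Real.log ((i : ℝ) + 1) := by
      intro i _
      have hi : (0 : ℝ) < (i : ℝ) + 1 := by positivity
      rw [Real.log_div (by norm_num) (mul_pos hi hh).ne', Real.log_mul hi.ne' hh.ne']
      ring
    rw [Finset.sum_congr rfl h4, Finset.sum_sub_distrib, Finset.sum_const, Finset.card_range,
      nsmul_eq_mul]
  rw [h3]
  have h5 : Real.log (j * h) = Real.log j + Real.log h := Real.log_mul hj1.ne' hh.ne'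
  rw [h5] at h1
  have h6 : h * (j * (C + Real.log 32 - Real.log h) -
      ∑ i ∈ Finset.range j, Real.log ((i : ℝ) + 1)) ≤
      h * (j * (C + Real.log 32 - Real.log h) - (j * Real.log j - j)) :=
    mul_le_mul_of_nonneg_left (by linarith [h2 j]) hh.le
  refine h6.trans (le_trans (le_of_eq ?_) h1.le)
  ring

/-- Proof. `∑_(i<j) 1/(i+1) ≤ 1 + log j` (`harmonic_le_one_add_log` or comparison), `j ≤ 1 / h`. -/
theorem sum_inv {h : ℝ} (hh : 0 < h) (h1 : h ≤ 1) {j : ℕ} (hj : j * h ≤ 1) :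
    ∑ i ∈ Finset.range j, (1 : ℝ) / (i + 1) ≤ 1 + Real.log (1 / h) := by
  rcases Nat.eq_zero_or_pos j with rfl | hj0
  · have h2 : 0 ≤ Real.log (1 / h) := Real.log_nonneg ((one_le_div hh).2 h1)
    rw [Finset.range_zero, Finset.sum_empty]
    linarith
  have hj1 : (0 : ℝ) < j := by exact_mod_cast hj0
  have h2 := harmonic_le_one_add_log j
  have h3 : ((harmonic j : ℚ) : ℝ) = ∑ i ∈ Finset.range j, (1 : ℝ) / (i + 1) := by
    unfold harmonic
    push_cast
    exact Finset.sum_congr rfl fun i _ => (one_div _).symm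
  rw [h3] at h2
  have h4 : Real.log j ≤ Real.log (1 / h) := Real.log_le_log hj1 ((le_div_iff₀ hh).2 hj)
  linarith

end Pool.Agent.MP_ae5b4e_an_AT
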