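import Pool.Agent.Lib.MP_ae5b4e_an_AT.Elem
import Pool.Agent.Lib.MP_ae5b4e_an_AT.Geom

/-! # AT: the chain near the tip -/

noncomputable section

namespace Pool.Agent.MP_ae5b4e_an_AT

open Complex Set Filter Topology Metric

private theorem Chain_x (ℓ : ℂ) (h : ℝ) (A : ℂ → ℂ) (u : ℂ × ℂ) (j : ℕ) :
    ((Fs ℓ h A)^[j] u).1 - u.1 =
      (h : ℂ) * ∑ i ∈ Finset.range j, lam ℓ ((Fs ℓ h A)^[i] u).2 := by
  induction j with
  | zero =>
    rw [Function.iterate_zero_apply, sub_self, Finset.range_zero, Finset.sum_empty, mul_zero]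
  | succ j ih =>
    rw [Function.iterate_succ_apply', Finset.sum_range_succ, mul_add, ← ih]
    change ((Fs ℓ h A)^[j] u).1 + h * lam ℓ ((Fs ℓ h A)^[j] u).2 - u.1 = _
    ring

private theorem Chain_z (ℓ : ℂ) (h : ℝ) (A : ℂ → ℂ) (u : ℂ × ℂ) (j : ℕ) :
    ((Fs ℓ h A)^[j] u).2 - (u.2 + j * h) =
      (h : ℂ) * ∑ i ∈ Finset.range j, (A ((Fs ℓ h A)^[i + 1] u).1 - 1) := by
  induction j with
  | zero =>
    rw [Function.iterate_zero_apply, Finset.range_zero, Finset.sum_empty, mul_zero,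
      Nat.cast_zero, zero_mul, add_zero, sub_self]
  | succ j ih =>
    rw [Finset.sum_range_succ, mul_add, ← ih, Function.iterate_succ_apply']
    change ((Fs ℓ h A)^[j] u).2 + h * A (((Fs ℓ h A)^[j] u).1 +
      h * lam ℓ ((Fs ℓ h A)^[j] u).2) - (u.2 + ((j + 1 : ℕ) : ℂ) * h) =
      ((Fs ℓ h A)^[j] u).2 - (u.2 + j * h) + h * (A (((Fs ℓ h A)^[j] u).1 +
      h * lam ℓ ((Fs ℓ h A)^[j] u).2) - 1)
    push_cast
    ring

private theorem Chain_log {z v : ℂ} {h : ℝ} (hh : 0 < h) (hv : h / 8 < ‖v‖) {l : ℕ}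
    (h1 : (‖v‖ + l * h) / 4 ≤ ‖z‖) (h2 : ‖z‖ ≤ 1) :
    |Real.log ‖z‖| ≤ Real.log (32 / ((l + 1) * h)) := by
  have hl : (0 : ℝ) ≤ l := Nat.cast_nonneg l
  have hlh : 0 ≤ (l : ℝ) * h := mul_nonneg hl hh.le
  have h3 : (l + 1) * h / 32 ≤ ‖z‖ := by linarith
  have h4 : 0 < ((l : ℝ) + 1) * h := by positivity
  have hz : 0 < ‖z‖ := lt_of_lt_of_le (by positivity) h3
  have h5 : Real.log ‖z‖ ≤ 0 := Real.log_nonpos hz.le h2
  rw [abs_of_nonpos h5, ← Real.log_inv]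
  refine Real.log_le_log (by positivity) ?_
  rw [inv_eq_one_div, div_le_div_iff₀ hz h4]
  linarith

private theorem Chain_lam {ℓ z : ℂ} (h1 : z ∈ slitPlane) (h2 : ‖cexp ℓ * z‖ < 1) :
    AnalyticAt ℂ (lam ℓ) z := by
  have h3 : 1 + cexp ℓ * z ∈ slitPlane := mem_slitPlane_of_norm_lt_one h2
  have h4 : AnalyticAt ℂ (fun z => 1 + cexp ℓ * z) z :=
    analyticAt_const.add (analyticAt_const.mul analyticAt_id)
  exact ((h4.clog h3).sub analyticAt_const).sub (analyticAt_id.clog h1)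

/-- Proof. `t₀` from `sum_log` with `C = ‖ℓ‖ + 5` and `η`, made smaller, and `κ₀ ≤ 1 / 4` with
`‖e^ℓ‖ (κ₀ + 9/8 t₀) ≤ 1 / 2`, `t₀ ≤ 1 / 4`. Strong induction on `j` (write `(x_i, z_i) := F^[i] u`,
`F^[i+1] u = F (F^[i] u)`: `Function.iterate_succ_apply'`). Let all `i ≤ j` be known and
`(j + 1) h ≤ t₀`. `‖z_i‖ ≥ (‖u.2‖ + i h) / 4 ≥ (i + 1) h / 32` (as `‖u.2‖ > h / 8`) and `‖z_i‖ ≤ 1`, so
`|log ‖z_i‖| ≤ log (32 / ((i + 1) h))` and `x_(j+1) - u.1 = h ∑_(i ≤ j) lam (z_i)` has norm `≤ η`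
(`norm_lam_le`, `sum_log`); the same for all `i ≤ j + 1`, so `x_i ∈ ball xb ρ` (`η ≤ ρ / 4`) and
`‖A (x_i) - 1‖ ≤ δ`; `z_(j+1) - u.2 = h ∑_(i ≤ j) A (x_(i+1))`. The rest is `sec_add` with
`s = (j + 1) h`, `w = z_(j+1) - u.2 - s`, `‖w‖ ≤ δ s ≤ s / 8`. It is best to prove by induction the
statement with the two sums (equalities for `x_j`, `z_j`) together with `Pas`. -/
theorem chain (ℓ : ℂ) {η : ℝ} (hη : 0 < η) : ∃ t₀ κ₀ : ℝ, 0 < t₀ ∧ t₀ ≤ 1 / 4 ∧ 0 < κ₀ ∧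
    κ₀ ≤ 1 / 4 ∧ ∀ (xb : ℂ) (ρ h δ : ℝ) (A : ℂ → ℂ), η ≤ ρ / 4 → 0 < h → 0 ≤ δ → δ ≤ 1 / 8 →
      (∀ x ∈ ball xb ρ, ‖A x - 1‖ ≤ δ) → ∀ u : ℂ × ℂ, ‖u.1 - xb‖ < ρ / 4 →
        u.2 ∈ Sec 1 (h / 8) κ₀ → ∀ j : ℕ, j * h ≤ t₀ → Pas ℓ η δ h A u j := by
  obtain ⟨t1, ht1, ht1', hsum⟩ := sum_log (‖ℓ‖ + 5) hη
  have hE : 0 < ‖cexp ℓ‖ := norm_pos_iff.2 (Complex.exp_ne_zero ℓ)
  refine ⟨min t1 (min (1 / 4) (1 / (8 * ‖cexp ℓ‖))), min (1 / 4) (1 / (8 * ‖cexp ℓ‖)),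
    lt_min ht1 (lt_min (by norm_num) (by positivity)),
    (min_le_right _ _).trans (min_le_left _ _), lt_min (by norm_num) (by positivity),
    min_le_left _ _, ?_⟩
  intro xb ρ h δ A hρ hh hδ hδ8 hA u hu1 hu2 j
  obtain ⟨hs1, hs2, hs3⟩ := hu2
  rw [one_mul] at hs1
  have hκ1 : ‖u.2‖ ≤ 1 / 4 := hs3.le.trans (min_le_left _ _)
  have hκ2 : ‖u.2‖ ≤ 1 / (8 * ‖cexp ℓ‖) := hs3.le.trans (min_le_right _ _)
  induction j using Nat.strong_induction_on with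
  | _ j ih =>
    intro hj
    have hj1 : j * h ≤ t1 := hj.trans (min_le_left _ _)
    have hj2 : j * h ≤ 1 / 4 := hj.trans ((min_le_right _ _).trans (min_le_left _ _))
    have hj3 : j * h ≤ 1 / (8 * ‖cexp ℓ‖) :=
      hj.trans ((min_le_right _ _).trans (min_le_right _ _))
    have hjh : 0 ≤ (j : ℝ) * h := by positivity
    have hP : ∀ i < j, Pas ℓ η δ h A u i := by
      intro i hi
      refine ih i hi (le_trans ?_ hj)
      exact mul_le_mul_of_nonneg_right (by exact_mod_cast hi.le) hh.le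
    -- the first coordinate
    have hx : ‖((Fs ℓ h A)^[j] u).1 - u.1‖ ≤ η := by
      rw [Chain_x, norm_mul, norm_real, Real.norm_of_nonneg hh.le]
      refine le_trans (mul_le_mul_of_nonneg_left ?_ hh.le) (hsum h hh j hj1)
      refine (norm_sum_le _ _).trans (Finset.sum_le_sum fun i hi => ?_)
      have hPi := hP i (Finset.mem_range.1 hi)
      have k1 := norm_lam_le hPi.exp
      have k2 := Chain_log hh hs2 hPi.low hPi.one
      linarith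
    -- all first coordinates are in the disc
    have hxi : ∀ i ≤ j, ‖((Fs ℓ h A)^[i] u).1 - u.1‖ ≤ η := by
      intro i hi
      rcases hi.lt_or_eq with hi | rfl
      · exact (hP i hi).x_near
      · exact hx
    have hball : ∀ i ≤ j, ((Fs ℓ h A)^[i] u).1 ∈ ball xb ρ := by
      intro i hi
      rw [mem_ball_iff_norm]
      have k1 := norm_sub_le_norm_sub_add_norm_sub ((Fs ℓ h A)^[i] u).1 u.1 xb
      have k2 := hxi i hi
      linarith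
    -- the second coordinate
    have hz : ‖((Fs ℓ h A)^[j] u).2 - (u.2 + j * h)‖ ≤ δ * (j * h) := by
      rw [Chain_z, norm_mul, norm_real, Real.norm_of_nonneg hh.le]
      have k0 : ∀ i ∈ Finset.range j, ‖A ((Fs ℓ h A)^[i + 1] u).1 - 1‖ ≤ δ := fun i hi =>
        hA _ (hball (i + 1) (Nat.succ_le_of_lt (Finset.mem_range.1 hi)))
      have k1 : ‖∑ i ∈ Finset.range j, (A ((Fs ℓ h A)^[i + 1] u).1 - 1)‖ ≤ j * δ := by
        refine (norm_sum_le_of_le _ k0).trans (le_of_eq ?_)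
        rw [Finset.sum_const, Finset.card_range, nsmul_eq_mul]
      have k2 := mul_le_mul_of_nonneg_left k1 hh.le
      linarith
    have hw : ‖((Fs ℓ h A)^[j] u).2 - (u.2 + j * h)‖ ≤ (j * h) / 8 := by
      have k1 := mul_le_mul_of_nonneg_right hδ8 hjh
      linarith
    have e : u.2 + ((((j : ℝ) * h : ℝ)) : ℂ) + (((Fs ℓ h A)^[j] u).2 - (u.2 + j * h)) =
        ((Fs ℓ h A)^[j] u).2 := by
      push_cast
      ring
    obtain ⟨q1, q2⟩ := sec_add hs1 hjh hw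
    rw [e] at q1 q2
    have hn : ‖((Fs ℓ h A)^[j] u).2‖ ≤ ‖u.2‖ + 9 / 8 * (j * h) := by
      rw [← e]
      refine (norm_add_le _ _).trans ?_
      have k1 := norm_add_le u.2 ((((j : ℝ) * h : ℝ)) : ℂ)
      rw [norm_real, Real.norm_of_nonneg hjh] at k1
      linarith
    refine ⟨hx, hz, q1, q2, ?_, by linarith⟩
    rw [norm_mul]
    have k1 : ‖((Fs ℓ h A)^[j] u).2‖ ≤ 17 / 8 * (1 / (8 * ‖cexp ℓ‖)) := by linarith
    have k2 := mul_le_mul_of_nonneg_left k1 hE.le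
    have k3 : ‖cexp ℓ‖ * (17 / 8 * (1 / (8 * ‖cexp ℓ‖))) = 17 / 64 := by
      field_simp
      norm_num
    rw [k3] at k2
    linarith

/-- Proof. Composition of analytic functions (`hasDerivAt_lam` on the open set
`{z ∈ slitPlane | ‖e^ℓ z‖ < 1}` gives analyticity of `lam ℓ`; `A` is analytic on the open ball). -/
theorem Fs_an {ℓ xb : ℂ} {ρ h : ℝ} {A : ℂ → ℂ} (hA : DifferentiableOn ℂ A (ball xb ρ))
    {u : ℂ × ℂ} (h1 : u.2 ∈ slitPlane) (h2 : ‖cexp ℓ * u.2‖ < 1)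
    (h3 : u.1 + h * lam ℓ u.2 ∈ ball xb ρ) : AnalyticAt ℂ (Fs ℓ h A) u := by
  have hl : AnalyticAt ℂ (fun u : ℂ × ℂ => lam ℓ u.2) u :=
    AnalyticAt.fun_comp (Chain_lam h1 h2) analyticAt_snd
  have hx : AnalyticAt ℂ (fun u : ℂ × ℂ => u.1 + h * lam ℓ u.2) u :=
    analyticAt_fst.add (analyticAt_const.mul hl)
  have hAx : AnalyticAt ℂ A (u.1 + h * lam ℓ u.2) := hA.analyticAt (isOpen_ball.mem_nhds h3)
  have hA' : AnalyticAt ℂ (fun u : ℂ × ℂ => A (u.1 + h * lam ℓ u.2)) u :=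
    AnalyticAt.fun_comp hAx hx
  exact AnalyticAt.prod hx (analyticAt_snd.add (analyticAt_const.mul hA'))

/-- Proof. Induction on `j`, `Function.iterate_succ'`. -/
theorem iter_an {ℓ xb : ℂ} {ρ h : ℝ} {A : ℂ → ℂ} (hA : DifferentiableOn ℂ A (ball xb ρ))
    {u : ℂ × ℂ} {j : ℕ} (h1 : ∀ i < j, ((Fs ℓ h A)^[i] u).2 ∈ slitPlane ∧
      ‖cexp ℓ * ((Fs ℓ h A)^[i] u).2‖ < 1 ∧ ((Fs ℓ h A)^[i + 1] u).1 ∈ ball xb ρ) :
    AnalyticAt ℂ ((Fs ℓ h A)^[j]) u := by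
  induction j with
  | zero => exact analyticAt_id
  | succ j ih =>
    rw [Function.iterate_succ']
    obtain ⟨k1, k2, k3⟩ := h1 j (Nat.lt_succ_self j)
    rw [Function.iterate_succ_apply'] at k3
    exact (Fs_an hA k1 k2 k3).comp (ih fun i hi => h1 i (hi.trans (Nat.lt_succ_self j)))

end Pool.Agent.MP_ae5b4e_an_AT
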