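import Mathlib

/-! # AT: the contour integral around the slit -/

noncomputable section

namespace Pool.Agent.MP_ae5b4e_an_AT

open Complex Set Filter Topology Metric MeasureTheory intervalIntegral

/-- `exp (2 π i w)` -/
def ee (w : ℂ) : ℂ := cexp (2 * Real.pi * I * w)

theorem ee_add_one (w : ℂ) : ee (w + 1) = ee w := by
  unfold ee
  rw [mul_add, mul_one, Complex.exp_add, Complex.exp_two_pi_mul_I, mul_one]

theorem norm_ee (w : ℂ) : ‖ee w‖ = Real.exp (-(2 * Real.pi * w.im)) := by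
  unfold ee
  rw [Complex.norm_exp]
  congr 1
  simp

private theorem Cont_ee_diff : Differentiable ℂ ee := by
  have h : ee = fun w => cexp (2 * Real.pi * I * w) := rfl
  rw [h]
  fun_prop

private theorem Cont_norm_ee_le {w : ℂ} {c : ℝ} (h : -c ≤ w.im) :
    ‖ee w‖ ≤ Real.exp (2 * Real.pi * c) := by
  rw [norm_ee]
  refine Real.exp_le_exp.2 ?_
  have h1 : 0 < 2 * Real.pi := by positivity
  have h2 : 2 * Real.pi * (-c) ≤ 2 * Real.pi * w.im := mul_le_mul_of_nonneg_left h h1.le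
  linarith

/-- Cauchy's theorem for two rectangles with one common side and periodic outer sides.

Proof. `Complex.integral_boundary_rect_eq_zero_of_differentiableOn` for `[-1/2, -a] × [y₁, y₂]` and `f ee`,
and for `[a, 1/2] × [y₁, y₂]` and `g ee`; add: the integrals over the sides `Re = -1/2` and `Re = 1/2`
cancel (`hper`, `ee_add_one`). -/
theorem rect_pair {f g : ℂ → ℂ} {a y₁ y₂ : ℝ} (ha : 0 ≤ a) (ha1 : a ≤ 1 / 2) (hy : y₁ ≤ y₂)
    (hf : ∀ w : ℂ, -(1 / 2) ≤ w.re → w.re ≤ -a → y₁ ≤ w.im → w.im ≤ y₂ → DifferentiableAt ℂ f w)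
    (hg : ∀ w : ℂ, a ≤ w.re → w.re ≤ 1 / 2 → y₁ ≤ w.im → w.im ≤ y₂ → DifferentiableAt ℂ g w)
    (hper : ∀ w : ℂ, w.re = -(1 / 2) → y₁ ≤ w.im → w.im ≤ y₂ → f w = g (w + 1)) :
    (∫ x : ℝ in (-(1 / 2))..(-a), f (x + y₁ * I) * ee (x + y₁ * I)) +
        (∫ x : ℝ in a..(1 / 2), g (x + y₁ * I) * ee (x + y₁ * I)) =
      (∫ x : ℝ in (-(1 / 2))..(-a), f (x + y₂ * I) * ee (x + y₂ * I)) +
        (∫ x : ℝ in a..(1 / 2), g (x + y₂ * I) * ee (x + y₂ * I)) +
        I * ((∫ y : ℝ in y₁..y₂, g (a + y * I) * ee (a + y * I)) -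
          ∫ y : ℝ in y₁..y₂, f (-a + y * I) * ee (-a + y * I)) := by
  have h1 := Complex.integral_boundary_rect_eq_zero_of_differentiableOn
    (fun w => f w * ee w) (⟨-(1 / 2), y₁⟩ : ℂ) (⟨-a, y₂⟩ : ℂ) (by
      intro w hw
      have hw1 : w.re ∈ uIcc (-(1 / 2) : ℝ) (-a) := hw.1
      have hw2 : w.im ∈ uIcc y₁ y₂ := hw.2
      rw [uIcc_of_le (by linarith)] at hw1
      rw [uIcc_of_le hy] at hw2
      exact ((hf w hw1.1 hw1.2 hw2.1 hw2.2).mul (Cont_ee_diff w)).differentiableWithinAt)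
  have h2 := Complex.integral_boundary_rect_eq_zero_of_differentiableOn
    (fun w => g w * ee w) (⟨a, y₁⟩ : ℂ) (⟨1 / 2, y₂⟩ : ℂ) (by
      intro w hw
      have hw1 : w.re ∈ uIcc a (1 / 2 : ℝ) := hw.1
      have hw2 : w.im ∈ uIcc y₁ y₂ := hw.2
      rw [uIcc_of_le ha1] at hw1
      rw [uIcc_of_le hy] at hw2
      exact ((hg w hw1.1 hw1.2 hw2.1 hw2.2).mul (Cont_ee_diff w)).differentiableWithinAt)
  have h3 : (∫ y : ℝ in y₁..y₂, f (((-(1 / 2) : ℝ) : ℂ) + y * I) *
      ee (((-(1 / 2) : ℝ) : ℂ) + y * I)) =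
      ∫ y : ℝ in y₁..y₂, g (((1 / 2 : ℝ) : ℂ) + y * I) * ee (((1 / 2 : ℝ) : ℂ) + y * I) := by
    refine intervalIntegral.integral_congr fun y hyy => ?_
    rw [uIcc_of_le hy] at hyy
    have e : (((-(1 / 2) : ℝ) : ℂ) + y * I) + 1 = ((1 / 2 : ℝ) : ℂ) + y * I := by
      push_cast
      ring
    have h4 := hper (((-(1 / 2) : ℝ) : ℂ) + y * I) (by simp) (by simpa using hyy.1)
      (by simpa using hyy.2)
    have h5 := ee_add_one (((-(1 / 2) : ℝ) : ℂ) + y * I)
    rw [e] at h4 h5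
    rw [h4, h5]
  simp only [smul_eq_mul] at h1 h2
  rw [h3] at h1
  have e1 : ((-a : ℝ) : ℂ) = -(a : ℂ) := by push_cast; rfl
  rw [e1] at h1
  linear_combination h1 + h2

/-- THE CONTOUR. Proof. `rect_pair` three times: `a = 0` on `[-T, -d]` (the sides `Re = 0` cancel by
`hlow`), `a = d` on `[-d, d]`, `a = 0` on `[d, T]`. The integrals over `[-d, 0]`, `[0, d]` at the heights
`± d`, and the sides `Re = ± d` over `[-d, d]`, are bounded by `M exp (2 π d)` times the length:
total `≤ 8 d M exp (2 π d) ≤ 16 d M` (`exp (2 π d) ≤ 2` for `d ≤ 1 / 10`). The integrals at the height `T` are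
`≤ M exp (-2 π T)`. On `[d, T]`: `g ee - f ee = (g - f) exp (-2 π τ)` at `i τ` (`intervalIntegral`
continuity: `f`, `g` are continuous there). -/
theorem contour {f g : ℂ → ℂ} {T d M : ℝ} (hd : 0 < d) (hd1 : d ≤ 1 / 10) (hT : 1 ≤ T) (hM : 0 ≤ M)
    (hf : ∀ w : ℂ, -(1 / 2) ≤ w.re → w.re ≤ 0 → |w.im| ≤ T → (d ≤ -w.re ∨ d ≤ |w.im|) →
      DifferentiableAt ℂ f w ∧ ‖f w‖ ≤ M)
    (hg : ∀ w : ℂ, 0 ≤ w.re → w.re ≤ 1 / 2 → |w.im| ≤ T → (d ≤ w.re ∨ d ≤ |w.im|) →
      DifferentiableAt ℂ g w ∧ ‖g w‖ ≤ M)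
    (hlow : ∀ w : ℂ, w.re = 0 → w.im < 0 → -w.im ≤ T → f w = g w)
    (hper : ∀ w : ℂ, w.re = -(1 / 2) → |w.im| ≤ T → f w = g (w + 1)) :
    ‖(∫ x : ℝ in (-(1 / 2))..0, f (x - T * I) * ee (x - T * I)) +
        (∫ x : ℝ in (0)..(1 / 2), g (x - T * I) * ee (x - T * I)) -
        I * ∫ τ : ℝ in d..T, (g (I * τ) - f (I * τ)) * Real.exp (-(2 * Real.pi * τ))‖ ≤
      M * (Real.exp (-(2 * Real.pi * T)) + 16 * d) := by
  have hdT : d ≤ T := by linarith
  -- continuity on horizontal and vertical segments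
  have hfc : ∀ w : ℂ, -(1 / 2) ≤ w.re → w.re ≤ 0 → |w.im| ≤ T → (d ≤ -w.re ∨ d ≤ |w.im|) →
      ContinuousAt (fun w => f w * ee w) w := fun w h1 h2 h3 h4 =>
    ((hf w h1 h2 h3 h4).1.mul (Cont_ee_diff w)).continuousAt
  have hgc : ∀ w : ℂ, 0 ≤ w.re → w.re ≤ 1 / 2 → |w.im| ≤ T → (d ≤ w.re ∨ d ≤ |w.im|) →
      ContinuousAt (fun w => g w * ee w) w := fun w h1 h2 h3 h4 =>
    ((hg w h1 h2 h3 h4).1.mul (Cont_ee_diff w)).continuousAt
  have hline : ∀ c : ℝ, Continuous fun x : ℝ => (x : ℂ) + c * I := fun c => by fun_prop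
  have hvert : Continuous fun y : ℝ => I * (y : ℂ) := by fun_prop
  -- horizontal integrability
  have hfi : ∀ c u v : ℝ, d ≤ |c| → |c| ≤ T → -(1 / 2) ≤ u → u ≤ v → v ≤ 0 →
      IntervalIntegrable (fun x : ℝ => f (x + c * I) * ee (x + c * I)) volume u v := by
    intro c u v h1 h2 h3 h4 h5
    refine ContinuousOn.intervalIntegrable fun x hx => ?_
    rw [uIcc_of_le h4] at hx
    refine ContinuousAt.continuousWithinAt ?_
    exact ContinuousAt.comp (f := fun x : ℝ => (x : ℂ) + c * I)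
      (hfc _ (by simp; linarith [hx.1]) (by simp; linarith [hx.2]) (by simpa using h2)
        (Or.inr (by simpa using h1))) (hline c).continuousAt
  have hgi : ∀ c u v : ℝ, d ≤ |c| → |c| ≤ T → 0 ≤ u → u ≤ v → v ≤ 1 / 2 →
      IntervalIntegrable (fun x : ℝ => g (x + c * I) * ee (x + c * I)) volume u v := by
    intro c u v h1 h2 h3 h4 h5
    refine ContinuousOn.intervalIntegrable fun x hx => ?_
    rw [uIcc_of_le h4] at hx
    refine ContinuousAt.continuousWithinAt ?_
    exact ContinuousAt.comp (f := fun x : ℝ => (x : ℂ) + c * I)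
      (hgc _ (by simp; linarith [hx.1]) (by simp; linarith [hx.2]) (by simpa using h2)
        (Or.inr (by simpa using h1))) (hline c).continuousAt
  have habs1 : |(-d)| = d := by rw [abs_neg, abs_of_pos hd]
  have habs2 : |d| = d := abs_of_pos hd
  have habs3 : |T| = T := abs_of_pos (by linarith)
  have habs4 : |(-T)| = T := by rw [abs_neg, habs3]
  -- three applications
  have hR1 := rect_pair (f := f) (g := g) (a := 0) (y₁ := -T) (y₂ := -d) le_rfl (by norm_num)
    (by linarith)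
    (fun w h1 h2 h3 h4 => (hf w h1 (by linarith) (abs_le.2 ⟨by linarith, by linarith⟩)
      (Or.inr (by rw [abs_of_neg (by linarith)]; linarith))).1)
    (fun w h1 h2 h3 h4 => (hg w h1 h2 (abs_le.2 ⟨by linarith, by linarith⟩)
      (Or.inr (by rw [abs_of_neg (by linarith)]; linarith))).1)
    (fun w h1 h2 h3 => hper w h1 (abs_le.2 ⟨by linarith, by linarith⟩))
  have hR2 := rect_pair (f := f) (g := g) (a := d) (y₁ := -d) (y₂ := d) hd.le (by linarith)
    (by linarith)
    (fun w h1 h2 h3 h4 => (hf w h1 (by linarith) (abs_le.2 ⟨by linarith, by linarith⟩)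
      (Or.inl (by linarith))).1)
    (fun w h1 h2 h3 h4 => (hg w (by linarith) h2 (abs_le.2 ⟨by linarith, by linarith⟩)
      (Or.inl h1)).1)
    (fun w h1 h2 h3 => hper w h1 (abs_le.2 ⟨by linarith, by linarith⟩))
  have hR3 := rect_pair (f := f) (g := g) (a := 0) (y₁ := d) (y₂ := T) le_rfl (by norm_num)
    hdT
    (fun w h1 h2 h3 h4 => (hf w h1 (by linarith) (abs_le.2 ⟨by linarith, by linarith⟩)
      (Or.inr (by rw [abs_of_pos (by linarith)]; linarith))).1)
    (fun w h1 h2 h3 h4 => (hg w h1 h2 (abs_le.2 ⟨by linarith, by linarith⟩)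
      (Or.inr (by rw [abs_of_pos (by linarith)]; linarith))).1)
    (fun w h1 h2 h3 => hper w h1 (abs_le.2 ⟨by linarith, by linarith⟩))
  have hz0 : ∀ y : ℝ, (-((0 : ℝ) : ℂ) + y * I) = I * y := fun y => by push_cast; ring
  have hz1 : ∀ y : ℝ, (((0 : ℝ) : ℂ) + y * I) = I * y := fun y => by push_cast; ring
  have hz2 : (-(0 : ℝ)) = 0 := neg_zero
  simp only [hz0, hz1, hz2] at hR1 hR3
  -- the lower sides cancel
  have hlow' : (∫ y : ℝ in (-T)..(-d), g (I * y) * ee (I * y)) =
      ∫ y : ℝ in (-T)..(-d), f (I * y) * ee (I * y) := by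
    refine intervalIntegral.integral_congr fun y hyy => ?_
    rw [uIcc_of_le (by linarith)] at hyy
    have h1 := hlow (I * y) (by simp) (by simp; linarith [hyy.2]) (by simp; linarith [hyy.1])
    rw [h1]
  rw [hlow', sub_self, mul_zero, add_zero] at hR1
  -- splitting of the horizontal integrals
  have hs1 : ∀ c : ℝ, d ≤ |c| → |c| ≤ T →
      (∫ x : ℝ in (-(1 / 2))..0, f (x + c * I) * ee (x + c * I)) =
      (∫ x : ℝ in (-(1 / 2))..(-d), f (x + c * I) * ee (x + c * I)) +
        ∫ x : ℝ in (-d)..0, f (x + c * I) * ee (x + c * I) := fun c h1 h2 =>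
    (intervalIntegral.integral_add_adjacent_intervals
      (hfi c _ _ h1 h2 le_rfl (by linarith) (by linarith))
      (hfi c _ _ h1 h2 (by linarith) (by linarith) le_rfl)).symm
  have hs2 : ∀ c : ℝ, d ≤ |c| → |c| ≤ T →
      (∫ x : ℝ in (0)..(1 / 2), g (x + c * I) * ee (x + c * I)) =
      (∫ x : ℝ in (0)..d, g (x + c * I) * ee (x + c * I)) +
        ∫ x : ℝ in d..(1 / 2), g (x + c * I) * ee (x + c * I) := fun c h1 h2 =>
    (intervalIntegral.integral_add_adjacent_intervals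
      (hgi c _ _ h1 h2 le_rfl (by linarith) (by linarith))
      (hgi c _ _ h1 h2 (by linarith) (by linarith) le_rfl)).symm
  -- the slit
  have hgv : IntervalIntegrable (fun y : ℝ => g (I * y) * ee (I * y)) volume d T := by
    refine ContinuousOn.intervalIntegrable fun y hyy => ?_
    rw [uIcc_of_le hdT] at hyy
    refine ContinuousAt.continuousWithinAt ?_
    have hy0 : |y| = y := abs_of_pos (by linarith [hyy.1])
    exact ContinuousAt.comp (f := fun y : ℝ => I * (y : ℂ))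
      (hgc _ (by simp) (by simp) (by simp [hy0, hyy.2]) (Or.inr (by simp [hy0, hyy.1])))
      hvert.continuousAt
  have hfv : IntervalIntegrable (fun y : ℝ => f (I * y) * ee (I * y)) volume d T := by
    refine ContinuousOn.intervalIntegrable fun y hyy => ?_
    rw [uIcc_of_le hdT] at hyy
    refine ContinuousAt.continuousWithinAt ?_
    have hy0 : |y| = y := abs_of_pos (by linarith [hyy.1])
    exact ContinuousAt.comp (f := fun y : ℝ => I * (y : ℂ))
      (hfc _ (by simp) (by simp) (by simp [hy0, hyy.2]) (Or.inr (by simp [hy0, hyy.1])))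
      hvert.continuousAt
  have hslit : (∫ y : ℝ in d..T, g (I * y) * ee (I * y)) -
      (∫ y : ℝ in d..T, f (I * y) * ee (I * y)) =
      ∫ τ : ℝ in d..T, (g (I * τ) - f (I * τ)) * Real.exp (-(2 * Real.pi * τ)) := by
    rw [← intervalIntegral.integral_sub hgv hfv]
    refine intervalIntegral.integral_congr fun y _ => ?_
    have h1 : ee (I * y) = (Real.exp (-(2 * Real.pi * y)) : ℝ) := by
      unfold ee
      rw [Complex.ofReal_exp]
      congr 1
      push_cast
      linear_combination (2 * (Real.pi : ℂ) * y) * Complex.I_mul_I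
    rw [h1]
    ring
  -- norms of the short integrals
  set E := Real.exp (2 * Real.pi * d) with hE
  have hE0 : 0 < E := Real.exp_pos _
  have hE2 : E ≤ 2 := by
    have h1 : 2 * Real.pi * d ≤ 0.69 := by
      have := Real.pi_lt_d2
      nlinarith [Real.pi_pos]
    have h2 : Real.exp (2 * Real.pi * d) ≤ Real.exp (Real.log 2) :=
      Real.exp_le_exp.2 (h1.trans (by have := Real.log_two_gt_d9; linarith))
    rwa [Real.exp_log (by norm_num)] at h2
  have hfd : ∀ c : ℝ, |c| = d → ‖∫ x : ℝ in (-d)..0, f (x + c * I) * ee (x + c * I)‖ ≤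
      M * E * d := by
    intro c hc
    have h1 := intervalIntegral.norm_integral_le_of_norm_le_const (a := -d) (b := 0)
      (f := fun x : ℝ => f (x + c * I) * ee (x + c * I)) (C := M * E) (by
        intro x hx
        rw [uIoc_of_le (by linarith)] at hx
        rw [norm_mul]
        refine mul_le_mul (hf _ (by simp; linarith [hx.1]) (by simp; linarith [hx.2])
          (by simp [hc, hdT]) (Or.inr (by simp [hc]))).2 (Cont_norm_ee_le ?_) (norm_nonneg _) hM
        have := neg_abs_le c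
        simp
        linarith)
    rwa [sub_neg_eq_add, zero_add, abs_of_pos hd] at h1
  have hgd : ∀ c : ℝ, |c| = d → ‖∫ x : ℝ in (0)..d, g (x + c * I) * ee (x + c * I)‖ ≤
      M * E * d := by
    intro c hc
    have h1 := intervalIntegral.norm_integral_le_of_norm_le_const (a := 0) (b := d)
      (f := fun x : ℝ => g (x + c * I) * ee (x + c * I)) (C := M * E) (by
        intro x hx
        rw [uIoc_of_le hd.le] at hx
        rw [norm_mul]
        refine mul_le_mul (hg _ (by simp; linarith [hx.1]) (by simp; linarith [hx.2])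
          (by simp [hc, hdT]) (Or.inr (by simp [hc]))).2 (Cont_norm_ee_le ?_) (norm_nonneg _) hM
        have := neg_abs_le c
        simp
        linarith)
    rwa [sub_zero, abs_of_pos hd] at h1
  have hfs : ‖∫ y : ℝ in (-d)..d, f (-d + y * I) * ee (-d + y * I)‖ ≤ M * E * (2 * d) := by
    have h1 := intervalIntegral.norm_integral_le_of_norm_le_const (a := -d) (b := d)
      (f := fun y : ℝ => f (-d + y * I) * ee (-d + y * I)) (C := M * E) (by
        intro y hyy
        rw [uIoc_of_le (by linarith)] at hyy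
        have hy1 : |y| ≤ T := abs_le.2 ⟨by linarith [hyy.1], by linarith [hyy.2]⟩
        rw [norm_mul]
        refine mul_le_mul (hf _ (by simp; linarith) (by simp; linarith)
          (by simpa using hy1) (Or.inl (by simp))).2 (Cont_norm_ee_le ?_) (norm_nonneg _) hM
        simp
        linarith [hyy.1])
    have e : |d - -d| = 2 * d := by rw [sub_neg_eq_add, ← two_mul, abs_of_pos (by linarith)]
    rwa [e] at h1
  have hgs : ‖∫ y : ℝ in (-d)..d, g (d + y * I) * ee (d + y * I)‖ ≤ M * E * (2 * d) := by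
    have h1 := intervalIntegral.norm_integral_le_of_norm_le_const (a := -d) (b := d)
      (f := fun y : ℝ => g (d + y * I) * ee (d + y * I)) (C := M * E) (by
        intro y hyy
        rw [uIoc_of_le (by linarith)] at hyy
        have hy1 : |y| ≤ T := abs_le.2 ⟨by linarith [hyy.1], by linarith [hyy.2]⟩
        rw [norm_mul]
        refine mul_le_mul (hg _ (by simp; linarith) (by simp; linarith)
          (by simpa using hy1) (Or.inl (by simp))).2 (Cont_norm_ee_le ?_) (norm_nonneg _) hM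
        simp
        linarith [hyy.1])
    have e : |d - -d| = 2 * d := by rw [sub_neg_eq_add, ← two_mul, abs_of_pos (by linarith)]
    rwa [e] at h1
  -- the top integrals
  have hft : ‖∫ x : ℝ in (-(1 / 2))..0, f (x + T * I) * ee (x + T * I)‖ ≤
      M * Real.exp (-(2 * Real.pi * T)) * (1 / 2) := by
    have h1 := intervalIntegral.norm_integral_le_of_norm_le_const (a := -(1 / 2)) (b := 0)
      (f := fun x : ℝ => f (x + T * I) * ee (x + T * I))
      (C := M * Real.exp (-(2 * Real.pi * T))) (by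
        intro x hx
        rw [uIoc_of_le (by norm_num)] at hx
        rw [norm_mul]
        refine mul_le_mul (hf _ (by simp; linarith [hx.1]) (by simp; linarith [hx.2])
          (by simp [habs3]) (Or.inr (by simp [habs3, hdT]))).2 ?_ (norm_nonneg _) hM
        rw [norm_ee]
        simp)
    have e : |0 - -(1 / 2 : ℝ)| = 1 / 2 := by norm_num
    rwa [e] at h1
  have hgt : ‖∫ x : ℝ in (0)..(1 / 2), g (x + T * I) * ee (x + T * I)‖ ≤
      M * Real.exp (-(2 * Real.pi * T)) * (1 / 2) := by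
    have h1 := intervalIntegral.norm_integral_le_of_norm_le_const (a := 0) (b := 1 / 2)
      (f := fun x : ℝ => g (x + T * I) * ee (x + T * I))
      (C := M * Real.exp (-(2 * Real.pi * T))) (by
        intro x hx
        rw [uIoc_of_le (by norm_num)] at hx
        rw [norm_mul]
        refine mul_le_mul (hg _ (by simp; linarith [hx.1]) (by simp; linarith [hx.2])
          (by simp [habs3]) (Or.inr (by simp [habs3, hdT]))).2 ?_ (norm_nonneg _) hM
        rw [norm_ee]
        simp)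
    have e : |(1 / 2 : ℝ) - 0| = 1 / 2 := by norm_num
    rwa [e] at h1
  -- assembly
  have hb1 : ∀ x : ℝ, ((x : ℂ) - T * I) = x + ((-T : ℝ) : ℂ) * I := fun x => by push_cast; ring
  simp only [hb1]
  have e1 := hs1 (-d) (by rw [habs1]) (by rw [habs1]; exact hdT)
  have e2 := hs2 (-d) (by rw [habs1]) (by rw [habs1]; exact hdT)
  have e3 := hs1 d (by rw [habs2]) (by rw [habs2]; exact hdT)
  have e4 := hs2 d (by rw [habs2]) (by rw [habs2]; exact hdT)
  have hfin : (∫ x : ℝ in (-(1 / 2))..0, f (x + ((-T : ℝ) : ℂ) * I) *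
        ee (x + ((-T : ℝ) : ℂ) * I)) +
      (∫ x : ℝ in (0)..(1 / 2), g (x + ((-T : ℝ) : ℂ) * I) * ee (x + ((-T : ℝ) : ℂ) * I)) -
      I * (∫ τ : ℝ in d..T, (g (I * τ) - f (I * τ)) * Real.exp (-(2 * Real.pi * τ))) =
      (∫ x : ℝ in (-d)..0, f (x + ((-d : ℝ) : ℂ) * I) * ee (x + ((-d : ℝ) : ℂ) * I)) +
      (∫ x : ℝ in (0)..d, g (x + ((-d : ℝ) : ℂ) * I) * ee (x + ((-d : ℝ) : ℂ) * I)) -
      (∫ x : ℝ in (-d)..0, f (x + d * I) * ee (x + d * I)) -
      (∫ x : ℝ in (0)..d, g (x + d * I) * ee (x + d * I)) +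
      I * (∫ y : ℝ in (-d)..d, g (d + y * I) * ee (d + y * I)) -
      I * (∫ y : ℝ in (-d)..d, f (-d + y * I) * ee (-d + y * I)) +
      (∫ x : ℝ in (-(1 / 2))..0, f (x + T * I) * ee (x + T * I)) +
      ∫ x : ℝ in (0)..(1 / 2), g (x + T * I) * ee (x + T * I) := by
    rw [← hslit]
    linear_combination hR1 + hR2 + hR3 + e1 + e2 - e3 - e4
  rw [hfin]
  have hI : ∀ u : ℂ, ‖I * u‖ = ‖u‖ := fun u => by rw [norm_mul, Complex.norm_I, one_mul]
  have n1 := hfd (-d) habs1
  have n2 := hgd (-d) habs1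
  have n3 := hfd d habs2
  have n4 := hgd d habs2
  refine (norm_add_le_of_le (norm_add_le_of_le (norm_sub_le_of_le (norm_add_le_of_le
    (norm_sub_le_of_le (norm_sub_le_of_le (norm_add_le_of_le n1 n2) n3) n4)
    ((hI _).le.trans hgs)) ((hI _).le.trans hfs)) hft) hgt).trans ?_
  have hME : M * E ≤ M * 2 := mul_le_mul_of_nonneg_left hE2 hM
  have hMEd : M * E * d ≤ M * 2 * d := mul_le_mul_of_nonneg_right hME hd.le
  nlinarith

/-- LOWER BOUND. Proof. `contour`; `g - f = - m + e`, `‖e‖ ≤ ‖m‖ / 4`, so the integral over `[d, T]` has norm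
`≥ (3/4) ‖m‖ (exp (-2 π d) - exp (-2 π T)) / (2 π) ≥ (3/4) (1/2) ‖m‖ / (2 π) = 3 ‖m‖ / (16 π)`
(`exp (-2 π d) ≥ exp (-π/5) ≥ 1/2 + 1/100`: use `d ≤ 1/20` and `exp x ≥ 1 + x`; `exp (-2 π T) ≤ 1/100`). -/
theorem contour_low {f g : ℂ → ℂ} {T d M : ℝ} {m : ℂ} (hd : 0 < d) (hd1 : d ≤ 1 / 20) (hT : 1 ≤ T)
    (hM : 0 ≤ M)
    (hf : ∀ w : ℂ, -(1 / 2) ≤ w.re → w.re ≤ 0 → |w.im| ≤ T → (d ≤ -w.re ∨ d ≤ |w.im|) →
      DifferentiableAt ℂ f w ∧ ‖f w‖ ≤ M)
    (hg : ∀ w : ℂ, 0 ≤ w.re → w.re ≤ 1 / 2 → |w.im| ≤ T → (d ≤ w.re ∨ d ≤ |w.im|) →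
      DifferentiableAt ℂ g w ∧ ‖g w‖ ≤ M)
    (hlow : ∀ w : ℂ, w.re = 0 → w.im < 0 → -w.im ≤ T → f w = g w)
    (hper : ∀ w : ℂ, w.re = -(1 / 2) → |w.im| ≤ T → f w = g (w + 1))
    (hm : ∀ τ : ℝ, d ≤ τ → τ ≤ T → ‖g (I * τ) - f (I * τ) + m‖ ≤ ‖m‖ / 4)
    (hMm : M * (Real.exp (-(2 * Real.pi * T)) + 16 * d) ≤ ‖m‖ / (16 * Real.pi)) :
    ‖m‖ / (8 * Real.pi) ≤
      ‖(∫ x : ℝ in (-(1 / 2))..0, f (x - T * I) * ee (x - T * I)) +
        (∫ x : ℝ in (0)..(1 / 2), g (x - T * I) * ee (x - T * I))‖ := by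
  have hdT : d ≤ T := by linarith
  have h1 := contour hd (by linarith) hT hM hf hg hlow hper
  set B : ℂ := (∫ x : ℝ in (-(1 / 2))..0, f (x - T * I) * ee (x - T * I)) +
        (∫ x : ℝ in (0)..(1 / 2), g (x - T * I) * ee (x - T * I)) with hB
  set J : ℂ := ∫ τ : ℝ in d..T, (g (I * τ) - f (I * τ)) * Real.exp (-(2 * Real.pi * τ)) with hJ
  have hpi := Real.pi_pos
  -- continuity on the slit
  have hcont : ContinuousOn (fun τ : ℝ => g (I * τ) - f (I * τ)) (uIcc d T) := by
    intro y hyy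
    rw [uIcc_of_le hdT] at hyy
    have hy0 : |y| = y := abs_of_pos (by linarith [hyy.1])
    have hvert : Continuous fun y : ℝ => I * (y : ℂ) := by fun_prop
    refine ContinuousAt.continuousWithinAt ?_
    refine ContinuousAt.sub ?_ ?_
    · exact ContinuousAt.comp (f := fun y : ℝ => I * (y : ℂ))
        (hg _ (by simp) (by simp) (by simp [hy0, hyy.2])
          (Or.inr (by simp [hy0, hyy.1]))).1.continuousAt hvert.continuousAt
    · exact ContinuousAt.comp (f := fun y : ℝ => I * (y : ℂ))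
        (hf _ (by simp) (by simp) (by simp [hy0, hyy.2])
          (Or.inr (by simp [hy0, hyy.1]))).1.continuousAt hvert.continuousAt
  have hexpc : Continuous fun τ : ℝ => Real.exp (-(2 * Real.pi * τ)) := by fun_prop
  have hexpc' : Continuous fun τ : ℝ => ((Real.exp (-(2 * Real.pi * τ)) : ℝ) : ℂ) :=
    Complex.continuous_ofReal.comp hexpc
  set K : ℝ := ∫ τ : ℝ in d..T, Real.exp (-(2 * Real.pi * τ)) with hK
  -- J = - m K + rest
  have hJ1 : J = -(m * K) + ∫ τ : ℝ in d..T, (g (I * τ) - f (I * τ) + m) *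
      Real.exp (-(2 * Real.pi * τ)) := by
    have e1 : (m * K : ℂ) = ∫ τ : ℝ in d..T, m * (Real.exp (-(2 * Real.pi * τ)) : ℝ) := by
      rw [intervalIntegral.integral_const_mul, hK, intervalIntegral.integral_ofReal]
    rw [e1, ← intervalIntegral.integral_neg, ← intervalIntegral.integral_add]
    · refine intervalIntegral.integral_congr fun y _ => ?_
      ring
    · exact ((continuous_const.mul hexpc').neg).intervalIntegrable _ _
    · exact ((hcont.add continuousOn_const).mul hexpc'.continuousOn).intervalIntegrable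
  have hrest : ‖∫ τ : ℝ in d..T, (g (I * τ) - f (I * τ) + m) *
      Real.exp (-(2 * Real.pi * τ))‖ ≤ ‖m‖ / 4 * K := by
    rw [hK, ← intervalIntegral.integral_const_mul]
    refine intervalIntegral.norm_integral_le_of_norm_le hdT ?_
      ((continuous_const.mul hexpc).intervalIntegrable _ _)
    refine Filter.Eventually.of_forall fun y hyy => ?_
    rw [norm_mul, Complex.norm_real, Real.norm_of_nonneg (Real.exp_pos _).le]
    exact mul_le_mul_of_nonneg_right (hm y hyy.1.le hyy.2) (Real.exp_pos _).le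
  -- the value of K
  have hKval : K = (Real.exp (-(2 * Real.pi * d)) - Real.exp (-(2 * Real.pi * T))) /
      (2 * Real.pi) := by
    have hder : ∀ y ∈ uIcc d T, HasDerivAt
        (fun y : ℝ => -(Real.exp (-(2 * Real.pi * y)) / (2 * Real.pi)))
        (Real.exp (-(2 * Real.pi * y))) y := by
      intro y _
      have h2 : HasDerivAt (fun y : ℝ => -(2 * Real.pi * y)) (-(2 * Real.pi)) y := by
        simpa using ((hasDerivAt_id y).const_mul (2 * Real.pi)).fun_neg
      have h3 := (h2.exp.div_const (2 * Real.pi)).neg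
      have e : -(Real.exp (-(2 * Real.pi * y)) * -(2 * Real.pi) / (2 * Real.pi)) =
          Real.exp (-(2 * Real.pi * y)) := by
        field_simp
      rw [e] at h3
      exact h3
    rw [hK, intervalIntegral.integral_eq_sub_of_hasDerivAt hder (hexpc.intervalIntegrable _ _)]
    ring
  have hexp1 : 1 - 2 * Real.pi * d ≤ Real.exp (-(2 * Real.pi * d)) := by
    have := Real.add_one_le_exp (-(2 * Real.pi * d))
    linarith
  have hexp2 : Real.exp (-(2 * Real.pi * T)) ≤ 1 / 7 := by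
    have h2 : (7 : ℝ) ≤ Real.exp (2 * Real.pi * T) := by
      have h3 := Real.add_one_le_exp (2 * Real.pi * T)
      have h4 := Real.pi_gt_three
      nlinarith
    rw [Real.exp_neg, one_div]
    exact inv_anti₀ (by norm_num) h2
  have hpd : 2 * Real.pi * d ≤ 0.315 := by
    have := Real.pi_lt_d2
    nlinarith
  have hKlow : 1 / 2 / (2 * Real.pi) ≤ K := by
    rw [hKval]
    refine div_le_div_of_nonneg_right ?_ (by positivity)
    linarith
  have hK0 : 0 < K := lt_of_lt_of_le (by positivity) hKlow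
  have hJlow : 3 / 4 * ‖m‖ * K ≤ ‖J‖ := by
    have h2 : ‖m‖ * K ≤ ‖J‖ + ‖m‖ / 4 * K := by
      have e : m * K = (∫ τ : ℝ in d..T, (g (I * τ) - f (I * τ) + m) *
          Real.exp (-(2 * Real.pi * τ))) - J := by
        rw [hJ1]
        ring
      calc ‖m‖ * K = ‖m * K‖ := by
            rw [norm_mul, Complex.norm_real, Real.norm_of_nonneg hK0.le]
        _ ≤ ‖m‖ / 4 * K + ‖J‖ := by
            rw [e]
            exact norm_sub_le_of_le hrest le_rfl
        _ = ‖J‖ + ‖m‖ / 4 * K := add_comm _ _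
    linarith
  have h5 : ‖J‖ ≤ ‖B‖ + ‖m‖ / (16 * Real.pi) := by
    have e : I * J = B - (B - I * J) := by ring
    have h6 : ‖I * J‖ = ‖J‖ := by rw [norm_mul, Complex.norm_I, one_mul]
    rw [← h6, e]
    exact norm_sub_le_of_le le_rfl (h1.trans hMm)
  have h7 : 3 / 4 * ‖m‖ * (1 / 2 / (2 * Real.pi)) ≤ 3 / 4 * ‖m‖ * K :=
    mul_le_mul_of_nonneg_left hKlow (by positivity)
  have h8 : ‖m‖ / (8 * Real.pi) = 3 / 4 * ‖m‖ * (1 / 2 / (2 * Real.pi)) -
      ‖m‖ / (16 * Real.pi) := by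
    field_simp
    ring
  rw [h8]
  linarith

end Pool.Agent.MP_ae5b4e_an_AT
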