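import Pool.Agent.Lib.MP_ae5b4e_an_AT.Dz
import Pool.Agent.Lib.MP_ae5b4e_an_MT.RootE

/-! # AT: the exact curve near the tip, implicit function -/

noncomputable section

namespace Pool.Agent.MP_ae5b4e_an_AT

open Complex Set Filter Topology Metric

variable {ℓ xb : ℂ} {ρ κ h : ℝ} {A : ℂ → ℂ} {γ₀ θb : ℂ} {t : ℝ} {L T R : ℂ × ℂ → ℂ}

private theorem isOpen_Dz (κ h : ℝ) : IsOpen (Dz κ h) :=
  (isOpen_lt continuous_norm continuous_const).inter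
    (isOpen_lt Complex.continuous_re ((Complex.continuous_im.abs).add continuous_const))

private theorem fderiv_split {F : ℂ × ℂ → ℂ} (u : ℂ × ℂ) (a : ℂ) :
    fderiv ℂ F u (a, 1) = a * fderiv ℂ F u (1, 0) + fderiv ℂ F u (0, 1) := by
  have h1 : ((a, 1) : ℂ × ℂ) = a • ((1, 0) : ℂ × ℂ) + (0, 1) := by
    ext <;> simp
  rw [h1, map_add, map_smul, smul_eq_mul]

private theorem hasDerivAt_left {F : ℂ × ℂ → ℂ} {x z : ℂ} (hF : AnalyticAt ℂ F (x, z)) :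
    HasDerivAt (fun x => F (x, z)) (fderiv ℂ F (x, z) (1, 0)) x := by
  have h1 : HasDerivAt (fun x : ℂ => (x, z)) ((1 : ℂ), (0 : ℂ)) x :=
    (hasDerivAt_id x).prodMk (hasDerivAt_const x z)
  exact HasFDerivAt.comp_hasDerivAt (f := fun x : ℂ => (x, z)) x
    hF.differentiableAt.hasFDerivAt h1

/-- Proof. `MT.rootE` with `E = ℂ`, `G = Dz κ h`, `a = xb` (constant), `r = ρ / 4`,
`P (z, x) = (L (x, z) - γ₀) / (e^ℓ γ₀)`, `P' (z, x) = fderiv L (x, z) (1, 0) / (e^ℓ γ₀)`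
(`‖P' - 1‖ ≤ 1 / 64`, `‖P (z, xb)‖ ≤ ρ / 16 < ρ / 8`). -/
theorem exists_xi (hT : TipN ℓ xb ρ κ h A γ₀ θb t L T R) :
    ∃ ξ : ℂ → ℂ, DifferentiableOn ℂ ξ (Dz κ h) ∧ ∀ z ∈ Dz κ h, ‖ξ z - xb‖ ≤ ρ / 8 ∧
      L (ξ z, z) = γ₀ ∧ ∀ x, ‖x - xb‖ ≤ ρ / 4 → L (x, z) = γ₀ → x = ξ z := by
  have ha : cexp ℓ * γ₀ ≠ 0 := mul_ne_zero (Complex.exp_ne_zero _) hT.γ_ne
  have hna : 0 < ‖cexp ℓ * γ₀‖ := norm_pos_iff.2 ha
  have hρ := hT.ρ_pos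
  have hmem : ∀ z ∈ Dz κ h, ∀ x, ‖x - xb‖ ≤ ρ / 4 → (x, z) ∈ DL xb ρ κ h := by
    intro z hz x hx
    exact ⟨lt_of_le_of_lt hx (by linarith), hz.1, hz.2⟩
  have hxb : ∀ z ∈ Dz κ h, (xb, z) ∈ DL xb ρ κ h := by
    intro z hz
    refine hmem z hz xb ?_
    rw [sub_self, norm_zero]
    linarith
  obtain ⟨ξ, hξan, hξ⟩ := MP_ae5b4e_an_MT.rootE (E := ℂ)
    (P := fun p : ℂ × ℂ => (L (p.2, p.1) - γ₀) / (cexp ℓ * γ₀))
    (P' := fun p : ℂ × ℂ => fderiv ℂ L (p.2, p.1) (1, 0) / (cexp ℓ * γ₀))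
    (G := Dz κ h) (a := fun _ => xb) (r := ρ / 4) (by linarith) (isOpen_Dz κ h)
    continuousOn_const (by
      intro z hz x hx
      rw [mem_closedBall, dist_eq_norm] at hx
      have h1 : AnalyticAt ℂ L (x, z) := hT.L_an _ (hmem z hz x hx)
      have h2 : AnalyticAt ℂ (fun p : ℂ × ℂ => L (p.2, p.1)) (z, x) :=
        AnalyticAt.fun_comp (f := fun p : ℂ × ℂ => (p.2, p.1)) (x := (z, x)) h1
          (analyticAt_snd.prod analyticAt_fst)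
      exact (h2.sub analyticAt_const).div_const) (by
      intro z hz x hx
      rw [mem_closedBall, dist_eq_norm] at hx
      refine ⟨?_, ?_⟩
      · exact ((hasDerivAt_left (hT.L_an _ (hmem z hz x hx))).sub_const γ₀).div_const _
      · have h1 := hT.L_x _ (hmem z hz x hx)
        have h2 : fderiv ℂ L (x, z) (1, 0) / (cexp ℓ * γ₀) - 1 =
            (fderiv ℂ L (x, z) (1, 0) - cexp ℓ * γ₀) / (cexp ℓ * γ₀) := by
          rw [sub_div, div_self ha]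
        change ‖fderiv ℂ L (x, z) (1, 0) / (cexp ℓ * γ₀) - 1‖ ≤ 1 / 2
        rw [h2, norm_div, div_le_iff₀ hna]
        linarith) (by
      intro z hz
      have h1 := hT.L_0 z (hxb z hz)
      change ‖(L (xb, z) - γ₀) / (cexp ℓ * γ₀)‖ < ρ / 4 / 2
      rw [norm_div, div_lt_iff₀ hna]
      have h2 : 0 < ρ * ‖cexp ℓ * γ₀‖ := mul_pos hρ hna
      nlinarith [h1, h2])
  refine ⟨ξ, hξan.differentiableOn, fun z hz => ?_⟩
  obtain ⟨h1, h2, h3⟩ := hξ z hz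
  have hP0 : ∀ x, L (x, z) = γ₀ ↔ (L (x, z) - γ₀) / (cexp ℓ * γ₀) = 0 := by
    intro x
    rw [div_eq_zero_iff, or_iff_left ha, sub_eq_zero]
  refine ⟨?_, (hP0 _).2 h2, fun x hx hL => h3 x ?_ ((hP0 x).1 hL)⟩
  · refine h1.trans ?_
    have h4 := hT.L_0 z (hxb z hz)
    change 2 * ‖(L (xb, z) - γ₀) / (cexp ℓ * γ₀)‖ ≤ ρ / 8
    rw [norm_div, ← mul_div_assoc, div_le_iff₀ hna]
    linarith
  · rw [mem_closedBall, dist_eq_norm]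
    exact hx

/-- Proof. Differentiate `L (ξ z, z) = γ₀`: `L_x ξ' + L_z = 0` (`fderiv L u (a, b) = a L_x + b L_z`);
`σ' = T_x ξ' + T_z = (T_z L_x - T_x L_z) / L_x = - jac T L / L_x`. With `a = e^ℓ γ₀ ≠ 0`:
`‖σ' - 1‖ = ‖(jac + L_x) / L_x‖ ≤ (‖jac + a‖ + ‖L_x - a‖) / ‖L_x‖ ≤ (2/64) / (63/64) = 2/63 ≤ 1/31`. -/
theorem sigma_deriv (hT : TipN ℓ xb ρ κ h A γ₀ θb t L T R) {ξ : ℂ → ℂ}
    (hξ : DifferentiableOn ℂ ξ (Dz κ h)) (hξ1 : ∀ z ∈ Dz κ h, ‖ξ z - xb‖ ≤ ρ / 8 ∧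
      L (ξ z, z) = γ₀) {z : ℂ} (hz : z ∈ Dz κ h) :
    DifferentiableAt ℂ (fun z => T (ξ z, z)) z ∧
      ‖deriv (fun z => T (ξ z, z)) z - 1‖ ≤ 1 / 31 := by
  have ha : cexp ℓ * γ₀ ≠ 0 := mul_ne_zero (Complex.exp_ne_zero _) hT.γ_ne
  have hna : 0 < ‖cexp ℓ * γ₀‖ := norm_pos_iff.2 ha
  have hρ := hT.ρ_pos
  have hmem : (ξ z, z) ∈ DL xb ρ κ h :=
    ⟨lt_of_le_of_lt (hξ1 z hz).1 (by linarith), hz.1, hz.2⟩
  have hξd : HasDerivAt ξ (deriv ξ z) z :=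
    (hξ.differentiableAt ((isOpen_Dz κ h).mem_nhds hz)).hasDerivAt
  have hp : HasDerivAt (fun w => (ξ w, w)) (deriv ξ z, (1 : ℂ)) z := hξd.prodMk (hasDerivAt_id z)
  have hLd : HasDerivAt (fun w => L (ξ w, w)) (fderiv ℂ L (ξ z, z) (deriv ξ z, 1)) z :=
    HasFDerivAt.comp_hasDerivAt (f := fun w => (ξ w, w)) z
      (hT.L_an _ hmem).differentiableAt.hasFDerivAt hp
  have hTd : HasDerivAt (fun w => T (ξ w, w)) (fderiv ℂ T (ξ z, z) (deriv ξ z, 1)) z :=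
    HasFDerivAt.comp_hasDerivAt (f := fun w => (ξ w, w)) z
      (hT.T_an _ hmem).differentiableAt.hasFDerivAt hp
  have hL0 : fderiv ℂ L (ξ z, z) (deriv ξ z, 1) = 0 := by
    have hev : (fun w => L (ξ w, w)) =ᶠ[𝓝 z] fun _ => γ₀ := by
      filter_upwards [(isOpen_Dz κ h).mem_nhds hz] with w hw
      exact (hξ1 w hw).2
    exact hLd.unique ((hasDerivAt_const z γ₀).congr_of_eventuallyEq hev)
  rw [fderiv_split] at hL0
  rw [fderiv_split] at hTd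
  refine ⟨hTd.differentiableAt, ?_⟩
  rw [hTd.deriv]
  have hJ := hT.J _ hmem
  have hLx := hT.L_x _ hmem
  unfold jac at hJ
  generalize fderiv ℂ L (ξ z, z) (1, 0) = a1 at hJ hLx hL0
  generalize fderiv ℂ L (ξ z, z) (0, 1) = a2 at hJ hL0
  generalize fderiv ℂ T (ξ z, z) (1, 0) = b1 at hJ ⊢
  generalize fderiv ℂ T (ξ z, z) (0, 1) = b2 at hJ ⊢
  generalize deriv ξ z = d at hL0 ⊢
  generalize cexp ℓ * γ₀ = a at *
  have h1 : 63 / 64 * ‖a‖ ≤ ‖a1‖ := by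
    have h2 := norm_sub_norm_le a a1
    rw [norm_sub_rev] at h2
    linarith
  have ha1 : a1 ≠ 0 := by
    intro h0
    rw [h0, norm_zero] at h1
    linarith
  have h2 : d * b1 + b2 - 1 = (-(b1 * a2 - b2 * a1 + a) - (a1 - a)) / a1 := by
    rw [eq_div_iff ha1]
    linear_combination b1 * hL0
  rw [h2, norm_div, div_le_iff₀ (norm_pos_iff.2 ha1)]
  have h3 := norm_sub_le (-(b1 * a2 - b2 * a1 + a)) (a1 - a)
  rw [norm_neg] at h3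
  linarith

end Pool.Agent.MP_ae5b4e_an_AT
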