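import Pool.Agent.Lib.MP_ae5b4e_an_AT.Defs

/-! # AT: the functions `lam` and `sz` -/

noncomputable section

namespace Pool.Agent.MP_ae5b4e_an_AT

open Complex Set Filter Topology Metric

variable {ℓ z : ℂ}

private theorem Elem_exp (ℓ z : ℂ) : cexp (ℓ - Real.pi * I) * -z = cexp ℓ * z := by
  rw [exp_sub, exp_pi_mul_I]
  ring

private theorem Elem_low {z : ℂ} (hz : z.im < 0) : log (-z) = log z + Real.pi * I := by
  unfold Complex.log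
  rw [arg_neg_eq_arg_add_pi_of_im_neg hz, norm_neg]
  push_cast
  ring

private theorem Elem_up {z : ℂ} (hz : 0 < z.im) : log (-z) = log z - Real.pi * I := by
  unfold Complex.log
  rw [arg_neg_eq_arg_sub_pi_of_im_pos hz, norm_neg]
  push_cast
  ring

private theorem Elem_I {z : ℂ} (h0 : z ≠ 0) (hz : 0 ≤ z.re ∨ z.im < 0) :
    log (I * z) = log z + Real.pi / 2 * I := by
  have h1 := arg_le_pi_div_two_iff.2 hz
  have h2 := neg_pi_lt_arg z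
  have hpi := Real.pi_pos
  rw [log_mul I_ne_zero h0, log_I]
  · ring
  · rw [arg_I]
    exact ⟨by linarith, by linarith⟩

private theorem Elem_lognorm (z : ℂ) : ‖log z‖ ≤ |Real.log ‖z‖| + Real.pi := by
  have h1 := norm_le_abs_re_add_abs_im (log z)
  rw [log_re, log_im] at h1
  have h2 := abs_arg_le_pi z
  linarith

/-- Proof. `exp (log w) = w` for `w ≠ 0`, three times. -/
theorem exp_lam (hz : z ≠ 0) (h1 : 1 + cexp ℓ * z ≠ 0) :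
    cexp (lam ℓ z) = (1 + cexp ℓ * z) / (cexp ℓ * z) := by
  unfold lam
  rw [exp_sub, exp_sub, exp_log h1, exp_log hz, div_div]

/-- Proof. `1 + p ∈ slitPlane` since `‖p‖ < 1` (`Complex.mem_slitPlane_of_norm_lt_one`);
`e^ℓ / (1 + e^ℓ z) - 1 / z = - 1 / (z (1 + e^ℓ z))`. -/
theorem hasDerivAt_lam (hz : z ∈ slitPlane) (h1 : ‖cexp ℓ * z‖ < 1) :
    HasDerivAt (lam ℓ) (-(1 / (z * (1 + cexp ℓ * z)))) z := by
  have hz0 : z ≠ 0 := slitPlane_ne_zero hz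
  have hs : 1 + cexp ℓ * z ∈ slitPlane := mem_slitPlane_of_norm_lt_one h1
  have hs0 : 1 + cexp ℓ * z ≠ 0 := slitPlane_ne_zero hs
  have d1 : HasDerivAt (fun z => 1 + cexp ℓ * z) (cexp ℓ) z := by
    simpa using ((hasDerivAt_id z).const_mul (cexp ℓ)).const_add 1
  have d2 := ((d1.clog hs).sub_const ℓ).sub (hasDerivAt_log hz)
  have h2 : cexp ℓ / (1 + cexp ℓ * z) - z⁻¹ = -(1 / (z * (1 + cexp ℓ * z))) := by
    field_simp
    ring
  rw [← h2]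
  exact d2

/-- Proof. Product rule: `e^ℓ (log (1 + p) + 1) - (e^ℓ (ℓ + log z) + e^ℓ)`. -/
theorem hasDerivAt_sz (hz : z ∈ slitPlane) (h1 : ‖cexp ℓ * z‖ < 1) :
    HasDerivAt (sz ℓ) (cexp ℓ * lam ℓ z) z := by
  have hz0 : z ≠ 0 := slitPlane_ne_zero hz
  have hs : 1 + cexp ℓ * z ∈ slitPlane := mem_slitPlane_of_norm_lt_one h1
  have hs0 : 1 + cexp ℓ * z ≠ 0 := slitPlane_ne_zero hs
  have d1 : HasDerivAt (fun z => 1 + cexp ℓ * z) (cexp ℓ) z := by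
    simpa using ((hasDerivAt_id z).const_mul (cexp ℓ)).const_add 1
  have d0 : HasDerivAt (fun z => cexp ℓ * z) (cexp ℓ) z := by
    simpa using (hasDerivAt_id z).const_mul (cexp ℓ)
  have d2 := (d1.mul (d1.clog hs)).sub (d0.mul ((hasDerivAt_log hz).const_add ℓ))
  have h2 : cexp ℓ * log (1 + cexp ℓ * z) + (1 + cexp ℓ * z) * (cexp ℓ / (1 + cexp ℓ * z)) -
      (cexp ℓ * (ℓ + log z) + cexp ℓ * z * z⁻¹) = cexp ℓ * lam ℓ z := by
    unfold lam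
    rw [mul_div_cancel₀ _ hs0, mul_assoc (cexp ℓ) z, mul_inv_cancel₀ hz0]
    ring
  rw [← h2]
  exact d2

/-- Proof. `‖log (1 + p)‖ ≤ 3/2 ‖p‖ ≤ 1` (`Complex.norm_log_one_add_half_le_self`),
`‖log z‖ ≤ |log ‖z‖| + π`, `π + 1 ≤ 5`. -/
theorem norm_lam_le (h1 : ‖cexp ℓ * z‖ ≤ 1 / 2) :
    ‖lam ℓ z‖ ≤ ‖ℓ‖ + 5 + |Real.log ‖z‖| := by
  have h2 := norm_log_one_add_half_le_self h1
  have h3 := Elem_lognorm z
  have h4 : ‖lam ℓ z‖ ≤ ‖log (1 + cexp ℓ * z)‖ + ‖ℓ‖ + ‖log z‖ := by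
    unfold lam
    refine (norm_sub_le _ _).trans ?_
    have h5 := norm_sub_le (log (1 + cexp ℓ * z)) ℓ
    linarith
  have h5 := Real.pi_lt_d2
  linarith

/-- Proof. For `‖z‖` small `‖log (1 + p)‖ ≤ 3/2 ‖p‖` and
`‖sz ℓ z‖ ≤ 2 · (3/2) ‖e^ℓ‖ ‖z‖ + ‖e^ℓ‖ ‖z‖ (‖ℓ‖ + π + |log ‖z‖|)`, and `x |log x| → 0` for `x → 0+`
(`Real.continuous_mul_log` or `x |log x| ≤ √x · const`). For `z = 0`: `sz ℓ 0 = 0`. -/
theorem sz_small (ℓ : ℂ) {η : ℝ} (hη : 0 < η) :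
    ∃ κ : ℝ, 0 < κ ∧ ∀ z : ℂ, ‖z‖ < κ → ‖sz ℓ z‖ ≤ η := by
  have hF : Continuous fun x : ℝ => 9 / 4 * ‖cexp ℓ‖ * x + ‖cexp ℓ‖ * (‖ℓ‖ + 4) * x +
      ‖cexp ℓ‖ * |x * Real.log x| := by
    have h1 := Real.continuous_mul_log
    fun_prop
  have hF0 : ∀ᶠ x : ℝ in 𝓝 0, 9 / 4 * ‖cexp ℓ‖ * x + ‖cexp ℓ‖ * (‖ℓ‖ + 4) * x +
      ‖cexp ℓ‖ * |x * Real.log x| < η := by
    refine hF.continuousAt.eventually_lt continuousAt_const ?_
    simpa using hη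
  have hG0 : ∀ᶠ x : ℝ in 𝓝 0, ‖cexp ℓ‖ * x < 1 / 2 := by
    have h1 : Continuous fun x : ℝ => ‖cexp ℓ‖ * x := by fun_prop
    refine h1.continuousAt.eventually_lt continuousAt_const ?_
    norm_num
  obtain ⟨κ, hκ, h⟩ := Metric.eventually_nhds_iff.1 (hF0.and hG0)
  refine ⟨κ, hκ, fun z hz => ?_⟩
  obtain ⟨h1, h2⟩ := h (y := ‖z‖) (by rwa [dist_zero_right, norm_norm])
  have h3 : ‖cexp ℓ * z‖ ≤ 1 / 2 := by
    rw [norm_mul]
    exact h2.le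
  have h4 := norm_log_one_add_half_le_self h3
  have h5 := Elem_lognorm z
  have h6 : ‖1 + cexp ℓ * z‖ ≤ 3 / 2 := by
    have h7 := norm_add_le 1 (cexp ℓ * z)
    rw [norm_one] at h7
    linarith
  have h7 : ‖(1 + cexp ℓ * z) * log (1 + cexp ℓ * z)‖ ≤ 9 / 4 * ‖cexp ℓ‖ * ‖z‖ := by
    rw [norm_mul]
    calc ‖1 + cexp ℓ * z‖ * ‖log (1 + cexp ℓ * z)‖ ≤ 3 / 2 * (3 / 2 * ‖cexp ℓ * z‖) :=
          mul_le_mul h6 h4 (norm_nonneg _) (by norm_num)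
      _ = 9 / 4 * ‖cexp ℓ‖ * ‖z‖ := by
          rw [norm_mul]
          ring
  have h8 : ‖cexp ℓ * z * (ℓ + log z)‖ ≤
      ‖cexp ℓ‖ * (‖ℓ‖ + 4) * ‖z‖ + ‖cexp ℓ‖ * |‖z‖ * Real.log ‖z‖| := by
    have h9 : ‖ℓ + log z‖ ≤ ‖ℓ‖ + 4 + |Real.log ‖z‖| := by
      have h10 := norm_add_le ℓ (log z)
      have h11 := Real.pi_lt_d2
      linarith
    rw [norm_mul, norm_mul, abs_mul, abs_of_nonneg (norm_nonneg z)]
    calc ‖cexp ℓ‖ * ‖z‖ * ‖ℓ + log z‖ ≤ ‖cexp ℓ‖ * ‖z‖ * (‖ℓ‖ + 4 + |Real.log ‖z‖|) :=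
          mul_le_mul_of_nonneg_left h9 (by positivity)
      _ = _ := by ring
  unfold sz
  refine (norm_sub_le _ _).trans ?_
  linarith

/-- Proof. `exp (ℓ - π i) (-z) = exp ℓ z`, `log (-z) = log z + π i` for `Im z < 0`
(`Complex.log_neg_eq..` or `Complex.arg_neg_eq_arg_add_pi_of_im_neg`, `‖-z‖ = ‖z‖`). -/
theorem lam_left_low (hz : z.im < 0) : lam (ℓ - Real.pi * I) (-z) = lam ℓ z := by
  unfold lam
  rw [Elem_exp, Elem_low hz]
  ring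

/-- Proof. `log (-z) = log z - π i` for `0 < Im z`. -/
theorem lam_left_up (hz : 0 < z.im) :
    lam (ℓ - Real.pi * I) (-z) = lam ℓ z + 2 * Real.pi * I := by
  unfold lam
  rw [Elem_exp, Elem_up hz]
  ring

/-- Proof. `arg (i z) = arg z + π / 2` if `arg z ≤ π / 2` (here `arg z ∈ (-π, π/2)`); e.g.
`log (i z) = log z + log i` (`Complex.log_mul`, with `arg i + arg z ∈ (-π, π]`). -/
theorem laml_eq_lam (hz : 0 < z.re ∨ z.im < 0) : laml ℓ z = lam ℓ z := by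
  have h0 : z ≠ 0 := by
    rintro rfl
    simp at hz
  unfold laml lam
  rw [Elem_I h0 (hz.imp_left le_of_lt)]
  ring

/-- Proof. `- z = i (i z)` and `log (-z) = log (i z) + π i / 2`, since `arg (i z) ∈ (-π, π/2]`
(`i z = - Im z + i Re z`, so `Im (i z) < 0` or `Re (i z) > 0`); `exp (ℓ - π i) (-z) = exp ℓ z`. -/
theorem laml_eq_left (hz : z.re < 0 ∨ z.im < 0) :
    laml ℓ z = lam (ℓ - Real.pi * I) (-z) := by
  have h0 : z ≠ 0 := by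
    rintro rfl
    simp at hz
  have h1 : log (I * (I * z)) = log (I * z) + Real.pi / 2 * I := by
    refine Elem_I (mul_ne_zero I_ne_zero h0) ?_
    rw [I_mul_re, I_mul_im]
    rcases hz with h2 | h2
    · exact Or.inr h2
    · exact Or.inl (by linarith)
  have h2 : I * (I * z) = -z := by
    rw [← mul_assoc, I_mul_I]
    ring
  rw [h2] at h1
  unfold laml lam
  rw [Elem_exp, h1]
  ring

end Pool.Agent.MP_ae5b4e_an_AT
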