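import Pool.Agent.Lib.MP_ae5b4e_an_AT.Dz
import Pool.Agent.Lib.MP_ae5b4e_an_AT.Elem

/-! # AT: the exact curve near the tip, geometry -/

noncomputable section

namespace Pool.Agent.MP_ae5b4e_an_AT

open Complex Set Filter Topology Metric

variable {ℓ xb : ℂ} {ρ κ h : ℝ} {A : ℂ → ℂ} {γ₀ θb : ℂ} {t : ℝ} {L T R : ℂ × ℂ → ℂ}

private theorem CurB_aux {s w : ℂ} (hw : ‖w - s‖ ≤ ‖s‖ / 16) :
    ‖w‖ ≤ 17 / 16 * ‖s‖ ∧ w.re ≤ s.re + ‖s‖ / 16 ∧ |s.im| - ‖s‖ / 16 ≤ |w.im| := by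
  refine ⟨?_, ?_, ?_⟩
  · have h1 : ‖w‖ ≤ ‖w - s‖ + ‖s‖ := by
      have := norm_add_le (w - s) s
      rwa [sub_add_cancel] at this
    linarith
  · have h1 : |w.re - s.re| ≤ ‖w - s‖ := by
      have := abs_re_le_norm (w - s)
      rwa [sub_re] at this
    have h2 := le_abs_self (w.re - s.re)
    linarith
  · have h1 : |w.im - s.im| ≤ ‖w - s‖ := by
      have := abs_im_le_norm (w - s)
      rwa [sub_im] at this
    have h2 : |s.im| ≤ |w.im| + |w.im - s.im| := by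
      have := abs_sub w.im (w.im - s.im)
      rwa [sub_sub_cancel] at this
    linarith

/-- Proof. `w ∈ closedBall s (‖s‖ / 16)`, `‖s‖ ≤ |Re s| + |Im s|`: `‖w‖ ≤ (17/16) (9/16 h + κ/2) < κ`
(`100 h < κ`); `Re w ≤ 9/16 h + ‖s‖/16`, `|Im w| ≥ |Im s| - ‖s‖ / 16`, and
`2 ‖s‖ / 16 ≤ (9/16 h + |Im s|) / 8`, `9/16 + 9/128 < 3/4`. -/
theorem QQ_sub (hh : 0 < h) (hκ : 100 * h < κ) {s : ℂ} (hs : s ∈ QQ κ h) :
    closedBall s (‖s‖ / 16) ⊆ Dz κ h := by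
  intro w hw
  rw [mem_closedBall, dist_eq_norm] at hw
  obtain ⟨hs1, hs2⟩ := hs
  obtain ⟨h1, h2, h3⟩ := CurB_aux hw
  have h4 := norm_le_abs_re_add_abs_im s
  have h5 := le_abs_self s.re
  have h6 := abs_nonneg s.im
  exact ⟨by linarith, by linarith⟩

/-- The next state, from a point of the curve with `Re s < - 7/16 h`.

Proof. `Z := Z s`, `‖Z - s‖ ≤ ‖s‖ / 16`, `‖s‖ > 7/16 h`. `- Z ∈ slitPlane`: if `Im Z = 0` then
`|Im s| ≤ ‖s‖ / 16`, so `|Re s| ≥ (15/16) ‖s‖`, `Re s < 0`, `Re Z ≤ Re s + ‖s‖ / 16 < 0`. `‖Z‖ ≥ (15/16) (7/16) h ≥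
h / 3`, `‖Z‖ ≤ 1`: `|log ‖Z‖| ≤ |log h| + log 3`, so `h ‖lam (ℓ - π i) (-Z)‖ ≤ h (‖ℓ‖ + π + 5 + |log h| + 2) ≤
ρ / 16` (`h_lam`; `norm_lam_le` with `exp (ℓ - π i) (-Z) = exp ℓ Z`, norm `≤ 1/4`). So
`‖x⁺ - xb‖ ≤ ρ/8 + ρ/16`. `z⁺ = Z + h A (x⁺)`: `‖z⁺‖ ≤ (17/16) (9/16 h + κ/2) + 65/64 h < κ`;
`Re z⁺ ≤ - 7/16 h + ‖s‖/16 + (65/64) h`, `|Im z⁺| ≥ |Im s| - ‖s‖/16 - h/64`;
`- 7/16 + 65/64 + 1/64 + 9/128 < 3/4` and `2 ‖s‖ / 16 ≤ (9/16 h + |Im s|) / 8`. -/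
theorem next_mem (hT : TipN ℓ xb ρ κ h A γ₀ θb t L T R) {s x z : ℂ} (hs : s ∈ QQ κ h)
    (hs1 : s.re < -(7 / 16 * h)) (hx : ‖x - xb‖ ≤ ρ / 8) (hz : ‖z - s‖ ≤ ‖s‖ / 16) :
    -z ∈ slitPlane ∧ Wm ℓ h A (x, z) ∈ DL xb ρ κ h ∧ ‖(Wm ℓ h A (x, z)).1 - xb‖ ≤ ρ / 4 := by
  obtain ⟨hs2, hs3⟩ := hs
  have hh := hT.h_pos
  have hκ := hT.h_lt
  have hκ1 := hT.κ_le
  have hρ := hT.ρ_pos
  obtain ⟨h1, h2, h3⟩ := CurB_aux hz
  have h4 := norm_le_abs_re_add_abs_im s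
  have h40 := abs_nonneg s.im
  have hsn : 7 / 16 * h < ‖s‖ := by
    have h5 := abs_re_le_norm s
    have h6 := neg_le_abs s.re
    linarith
  have hlow : 15 / 16 * ‖s‖ ≤ ‖z‖ := by
    have h5 : ‖s‖ ≤ ‖z‖ + ‖z - s‖ := by
      have := norm_sub_le z (z - s)
      rwa [sub_sub_cancel] at this
    linarith
  have hz0 : 0 < ‖z‖ := by linarith
  have hz1 : ‖z‖ < κ := by linarith
  -- slit plane
  have hslit : -z ∈ slitPlane := by
    rw [mem_slitPlane_iff]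
    by_cases him : z.im = 0
    · left
      rw [him, abs_zero] at h3
      have h5 : |s.re| = -s.re := abs_of_neg (by linarith)
      rw [neg_re]
      linarith
    · right
      rw [neg_im]
      exact neg_ne_zero.2 him
  -- the logarithm
  have hexp : cexp (ℓ - Real.pi * I) * (-z) = cexp ℓ * z := by
    rw [exp_sub, exp_pi_mul_I]
    ring
  have hle : ‖cexp (ℓ - Real.pi * I) * (-z)‖ ≤ 1 / 2 := by
    rw [hexp, norm_mul]
    have h5 := hT.κ_exp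
    have h6 : ‖cexp ℓ‖ * ‖z‖ ≤ ‖cexp ℓ‖ * κ :=
      mul_le_mul_of_nonneg_left hz1.le (norm_nonneg _)
    linarith
  have hlam := norm_lam_le hle
  have hlog : |Real.log ‖-z‖| ≤ |Real.log h| + Real.log 3 := by
    rw [norm_neg, abs_of_nonpos (Real.log_nonpos hz0.le (by linarith))]
    have h5 : Real.log (h / 3) ≤ Real.log ‖z‖ := Real.log_le_log (by positivity) (by linarith)
    rw [Real.log_div hh.ne' (by norm_num)] at h5
    have h6 := neg_le_abs (Real.log h)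
    linarith
  have hlog3 : Real.log 3 < 1.2 := by
    have h5 : Real.log 3 = Real.log (3 / 4) + 2 * Real.log 2 := by
      rw [Real.log_div (by norm_num) (by norm_num), show (4 : ℝ) = 2 ^ 2 by norm_num, Real.log_pow]
      push_cast
      ring
    have h6 := Real.log_two_lt_d9
    have h7 := Real.log_le_sub_one_of_pos (by norm_num : (0 : ℝ) < 3 / 4)
    rw [h5]
    linarith
  have hpi := Real.pi_lt_d2
  have hℓ : ‖ℓ - Real.pi * I‖ ≤ ‖ℓ‖ + Real.pi := by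
    have h5 := norm_sub_le ℓ (Real.pi * I)
    rwa [norm_mul, norm_I, mul_one, norm_real, Real.norm_of_nonneg Real.pi_pos.le] at h5
  have habs := abs_nonneg (Real.log h)
  have hb : ‖(h : ℂ) * lam (ℓ - Real.pi * I) (-z)‖ ≤ ρ / 16 := by
    rw [norm_mul, norm_real, Real.norm_of_nonneg hh.le]
    refine le_trans ?_ hT.h_lam
    refine mul_le_mul_of_nonneg_left ?_ hh.le
    linarith
  set x' : ℂ := x + h * lam (ℓ - Real.pi * I) (-z) with hx'
  have hx1 : ‖x' - xb‖ ≤ 3 / 16 * ρ := by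
    have h5 : x' - xb = (x - xb) + h * lam (ℓ - Real.pi * I) (-z) := by
      rw [hx']
      ring
    rw [h5]
    refine (norm_add_le _ _).trans ?_
    linarith
  have hxb : x' ∈ ball xb ρ := by
    rw [mem_ball, dist_eq_norm]
    linarith
  have hA := hT.A_near x' hxb
  have hAre : (A x').re ≤ 65 / 64 := by
    have h5 := (abs_le.1 ((abs_re_le_norm (A x' - 1)).trans hA)).2
    rw [sub_re, one_re] at h5
    linarith
  have hAim : |(A x').im| ≤ 1 / 64 := by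
    have h5 := (abs_im_le_norm (A x' - 1)).trans hA
    rwa [sub_im, one_im, sub_zero] at h5
  have hAn : ‖A x'‖ ≤ 65 / 64 := by
    have h5 : ‖A x'‖ ≤ ‖A x' - 1‖ + ‖(1 : ℂ)‖ := by
      have := norm_add_le (A x' - 1) 1
      rwa [sub_add_cancel] at this
    rw [norm_one] at h5
    linarith
  have hW : Wm ℓ h A (x, z) = (x', z + h * A x') := rfl
  rw [hW]
  refine ⟨hslit, ⟨?_, ?_, ?_⟩, ?_⟩
  · change ‖x' - xb‖ < ρ
    linarith
  · change ‖z + h * A x'‖ < κ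
    have h5 : ‖(h : ℂ) * A x'‖ ≤ h * (65 / 64) := by
      rw [norm_mul, norm_real, Real.norm_of_nonneg hh.le]
      exact mul_le_mul_of_nonneg_left hAn hh.le
    have h6 := norm_add_le z (h * A x')
    linarith
  · change (z + h * A x').re < |(z + h * A x').im| + 3 / 4 * h
    have h5 : (z + h * A x').re = z.re + h * (A x').re := by
      rw [add_re, re_ofReal_mul]
    have h6 : (z + h * A x').im = z.im + h * (A x').im := by
      rw [add_im, im_ofReal_mul]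
    rw [h5, h6]
    have h7 : h * (A x').re ≤ h * (65 / 64) := mul_le_mul_of_nonneg_left hAre hh.le
    have h8 : |h * (A x').im| ≤ h * (1 / 64) := by
      rw [abs_mul, abs_of_pos hh]
      exact mul_le_mul_of_nonneg_left hAim hh.le
    have h9 : |z.im| ≤ |z.im + h * (A x').im| + |h * (A x').im| := by
      have := abs_sub (z.im + h * (A x').im) (h * (A x').im)
      rwa [add_sub_cancel_right] at this
    linarith
  · change ‖x' - xb‖ ≤ ρ / 4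
    linarith

end Pool.Agent.MP_ae5b4e_an_AT
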