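import Pool.Agent.Lib.MP_ae5b4e_an_AT.Defs
import Pool.Agent.Lib.MP_ae5b4e_an_N4.HNa

/-! # AT: inverse of a nearly affine function on a star-shaped domain -/

noncomputable section

namespace Pool.Agent.MP_ae5b4e_an_AT

open Complex Set Filter Topology Metric

/-- Proof. `‖σ z - z‖ ≤ ‖z‖ / 31` for `z ∈ D` (mean value inequality on the segment from `0` to `z`, which
is in `D`). Let `s ∈ Q`, `C := closedBall s (‖s‖ / 16) ⊆ D`. If `z ∈ D` and `σ z = s` then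
`‖z - s‖ ≤ ‖z‖ / 31 ≤ (‖s‖ + ‖z - s‖) / 31`, so `‖z - s‖ ≤ ‖s‖ / 30` and `z ∈ C`; `σ` is injective on the
convex set `C` (`N4.naff_of_deriv`, `NAff.injOn`). Existence: the map `g z = z - σ z + s` maps `C` into
`C` (`‖g z - s‖ ≤ ‖z‖ / 31 ≤ (17/16) ‖s‖ / 31 ≤ ‖s‖ / 16`) and is a `1/31`-contraction on `C`
(or `N4.NAff.solve` with `w₀ = 0` on ... : use the contraction). `P s :=` the solution.
Analytic at `s₁ ∈ Q`: `z₁ = P s₁`, `σ` is analytic at `z₁` with `σ' ≠ 0`, so there is a local inverse `τ`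
(`HasStrictDerivAt.localInverse`, differentiable near `s₁`), `τ s ∈ D` and `σ (τ s) = s` near `s₁`, hence
`τ s = P s` by uniqueness; `s₁ = 0` is no exception. -/
theorem inv_star {σ : ℂ → ℂ} {D Q : Set ℂ} (hD : IsOpen D) (h0 : (0 : ℂ) ∈ D)
    (hst : ∀ z ∈ D, ∀ θ ∈ Icc (0 : ℝ) 1, (θ : ℂ) * z ∈ D) (hσ : DifferentiableOn ℂ σ D)
    (hσ' : ∀ z ∈ D, ‖deriv σ z - 1‖ ≤ 1 / 31) (hσ0 : σ 0 = 0) (hQ : IsOpen Q)
    (hQD : ∀ s ∈ Q, closedBall s (‖s‖ / 16) ⊆ D) :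
    ∃ P : ℂ → ℂ, DifferentiableOn ℂ P Q ∧ ∀ s ∈ Q, ‖P s - s‖ ≤ ‖s‖ / 16 ∧ P s ∈ D ∧
      σ (P s) = s ∧ ∀ z ∈ D, σ z = s → z = P s := by
  classical
  have hder : ∀ z ∈ D, HasDerivAt σ (deriv σ z) z := fun z hz =>
    (hσ.differentiableAt (hD.mem_nhds hz)).hasDerivAt
  have hnaff : ∀ C : Set ℂ, Convex ℝ C → C ⊆ D →
      MP_ae5b4e_an_N4.NAff σ 1 (1 / 31) C := by
    intro C hC hCD
    refine MP_ae5b4e_an_N4.naff_of_deriv hC (fun w hw => hder w (hCD hw)) fun w hw => ?_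
    rw [norm_one, mul_one]
    exact hσ' w (hCD hw)
  have hmv : ∀ z ∈ D, ‖σ z - z‖ ≤ ‖z‖ / 31 := by
    intro z hz
    have hseg : segment ℝ 0 z ⊆ D := by
      rintro w ⟨a, θ, ha, hθ, hab, rfl⟩
      have h1 := hst z hz θ ⟨hθ, by linarith⟩
      simpa using h1
    have h1 := hnaff _ (convex_segment 0 z) hseg z (right_mem_segment ℝ 0 z) 0
      (left_mem_segment ℝ 0 z)
    rw [hσ0, norm_one, mul_one, one_mul, sub_zero, sub_zero] at h1
    linarith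
  have hself : ∀ s ∈ Q, s ∈ D := fun s hs =>
    hQD s hs (mem_closedBall_self (by positivity))
  have hex : ∀ s ∈ Q, ∃ w ∈ closedBall s (‖s‖ / 16), σ w = s := by
    intro s hs
    have h1 := hmv s (hself s hs)
    have h2 : ‖s - σ s‖ ≤ ‖s‖ / 31 := by rw [norm_sub_rev]; exact h1
    have hsub : closedBall (s + (s - σ s) / 1) (2 * (1 / 31) * (‖s - σ s‖ / ‖(1 : ℂ)‖)) ⊆
        closedBall s (‖s‖ / 16) := by
      refine closedBall_subset_closedBall' ?_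
      rw [dist_eq_norm, div_one, add_sub_cancel_left, norm_one, div_one]
      have h0 := norm_nonneg s
      linarith
    obtain ⟨w, hw, hws⟩ := (hnaff _ (convex_closedBall s (‖s‖ / 16)) (hQD s hs)).solve one_ne_zero
      (by norm_num) (by norm_num) (w₀ := s) (mem_closedBall_self (by positivity)) s hsub
    exact ⟨w, hsub hw, hws⟩
  have huniq : ∀ s ∈ Q, ∀ z ∈ D, σ z = s → z ∈ closedBall s (‖s‖ / 16) := by
    intro s hs z hz hzs
    have h1 := hmv z hz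
    rw [hzs, norm_sub_rev] at h1
    have h2 : ‖z‖ ≤ ‖z - s‖ + ‖s‖ := by simpa using norm_add_le (z - s) s
    rw [mem_closedBall, dist_eq_norm]
    have h3 := norm_nonneg s
    linarith
  have hinj : ∀ s ∈ Q, InjOn σ (closedBall s (‖s‖ / 16)) := fun s hs =>
    (hnaff _ (convex_closedBall s (‖s‖ / 16)) (hQD s hs)).injOn one_ne_zero (by norm_num)
  choose! P hP1 hP2 using hex
  have hPD : ∀ s ∈ Q, P s ∈ D := fun s hs => hQD s hs (hP1 s hs)
  have hPu : ∀ s ∈ Q, ∀ z ∈ D, σ z = s → z = P s := fun s hs z hz hzs =>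
    hinj s hs (huniq s hs z hz hzs) (hP1 s hs) (hzs.trans (hP2 s hs).symm)
  refine ⟨P, ?_, fun s hs => ⟨?_, hPD s hs, hP2 s hs, hPu s hs⟩⟩
  · intro s₁ hs₁
    obtain ⟨r, hr, hrD⟩ := Metric.isOpen_iff.1 hD (P s₁) (hPD s₁ hs₁)
    obtain ⟨h1, h2⟩ := (hnaff _ (convex_ball (P s₁) r) hrD).inv one_ne_zero (by norm_num)
      isOpen_ball (hσ.mono hrD) (mem_ball_self hr)
    rw [hP2 s₁ hs₁] at h1 h2
    refine DifferentiableAt.differentiableWithinAt ?_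
    refine h1.differentiableAt.congr_of_eventuallyEq ?_
    filter_upwards [h2, hQ.mem_nhds hs₁] with y hy hyQ
    exact (hPu y hyQ _ (hrD hy.1) hy.2).symm
  · have h1 := hP1 s hs
    rwa [mem_closedBall, dist_eq_norm] at h1

end Pool.Agent.MP_ae5b4e_an_AT
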