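import Pool.Agent.Lib.MP_ae5b4e_an_AT.CurA
import Pool.Agent.Lib.MP_ae5b4e_an_AT.CurB
import Pool.Agent.Lib.MP_ae5b4e_an_AT.InvL

/-! # AT: the exact curve near the tip -/

noncomputable section

namespace Pool.Agent.MP_ae5b4e_an_AT

open Complex Set Filter Topology Metric

variable {ℓ xb : ℂ} {ρ κ h : ℝ} {A : ℂ → ℂ} {γ₀ θb : ℂ} {t : ℝ} {L T R : ℂ × ℂ → ℂ}

private theorem Curve_Dz_open (κ h : ℝ) : IsOpen (Dz κ h) := by
  have h1 : IsOpen {z : ℂ | ‖z‖ < κ} := isOpen_lt continuous_norm continuous_const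
  have h2 : IsOpen {z : ℂ | z.re < |z.im| + 3 / 4 * h} :=
    isOpen_lt continuous_re ((continuous_abs.comp continuous_im).add continuous_const)
  exact h1.inter h2

private theorem Curve_QQ_open (κ h : ℝ) : IsOpen (QQ κ h) := by
  have h1 : IsOpen {s : ℂ | |s.re| < 9 / 16 * h} :=
    isOpen_lt (continuous_abs.comp continuous_re) continuous_const
  have h2 : IsOpen {s : ℂ | |s.im| < κ / 2} :=
    isOpen_lt (continuous_abs.comp continuous_im) continuous_const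
  exact h1.inter h2

private theorem Curve_star {κ h : ℝ} (hh : 0 < h) {z : ℂ} (hz : z ∈ Dz κ h) {θ : ℝ}
    (hθ : θ ∈ Icc (0 : ℝ) 1) : (θ : ℂ) * z ∈ Dz κ h := by
  obtain ⟨h1, h2⟩ := hz
  obtain ⟨h3, h4⟩ := hθ
  refine ⟨?_, ?_⟩
  · rw [norm_mul, Complex.norm_real, Real.norm_of_nonneg h3]
    have := mul_le_mul_of_nonneg_right h4 (norm_nonneg z)
    linarith
  · rw [re_ofReal_mul, im_ofReal_mul, abs_mul, abs_of_nonneg h3]
    rcases h3.eq_or_lt with h0 | h0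
    · rw [← h0]
      linarith
    · have h5 := mul_lt_mul_of_pos_left h2 h0
      have h6 : θ * (3 / 4 * h) ≤ 1 * (3 / 4 * h) := mul_le_mul_of_nonneg_right h4 (by positivity)
      linarith

/-- THE CURVE. Proof. `ξ` from `exists_xi`, `sb := T (ξ 0, 0)`, `σ z := T (ξ z, z) - sb`.
`inv_star` with `D = Dz κ h` (open, star-shaped), `Q = QQ κ h` (`QQ_sub`, `sigma_deriv`): `Z :=
P`, `X s := ξ (Z s)`. `per`: for `s, s + h ∈ QQ` we have `Re s < - 7/16 h`; with `u' := Wm (X s, Z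
s)` (`next_mem`) and `L_inv`: `L u' = γ₀`, `T u' = sb + s + h`; so `u'.1 = ξ (u'.2)` (uniqueness
in `exists_xi`) and `σ (u'.2) = s + h`, so `u'.2 = Z (s + h)` by the uniqueness in `inv_star`
(`u'.2 ∈ Dz`). -/
theorem curve (hT : TipN ℓ xb ρ κ h A γ₀ θb t L T R) :
    ∃ (sb : ℂ) (X Z : ℂ → ℂ), Cur ℓ xb ρ κ h A γ₀ L T sb X Z ∧ ‖sb - θb‖ ≤ 4 * t := by
  have hρ := hT.ρ_pos
  have hh := hT.h_pos
  have hκ := hT.h_lt
  obtain ⟨ξ, hξd, hξ⟩ := exists_xi hT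
  have h0 : (0 : ℂ) ∈ Dz κ h := by
    refine ⟨by rw [norm_zero]; linarith, ?_⟩
    rw [zero_re, zero_im, abs_zero]
    linarith
  have hDL : ∀ {x z : ℂ}, ‖x - xb‖ ≤ ρ / 4 → z ∈ Dz κ h → (x, z) ∈ DL xb ρ κ h :=
    fun hx hz => ⟨by change ‖_ - xb‖ < ρ; linarith, hz.1, hz.2⟩
  have hσ : ∀ z ∈ Dz κ h, DifferentiableAt ℂ (fun z => T (ξ z, z)) z ∧
      ‖deriv (fun z => T (ξ z, z)) z - 1‖ ≤ 1 / 31 := fun z hz =>
    sigma_deriv hT hξd (fun z hz => ⟨(hξ z hz).1, (hξ z hz).2.1⟩) hz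
  obtain ⟨P, hP1, hP2⟩ := inv_star (σ := fun z => T (ξ z, z) - T (ξ 0, 0)) (D := Dz κ h)
    (Q := QQ κ h) (Curve_Dz_open κ h) h0 (fun z hz θ hθ => Curve_star hh hz hθ)
    (fun z hz => ((hσ z hz).1.sub_const _).differentiableWithinAt)
    (fun z hz => by
      rw [deriv_sub_const]
      exact (hσ z hz).2) (sub_self _) (Curve_QQ_open κ h) (fun s hs => QQ_sub hh hκ hs)
  refine ⟨T (ξ 0, 0), fun s => ξ (P s), P, ?_, ?_⟩
  · refine ⟨hξd.comp hP1 fun s hs => (hP2 s hs).2.1, hP1, fun s hs => (hξ _ (hP2 s hs).2.1).1,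
      fun s hs => (hP2 s hs).1, fun s hs => (hξ _ (hP2 s hs).2.1).2.1, fun s hs => ?_,
      fun s hs hs' => ?_⟩
    · have h1 : T (ξ (P s), P s) - T (ξ 0, 0) = s := (hP2 s hs).2.2.1
      linear_combination h1
    · obtain ⟨a1, a2, a3, -⟩ := hP2 s hs
      have a3' : T (ξ (P s), P s) - T (ξ 0, 0) = s := a3
      obtain ⟨b1, b2, -⟩ := hξ _ a2
      have hs1 : s.re < -(7 / 16 * h) := by
        have h1 := (abs_lt.1 hs'.1).2
        rw [add_re, ofReal_re] at h1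
        linarith
      obtain ⟨c1, c2, c3⟩ := next_mem hT hs hs1 b1 a1
      have hu : (ξ (P s), P s) ∈ DL xb ρ κ h := hDL (by linarith) a2
      obtain ⟨d1, d2⟩ := hT.L_inv _ hu c1 c2
      obtain ⟨u', hu'⟩ : ∃ u', u' = Wm ℓ h A (ξ (P s), P s) := ⟨_, rfl⟩
      rw [← hu'] at c2 c3 d1 d2
      have e1 : u'.2 ∈ Dz κ h := ⟨c2.2.1, c2.2.2⟩
      have e2 : u'.1 = ξ u'.2 := (hξ _ e1).2.2 _ c3 (d1.trans b2)
      have e3 : u' = (ξ u'.2, u'.2) := Prod.ext e2 rfl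
      have e4 : u'.2 = P (s + h) := by
        refine (hP2 _ hs').2.2.2 _ e1 ?_
        change T (ξ u'.2, u'.2) - T (ξ 0, 0) = s + h
        rw [← e3, d2]
        linear_combination a3'
      change (ξ (P (s + h)), P (s + h)) = Wm ℓ h A (ξ (P s), P s)
      rw [← hu', ← e4]
      exact e3.symm
  · exact hT.T_bd _ (hDL (by have := (hξ 0 h0).1; linarith) h0)

end Pool.Agent.MP_ae5b4e_an_AT
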