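import Mathlib

/-!
# MP_ae5b4e_an, block AT (tips): chains in the WKB coordinates, definitions

In a WKB frame `F = exp Λ` near the label `l_b` of a tip, with `x = h Λ(l)` (`h = 1 / N`), the states
of a chain are `(x, z)`: `x = x_j`, `e^ℓ z = p_j = 1 / (exp ((x_(j+1) - x_j) / h) - 1)`, where
`e^ℓ = (1 / (2 i √q))' (l_b)`. One step is
`x⁺ = x + h lam ℓ z`, `z⁺ = z + h A (x⁺)`, with `lam ℓ z = log (1 + 1/p)` and `A (x_b) ≈ 1`.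
The tip is `z = 0`; the branch `lam ℓ` is the one on `ℂ ∖ (-∞, 0]` (right side of the tip).
The chain in the reversed direction is the same chain for `ℓ - i π`, `-x`, `-z_(j-1)`, `A (-x)`
(`rev`). Limit: `x' = lam`, `z' = A₀ (x)`, energy `en = Φ (x) + sz (z)`, `Φ' = - e^ℓ A₀`, and the
parameter `γ` of the family is `exp (- en)`.
-/

noncomputable section

namespace Pool.Agent.MP_ae5b4e_an_AT

open Complex Set Filter Topology Metric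

/-- `log (1 + 1/p)`, `p = e^ℓ z`, branch on `ℂ ∖ (-∞, 0]` -/
def lam (ℓ z : ℂ) : ℂ := log (1 + cexp ℓ * z) - ℓ - log z

/-- `(1+p) log (1+p) - p log p`, primitive of `e^ℓ lam ℓ` -/
def sz (ℓ z : ℂ) : ℂ := (1 + cexp ℓ * z) * log (1 + cexp ℓ * z) - cexp ℓ * z * (ℓ + log z)

/-- one step of the chain -/
def Fs (ℓ : ℂ) (h : ℝ) (A : ℂ → ℂ) (u : ℂ × ℂ) : ℂ × ℂ :=
  (u.1 + h * lam ℓ u.2, u.2 + h * A (u.1 + h * lam ℓ u.2))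

/-- sector about the positive axis (`c = 1`: `|arg z| < 3 π / 4`), `a < |z| < b` -/
def Sec (c a b : ℝ) : Set ℂ := {z | -(c * |z.im|) < z.re ∧ a < ‖z‖ ∧ ‖z‖ < b}

/-- energy -/
def en (ℓ : ℂ) (Φ : ℂ → ℂ) (u : ℂ × ℂ) : ℂ := Φ u.1 + sz ℓ u.2

/-- the limit data on one side of the tip -/
structure Side (ℓ xb : ℂ) (ρ : ℝ) (A₀ Φ : ℂ → ℂ) : Prop where
  ρ_pos : 0 < ρ
  one : A₀ xb = 1
  near : ∀ x ∈ ball xb ρ, ‖A₀ x - 1‖ ≤ 1 / 128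
  an : DifferentiableOn ℂ A₀ (ball xb ρ)
  prim : ∀ x ∈ ball xb ρ, HasDerivAt Φ (-(cexp ℓ * A₀ x)) x

/-- `A` is `δ`-close to `A₀` -/
structure Cl (xb : ℂ) (ρ : ℝ) (A A₀ : ℂ → ℂ) (δ : ℝ) : Prop where
  an : DifferentiableOn ℂ A (ball xb ρ)
  cl : ∀ x ∈ ball xb ρ, ‖A x - A₀ x‖ ≤ δ

/-- the base region at the distance `t` from the tip -/
def NN (ℓ xb : ℂ) (ρ : ℝ) (Φ : ℂ → ℂ) (t r : ℝ) : Set (ℂ × ℂ) :=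
  {u | ‖u.1 - xb‖ < ρ / 2 ∧ ‖u.2 - t‖ < t / 4 ∧ ‖en ℓ Φ u - Φ xb‖ < r}

/-- the Jacobian of `(f, g)` -/
def jac (f g : ℂ × ℂ → ℂ) (u : ℂ × ℂ) : ℂ :=
  fderiv ℂ f u (1, 0) * fderiv ℂ g u (0, 1) - fderiv ℂ f u (0, 1) * fderiv ℂ g u (1, 0)

/-- the reversed state -/
def rev (h : ℝ) (A : ℂ → ℂ) (u : ℂ × ℂ) : ℂ × ℂ := (-u.1, -(u.2 - h * A u.1))

/-- one step on the left side of the tip -/
def Wm (ℓ : ℂ) (h : ℝ) (A : ℂ → ℂ) (u : ℂ × ℂ) : ℂ × ℂ :=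
  (u.1 + h * lam (ℓ - Real.pi * I) (-u.2),
    u.2 + h * A (u.1 + h * lam (ℓ - Real.pi * I) (-u.2)))

/-- the branch of `log (1 + 1/p)` on `ℂ ∖ i [0, ∞)` (passing below the tip) -/
def laml (ℓ z : ℂ) : ℂ := log (1 + cexp ℓ * z) - ℓ - (log (I * z) - Real.pi / 2 * I)

/-- one step for chains which pass below the tip -/
def Fl (ℓ : ℂ) (h : ℝ) (A : ℂ → ℂ) (u : ℂ × ℂ) : ℂ × ℂ :=
  (u.1 + h * laml ℓ u.2, u.2 + h * A (u.1 + h * laml ℓ u.2))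

/-- values of `z` for chains which pass below the tip -/
def Low (κ t : ℝ) : Set ℂ := {z | z.im < |z.re| / 4 ∧ κ ≤ ‖z‖ ∧ ‖z‖ < 2 * t}

/-- exact `γ`-coordinate on the base region of one side (for a fixed `n`) -/
structure BaseG (ℓ xb : ℂ) (ρ : ℝ) (Φ : ℂ → ℂ) (t r h : ℝ) (A : ℂ → ℂ) (δ : ℝ)
    (Γ : ℂ × ℂ → ℂ) : Prop where
  an : AnalyticOnNhd ℂ Γ (NN ℓ xb ρ Φ t r)
  inv : ∀ u ∈ NN ℓ xb ρ Φ t r, Fs ℓ h A u ∈ NN ℓ xb ρ Φ t r → Γ (Fs ℓ h A u) = Γ u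
  cl : ∀ u ∈ NN ℓ xb ρ Φ t r, ‖Γ u - cexp (-en ℓ Φ u)‖ ≤ δ

/-- exact time coordinate on the base region of the left side, in the reversed variables -/
structure BaseS (ℓ xb : ℂ) (ρ : ℝ) (Φ : ℂ → ℂ) (t r h : ℝ) (A : ℂ → ℂ) (δ : ℝ) (θb : ℂ)
    (S Γ : ℂ × ℂ → ℂ) : Prop where
  an : AnalyticOnNhd ℂ S (NN ℓ xb ρ Φ t r)
  inv : ∀ u ∈ NN ℓ xb ρ Φ t r, Fs ℓ h A u ∈ NN ℓ xb ρ Φ t r → S (Fs ℓ h A u) = S u - h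
  cl : ∀ u ∈ NN ℓ xb ρ Φ t r, ‖S u - θb‖ ≤ 2 * t
  jac : ∀ u ∈ NN ℓ xb ρ Φ t r, ‖jac S Γ u - cexp ℓ * cexp (-en ℓ Φ u)‖ ≤ δ

/-- the kick `B` of the passage below the tip: `h`-periodic, and for a chain `v 0, ..., v m` from the
left base region to the right base region, below the tip, whose first state has the exact coordinates
`(S, γ₀)`, the height of `S` is at most `y₁` and the value `B (S)` is the change of the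
`γ`-coordinate -/
structure Kick (ℓ xb : ℂ) (ρ : ℝ) (Φ : ℂ → ℂ) (t r h : ℝ) (A : ℂ → ℂ) (γ₀ : ℂ) (κ y₁ : ℝ)
    (S Γ Γr : ℂ × ℂ → ℂ) (B : ℂ → ℂ) : Prop where
  per : ∀ s, B (s + h) = B s
  pass : ∀ (m : ℕ) (v : ℕ → ℂ × ℂ),
    (∀ k ≤ m, ‖(v k).1 - xb‖ < ρ / 2 ∧ (v k).2 ∈ Low κ t) →
    (∀ k < m, v (k + 1) = Fl ℓ h A (v k)) →
    rev h A (v 0) ∈ NN (ℓ - Real.pi * I) (-xb) ρ (fun x => Φ (-x)) t r →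
    v m ∈ NN ℓ xb ρ Φ t r → Γ (rev h A (v 0)) = γ₀ →
    (S (rev h A (v 0))).im ≤ y₁ ∧ B (S (rev h A (v 0))) = Γr (v m) - γ₀

/-- what is known about the `j`-th iterate of the step -/
structure Pas (ℓ : ℂ) (η δ h : ℝ) (A : ℂ → ℂ) (u : ℂ × ℂ) (j : ℕ) : Prop where
  x_near : ‖((Fs ℓ h A)^[j] u).1 - u.1‖ ≤ η
  z_near : ‖((Fs ℓ h A)^[j] u).2 - (u.2 + j * h)‖ ≤ δ * (j * h)
  sec : -|((Fs ℓ h A)^[j] u).2.im| < ((Fs ℓ h A)^[j] u).2.re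
  low : (‖u.2‖ + j * h) / 4 ≤ ‖((Fs ℓ h A)^[j] u).2‖
  exp : ‖cexp ℓ * ((Fs ℓ h A)^[j] u).2‖ ≤ 1 / 2
  one : ‖((Fs ℓ h A)^[j] u).2‖ ≤ 1

/-- the function `g` of the left base region, as a function of the state near the tip -/
def Lf (ℓ : ℂ) (h : ℝ) (A : ℂ → ℂ) (j : ℕ) (g : ℂ × ℂ → ℂ) (u : ℂ × ℂ) : ℂ :=
  g ((Fs (ℓ - Real.pi * I) h fun x => A (-x))^[j] (rev h A u))

/-- the function `g` of the right base region, as a function of the state near the tip -/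
def Rf (ℓ : ℂ) (h : ℝ) (A : ℂ → ℂ) (j : ℕ) (g : ℂ × ℂ → ℂ) (u : ℂ × ℂ) : ℂ :=
  g ((Fs ℓ h A)^[j] u)

/-- domain of the left functions near the tip -/
def DL (xb : ℂ) (ρ κ h : ℝ) : Set (ℂ × ℂ) :=
  {u | ‖u.1 - xb‖ < ρ ∧ ‖u.2‖ < κ ∧ u.2.re < |u.2.im| + 3 / 4 * h}

/-- domain of the right function near the tip -/
def DR (xb : ℂ) (ρ κ h : ℝ) : Set (ℂ × ℂ) := {u | ‖u.1 - xb‖ < ρ ∧ u.2 ∈ Sec (1 / 2) (h / 4) κ}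

/-- the functions near the tip: `L, T` (coordinates `γ` and time of the left family), `R`
(coordinate `γ` of the right family) -/
structure TipN (ℓ xb : ℂ) (ρ κ h : ℝ) (A : ℂ → ℂ) (γ₀ θb : ℂ) (t : ℝ) (L T R : ℂ × ℂ → ℂ) :
    Prop where
  ρ_pos : 0 < ρ
  h_pos : 0 < h
  h_lt : 100 * h < κ
  κ_le : κ ≤ 1
  κ_exp : ‖cexp ℓ‖ * κ ≤ 1 / 4
  h_lam : h * (‖ℓ‖ + 10 + 4 * |Real.log h|) ≤ ρ / 16
  γ_ne : γ₀ ≠ 0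
  A_an : DifferentiableOn ℂ A (ball xb ρ)
  A_near : ∀ x ∈ ball xb ρ, ‖A x - 1‖ ≤ 1 / 64
  L_an : AnalyticOnNhd ℂ L (DL xb ρ κ h)
  T_an : AnalyticOnNhd ℂ T (DL xb ρ κ h)
  R_an : AnalyticOnNhd ℂ R (DR xb ρ κ h)
  L_x : ∀ u ∈ DL xb ρ κ h, ‖fderiv ℂ L u (1, 0) - cexp ℓ * γ₀‖ ≤ ‖cexp ℓ * γ₀‖ / 64
  L_0 : ∀ z, (xb, z) ∈ DL xb ρ κ h → ‖L (xb, z) - γ₀‖ ≤ ‖cexp ℓ * γ₀‖ * ρ / 16
  J : ∀ u ∈ DL xb ρ κ h, ‖jac T L u + cexp ℓ * γ₀‖ ≤ ‖cexp ℓ * γ₀‖ / 64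
  T_bd : ∀ u ∈ DL xb ρ κ h, ‖T u - θb‖ ≤ 4 * t
  L_inv : ∀ u ∈ DL xb ρ κ h, -u.2 ∈ slitPlane → Wm ℓ h A u ∈ DL xb ρ κ h →
    L (Wm ℓ h A u) = L u ∧ T (Wm ℓ h A u) = T u + h
  R_inv : ∀ u ∈ DR xb ρ κ h, Fs ℓ h A u ∈ DR xb ρ κ h → R (Fs ℓ h A u) = R u
  R_bd : ∀ u ∈ DR xb ρ κ h, ‖R u - γ₀‖ ≤ ‖γ₀‖
  R_aff : ∀ z x x', (x, z + h * A x) ∈ DR xb ρ κ h → (x', z + h * A x') ∈ DR xb ρ κ h →
    ‖R (x, z + h * A x) - R (x', z + h * A x') - cexp ℓ * γ₀ * (x - x')‖ ≤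
      ‖cexp ℓ * γ₀‖ / 8 * ‖x - x'‖

/-- the link with the chains from the states near the tip to the base regions (`j` steps) -/
structure Lnk (ℓ xb : ℂ) (ρ : ℝ) (Φ : ℂ → ℂ) (t r h : ℝ) (A : ℂ → ℂ) (ρ₁ κ₁ : ℝ) (j : ℕ) :
    Prop where
  j_le : j * h ≤ t
  j_ge : t < (j + 1) * h
  left : ∀ u ∈ DL xb ρ₁ κ₁ h, ∀ i ≤ j, Pas (ℓ - Real.pi * I) (ρ / 4) (1 / 64) h
    (fun x => A (-x)) (rev h A u) i
  left_mem : ∀ u ∈ DL xb ρ₁ κ₁ h, (Fs (ℓ - Real.pi * I) h fun x => A (-x))^[j] (rev h A u) ∈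
    NN (ℓ - Real.pi * I) (-xb) ρ (fun x => Φ (-x)) t r
  right : ∀ u ∈ DR xb ρ₁ κ₁ h, ∀ i ≤ j, Pas ℓ (ρ / 4) (1 / 64) h A u i
  right_mem : ∀ u ∈ DR xb ρ₁ κ₁ h, (Fs ℓ h A)^[j] u ∈ NN ℓ xb ρ Φ t r

/-- the strip of phases around the vertical line through the singular point (relative coordinate) -/
def QQ (κ h : ℝ) : Set ℂ := {s | |s.re| < 9 / 16 * h ∧ |s.im| < κ / 2}

/-- the exact curve `γ = γ₀` near the tip, parametrised by the time `s_b + s` -/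
structure Cur (ℓ xb : ℂ) (ρ κ h : ℝ) (A : ℂ → ℂ) (γ₀ : ℂ) (L T : ℂ × ℂ → ℂ) (sb : ℂ)
    (X Z : ℂ → ℂ) : Prop where
  X_an : DifferentiableOn ℂ X (QQ κ h)
  Z_an : DifferentiableOn ℂ Z (QQ κ h)
  X_mem : ∀ s ∈ QQ κ h, ‖X s - xb‖ ≤ ρ / 8
  Z_near : ∀ s ∈ QQ κ h, ‖Z s - s‖ ≤ ‖s‖ / 16
  L_eq : ∀ s ∈ QQ κ h, L (X s, Z s) = γ₀
  T_eq : ∀ s ∈ QQ κ h, T (X s, Z s) = sb + s
  per : ∀ s ∈ QQ κ h, s + h ∈ QQ κ h → (X (s + h), Z (s + h)) = Wm ℓ h A (X s, Z s)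

end Pool.Agent.MP_ae5b4e_an_AT
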