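import Pool.Agent.Lib.MP_ae5b4e_an_AT.Defs

noncomputable section

namespace Pool.Agent.MP_ae5b4e_an_AT

open Complex Set Filter Topology Metric

/-- the values of `z` -/
def Dz (κ h : ℝ) : Set ℂ := {z | ‖z‖ < κ ∧ z.re < |z.im| + 3 / 4 * h}

end Pool.Agent.MP_ae5b4e_an_AT
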