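import Pool.Agent.Lib.MP_ae5b4e_an_AT.Elem
import Pool.Agent.Lib.MP_ae5b4e_an_AT.Geom

/-! # AT: the change of the energy in one step -/

noncomputable section

namespace Pool.Agent.MP_ae5b4e_an_AT

open Complex Set Filter Topology Metric

variable {ℓ xb : ℂ} {ρ : ℝ} {A₀ Φ A : ℂ → ℂ}

/-- Proof. Cauchy estimate: on `ball xb (3 ρ / 4)` `‖A₀'‖ ≤ (1/128) / (ρ / 4)` (apply it to `A₀ - 1`), and
the ball is convex. -/
theorem Side.lip (hS : Side ℓ xb ρ A₀ Φ) {x y : ℂ} (hx : ‖x - xb‖ < ρ / 2)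
    (hy : ‖y - xb‖ < ρ / 2) : ‖A₀ x - A₀ y‖ ≤ ‖x - y‖ / ρ := by
  have hρ := hS.ρ_pos
  have hb : ∀ z ∈ ball xb (ρ / 2), ‖deriv A₀ z‖ ≤ 1 / ρ := by
    intro z hz
    have h1 : closedBall z (ρ / 4) ⊆ ball xb ρ := by
      intro w hw
      rw [mem_closedBall, dist_eq_norm] at hw
      rw [mem_ball, dist_eq_norm] at hz ⊢
      calc ‖w - xb‖ = ‖(w - z) + (z - xb)‖ := by congr 1; ring
        _ ≤ ‖w - z‖ + ‖z - xb‖ := norm_add_le _ _
        _ < ρ := by linarith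
    have h2 : DiffContOnCl ℂ (fun w => A₀ w - 1) (ball z (ρ / 4)) := by
      refine DifferentiableOn.diffContOnCl ?_
      rw [closure_ball z (by positivity)]
      exact (hS.an.mono h1).sub_const _
    have h3 := Complex.norm_deriv_le_of_forall_mem_sphere_norm_le (by positivity) h2
      (fun w hw => hS.near w (h1 (sphere_subset_closedBall hw)))
    rw [deriv_sub_const] at h3
    refine h3.trans ?_
    rw [div_div, div_le_div_iff₀ (by positivity) hρ]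
    linarith
  have hd : ∀ z ∈ ball xb (ρ / 2), DifferentiableAt ℂ A₀ z := fun z hz =>
    hS.an.differentiableAt (isOpen_ball.mem_nhds (ball_subset_ball (by linarith) hz))
  have h4 := (convex_ball xb (ρ / 2)).norm_image_sub_le_of_norm_deriv_le hd hb
    (x := y) (y := x) (by rwa [mem_ball, dist_eq_norm]) (by rwa [mem_ball, dist_eq_norm])
  refine h4.trans (le_of_eq ?_)
  ring

/-- Proof. Write `λ = lam ℓ v.2`, `x⁺ = v.1 + h λ`, `A⁺ = A x⁺`, `e = cexp ℓ`. Then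
`en (Fs v) - en v = [Φ (x⁺) - Φ (v.1) + h λ e A₀ (v.1)] + [sz (v.2 + h A⁺) - sz (v.2) - h A⁺ e λ]
+ h λ e (A⁺ - A₀ (v.1))`.
First term: the function `Φ + e A₀ (v.1) ·` has derivative `- e (A₀ x - A₀ (v.1))` on the segment, norm
`≤ ‖e‖ ‖h λ‖ / ρ` (`Side.lip`): `≤ ‖e‖ ‖h λ‖² / ρ`. Third term: `‖A⁺ - A₀ x⁺‖ ≤ δ`,
`‖A₀ x⁺ - A₀ (v.1)‖ ≤ ‖h λ‖ / ρ`. Second term: `‖A⁺‖ ≤ 9/8`; the points `ζ = v.2 + s h A⁺`,
`0 ≤ s ≤ 1`, satisfy `- |Im ζ| < Re ζ`, `‖ζ‖ ≥ ‖v.2‖ / 4` (`sec_add` with `s h` and `w = s h (A⁺ - 1)`,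
`‖A⁺ - 1‖ ≤ 1/8`) and `‖e ζ‖ ≤ 1/2 + 9/64 ≤ 3/4`, so `‖lam' ζ‖ ≤ 1 / (‖ζ‖ / 4) ≤ 16 / ‖v.2‖` and
`‖lam ζ - λ‖ ≤ 18 h / ‖v.2‖` on the segment, so the second term is
`≤ ‖e‖ (9/8) h · 18 h / ‖v.2‖ ≤ 24 ‖e‖ h² / ‖v.2‖` (mean value inequality for `sz - e λ ·` on the
segment, `hasDerivAt_sz`). -/
theorem energy_step (hS : Side ℓ xb ρ A₀ Φ) {h δ : ℝ} (hh : 0 < h) (he : h * ‖cexp ℓ‖ ≤ 1 / 8)
    (hC : Cl xb ρ A A₀ δ) (hδ : δ ≤ 1 / 128) {v : ℂ × ℂ} (h1 : ‖v.1 - xb‖ < ρ / 2)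
    (h2 : ‖v.1 + h * lam ℓ v.2 - xb‖ < ρ / 2) (h3 : -|v.2.im| < v.2.re)
    (h4 : ‖cexp ℓ * v.2‖ ≤ 1 / 2) :
    ‖en ℓ Φ (Fs ℓ h A v) - en ℓ Φ v‖ ≤ ‖cexp ℓ‖ * h * (24 * h / ‖v.2‖ +
      ‖lam ℓ v.2‖ * (δ + 2 * h * ‖lam ℓ v.2‖ / ρ)) := by
  have hρ := hS.ρ_pos
  have hv0 : v.2 ≠ 0 := by
    intro h0
    rw [h0] at h3
    simp at h3
  have hvpos : 0 < ‖v.2‖ := norm_pos_iff.2 hv0
  set lv : ℂ := lam ℓ v.2 with hlv
  set xp : ℂ := v.1 + h * lv with hxp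
  set Ap : ℂ := A xp with hAp
  set e : ℂ := cexp ℓ with he0
  have hxpb : xp ∈ ball xb ρ := by
    rw [mem_ball, dist_eq_norm]
    linarith
  have hA1 : ‖Ap - A₀ xp‖ ≤ δ := hC.cl xp hxpb
  have hA2 : ‖A₀ xp - 1‖ ≤ 1 / 128 := hS.near xp hxpb
  have hA3 : ‖Ap - 1‖ ≤ 1 / 8 := by
    calc ‖Ap - 1‖ = ‖(Ap - A₀ xp) + (A₀ xp - 1)‖ := by congr 1; ring
      _ ≤ ‖Ap - A₀ xp‖ + ‖A₀ xp - 1‖ := norm_add_le _ _
      _ ≤ 1 / 8 := by linarith
  have hA4 : ‖Ap‖ ≤ 9 / 8 := by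
    calc ‖Ap‖ = ‖(Ap - 1) + 1‖ := by congr 1; ring
      _ ≤ ‖Ap - 1‖ + ‖(1 : ℂ)‖ := norm_add_le _ _
      _ ≤ 9 / 8 := by rw [norm_one]; linarith
  have hhn : ‖(h : ℂ)‖ = h := by rw [norm_real, Real.norm_of_nonneg hh.le]
  have hhl : ‖(h : ℂ) * lv‖ = h * ‖lv‖ := by rw [norm_mul, hhn]
  -- first term
  have hT1 : ‖Φ xp - Φ v.1 + h * lv * e * A₀ v.1‖ ≤ ‖e‖ * (h * ‖lv‖) ^ 2 / ρ := by
    have hseg : ∀ x ∈ segment ℝ v.1 xp, ‖x - xb‖ < ρ / 2 ∧ ‖x - v.1‖ ≤ h * ‖lv‖ := by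
      intro x hx
      constructor
      · have hx1 := (convex_ball xb (ρ / 2)).segment_subset (x := v.1) (y := xp)
          (by rwa [mem_ball, dist_eq_norm]) (by rwa [mem_ball, dist_eq_norm]) hx
        rwa [mem_ball, dist_eq_norm] at hx1
      · rw [segment_eq_image_lineMap] at hx
        obtain ⟨s, hs, rfl⟩ := hx
        have h5 : AffineMap.lineMap v.1 xp s - v.1 = (s : ℂ) * (h * lv) := by
          rw [AffineMap.lineMap_apply, hxp]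
          simp
        rw [h5, norm_mul, hhl, norm_real, Real.norm_of_nonneg hs.1]
        exact mul_le_of_le_one_left (by positivity) hs.2
    have hder : ∀ x ∈ segment ℝ v.1 xp, HasDerivWithinAt (fun x => Φ x + e * A₀ v.1 * x)
        (-(e * A₀ x) + e * A₀ v.1) (segment ℝ v.1 xp) x := by
      intro x hx
      have h5 : x ∈ ball xb ρ := by
        rw [mem_ball, dist_eq_norm]
        linarith [(hseg x hx).1]
      have h6 := (hS.prim x h5).add ((hasDerivAt_id x).const_mul (e * A₀ v.1))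
      rw [mul_one] at h6
      exact h6.hasDerivWithinAt
    have hbd : ∀ x ∈ segment ℝ v.1 xp, ‖-(e * A₀ x) + e * A₀ v.1‖ ≤
        ‖e‖ * (h * ‖lv‖) / ρ := by
      intro x hx
      obtain ⟨h5, h6⟩ := hseg x hx
      have h7 := hS.lip h5 h1
      have h8 : -(e * A₀ x) + e * A₀ v.1 = -(e * (A₀ x - A₀ v.1)) := by ring
      rw [h8, norm_neg, norm_mul, mul_div_assoc]
      refine mul_le_mul_of_nonneg_left (h7.trans ?_) (norm_nonneg _)
      exact div_le_div_of_nonneg_right h6 hρ.le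
    have h9 := (convex_segment v.1 xp).norm_image_sub_le_of_norm_hasDerivWithin_le hder hbd
      (left_mem_segment ℝ v.1 xp) (right_mem_segment ℝ v.1 xp)
    have h10 : Φ xp - Φ v.1 + h * lv * e * A₀ v.1 =
        Φ xp + e * A₀ v.1 * xp - (Φ v.1 + e * A₀ v.1 * v.1) := by
      rw [hxp]
      ring
    have h11 : xp - v.1 = h * lv := by
      rw [hxp]
      ring
    rw [h10]
    refine h9.trans (le_of_eq ?_)
    rw [h11, hhl]
    ring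
  -- third term
  have hT3 : ‖h * lv * e * (Ap - A₀ v.1)‖ ≤ h * ‖lv‖ * ‖e‖ * (δ + h * ‖lv‖ / ρ) := by
    have h5 : ‖A₀ xp - A₀ v.1‖ ≤ h * ‖lv‖ / ρ := by
      have h6 := hS.lip h2 h1
      have h11 : v.1 + h * lam ℓ v.2 - v.1 = h * lv := by ring
      rw [h11, hhl] at h6
      exact h6
    have h7 : ‖Ap - A₀ v.1‖ ≤ δ + h * ‖lv‖ / ρ := by
      calc ‖Ap - A₀ v.1‖ = ‖(Ap - A₀ xp) + (A₀ xp - A₀ v.1)‖ := by congr 1; ring
        _ ≤ ‖Ap - A₀ xp‖ + ‖A₀ xp - A₀ v.1‖ := norm_add_le _ _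
        _ ≤ _ := add_le_add hA1 h5
    rw [norm_mul, norm_mul, hhl]
    exact mul_le_mul_of_nonneg_left h7 (by positivity)
  -- second term
  have hT2 : ‖sz ℓ (v.2 + h * Ap) - sz ℓ v.2 - h * Ap * e * lv‖ ≤
      ‖e‖ * (24 * h ^ 2 / ‖v.2‖) := by
    have hseg : ∀ ζ ∈ segment ℝ v.2 (v.2 + h * Ap), ζ ∈ slitPlane ∧ ‖v.2‖ / 4 ≤ ‖ζ‖ ∧
        ‖e * ζ‖ ≤ 3 / 4 ∧ ‖ζ - v.2‖ ≤ 9 / 8 * h := by
      intro ζ hζ
      rw [segment_eq_image_lineMap] at hζ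
      obtain ⟨s, hs, rfl⟩ := hζ
      have h5 : AffineMap.lineMap v.2 (v.2 + h * Ap) s = v.2 + (s : ℂ) * (h * Ap) := by
        rw [AffineMap.lineMap_apply]
        simp [add_comm]
      rw [h5]
      have h6 : v.2 + (s : ℂ) * (h * Ap) = v.2 + ((s * h : ℝ) : ℂ) + s * h * (Ap - 1) := by
        push_cast
        ring
      have hsh : 0 ≤ s * h := mul_nonneg hs.1 hh.le
      have hsn : ‖(s : ℂ)‖ = s := by rw [norm_real, Real.norm_of_nonneg hs.1]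
      have h7 : ‖(s : ℂ) * h * (Ap - 1)‖ ≤ s * h / 8 := by
        rw [norm_mul, norm_mul, hsn, hhn]
        have := mul_le_mul_of_nonneg_left hA3 hsh
        linarith
      have h8 := sec_add h3 hsh h7
      rw [← h6] at h8
      have h9 : ‖(s : ℂ) * (h * Ap)‖ ≤ 9 / 8 * h := by
        rw [norm_mul, norm_mul, hsn, hhn]
        have h10 : h * ‖Ap‖ ≤ h * (9 / 8) := mul_le_mul_of_nonneg_left hA4 hh.le
        have h11 : s * (h * ‖Ap‖) ≤ 1 * (h * ‖Ap‖) :=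
          mul_le_mul_of_nonneg_right hs.2 (by positivity)
        linarith
      refine ⟨sec_slit h8.1, ?_, ?_, ?_⟩
      · linarith [h8.2]
      · rw [mul_add]
        refine (norm_add_le _ _).trans ?_
        rw [norm_mul e ((s : ℂ) * (h * Ap))]
        have h12 : ‖e‖ * ‖(s : ℂ) * (h * Ap)‖ ≤ ‖e‖ * (9 / 8 * h) :=
          mul_le_mul_of_nonneg_left h9 (norm_nonneg _)
        have h13 : ‖e‖ * (9 / 8 * h) = 9 / 8 * (h * ‖e‖) := by ring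
        linarith
      · rw [add_sub_cancel_left]
        exact h9
    have hlam : ∀ ζ ∈ segment ℝ v.2 (v.2 + h * Ap), ‖lam ℓ ζ - lv‖ ≤ 18 * h / ‖v.2‖ := by
      intro ζ hζ
      have h5 : ∀ w ∈ segment ℝ v.2 (v.2 + h * Ap), HasDerivWithinAt (lam ℓ)
          (-(1 / (w * (1 + cexp ℓ * w)))) (segment ℝ v.2 (v.2 + h * Ap)) w := by
        intro w hw
        obtain ⟨h6, -, h7, -⟩ := hseg w hw
        exact (hasDerivAt_lam h6 (by linarith)).hasDerivWithinAt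
      have h6 : ∀ w ∈ segment ℝ v.2 (v.2 + h * Ap),
          ‖-(1 / (w * (1 + cexp ℓ * w)))‖ ≤ 16 / ‖v.2‖ := by
        intro w hw
        obtain ⟨-, h7, h8, -⟩ := hseg w hw
        have h9 : 1 / 4 ≤ ‖1 + cexp ℓ * w‖ := by
          have h10 := norm_sub_norm_le (1 : ℂ) (-(cexp ℓ * w))
          rw [norm_one, norm_neg, sub_neg_eq_add] at h10
          change ‖cexp ℓ * w‖ ≤ 3 / 4 at h8
          linarith
        rw [norm_neg, norm_div, norm_one, norm_mul]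
        have h11 : ‖v.2‖ / 16 ≤ ‖w‖ * ‖1 + cexp ℓ * w‖ := by
          have h12 := mul_le_mul h7 h9 (by norm_num) (norm_nonneg _)
          linarith
        rw [div_le_div_iff₀ (by linarith) hvpos]
        linarith
      have h7 := (convex_segment v.2 (v.2 + h * Ap)).norm_image_sub_le_of_norm_hasDerivWithin_le
        h5 h6 (left_mem_segment ℝ _ _) hζ
      refine h7.trans ?_
      have h8 : 16 / ‖v.2‖ * ‖ζ - v.2‖ ≤ 16 / ‖v.2‖ * (9 / 8 * h) :=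
        mul_le_mul_of_nonneg_left (hseg ζ hζ).2.2.2 (by positivity)
      refine h8.trans (le_of_eq ?_)
      ring
    have hder : ∀ ζ ∈ segment ℝ v.2 (v.2 + h * Ap), HasDerivWithinAt
        (fun ζ => sz ℓ ζ - e * lv * ζ) (e * lam ℓ ζ - e * lv)
        (segment ℝ v.2 (v.2 + h * Ap)) ζ := by
      intro ζ hζ
      obtain ⟨h6, -, h7, -⟩ := hseg ζ hζ
      have h8 := (hasDerivAt_sz (ℓ := ℓ) h6 (by linarith)).sub
        ((hasDerivAt_id ζ).const_mul (e * lv))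
      rw [mul_one] at h8
      exact h8.hasDerivWithinAt
    have hbd : ∀ ζ ∈ segment ℝ v.2 (v.2 + h * Ap), ‖e * lam ℓ ζ - e * lv‖ ≤
        ‖e‖ * (18 * h / ‖v.2‖) := by
      intro ζ hζ
      rw [← mul_sub, norm_mul]
      exact mul_le_mul_of_nonneg_left (hlam ζ hζ) (norm_nonneg _)
    have h9 := (convex_segment v.2 (v.2 + h * Ap)).norm_image_sub_le_of_norm_hasDerivWithin_le
      hder hbd (left_mem_segment ℝ _ _) (right_mem_segment ℝ _ _)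
    have h10 : sz ℓ (v.2 + h * Ap) - sz ℓ v.2 - h * Ap * e * lv =
        sz ℓ (v.2 + h * Ap) - e * lv * (v.2 + h * Ap) - (sz ℓ v.2 - e * lv * v.2) := by
      ring
    rw [h10]
    refine h9.trans ?_
    have h11 : ‖v.2 + h * Ap - v.2‖ ≤ 9 / 8 * h :=
      (hseg _ (right_mem_segment ℝ _ _)).2.2.2
    have h12 : ‖e‖ * (18 * h / ‖v.2‖) * ‖v.2 + h * Ap - v.2‖ ≤
        ‖e‖ * (18 * h / ‖v.2‖) * (9 / 8 * h) :=
      mul_le_mul_of_nonneg_left h11 (by positivity)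
    refine h12.trans ?_
    have h13 : ‖e‖ * (18 * h / ‖v.2‖) * (9 / 8 * h) =
        ‖e‖ * (81 / 4 * h ^ 2 / ‖v.2‖) := by ring
    rw [h13]
    refine mul_le_mul_of_nonneg_left ?_ (norm_nonneg _)
    refine div_le_div_of_nonneg_right ?_ hvpos.le
    nlinarith [sq_nonneg h]
  have hid : en ℓ Φ (Fs ℓ h A v) - en ℓ Φ v =
      (Φ xp - Φ v.1 + h * lv * e * A₀ v.1) +
        (sz ℓ (v.2 + h * Ap) - sz ℓ v.2 - h * Ap * e * lv) +
        h * lv * e * (Ap - A₀ v.1) := by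
    change Φ xp + sz ℓ (v.2 + h * Ap) - (Φ v.1 + sz ℓ v.2) = _
    ring
  rw [hid]
  refine (norm_add_le _ _).trans ((add_le_add (norm_add_le _ _) le_rfl).trans ?_)
  refine (add_le_add (add_le_add hT1 hT2) hT3).trans (le_of_eq ?_)
  ring

end Pool.Agent.MP_ae5b4e_an_AT
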