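import Pool.Agent.Lib.MP_ae5b4e_an_AT.Pass

/-! # AT: half passing -/

noncomputable section

namespace Pool.Agent.MP_ae5b4e_an_AT

open Complex Set Filter Topology Metric

private theorem Half_sec {a b b' : ℝ} {z : ℂ} (h : z ∈ Sec 1 a b) (hb : b ≤ b') :
    z ∈ Sec 1 a b' :=
  ⟨h.1, h.2.1, h.2.2.trans_le hb⟩

private theorem Half_cl {xb : ℂ} {ρ δ δ' : ℝ} {A A₀ : ℂ → ℂ} (h : Cl xb ρ A A₀ δ) (hd : δ ≤ δ') :
    Cl xb ρ A A₀ δ' :=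
  ⟨h.an, fun x hx => (h.cl x hx).trans hd⟩

/-- HALF PASSING: all the states near the tip reach the base region in `⌊t / h⌋` steps, and the
energy is the one of the tip with the label `u.1`.

Proof. `t₀, κ₀` from `pass`. Let `t ≤ t₀`, `r > 0`. `ρ₁ ≤ ρ / 8` with `‖Φ x - Φ xb‖ ≤ r / 4` on `ball xb ρ₁`
(`Φ` is continuous); `κ₁ ≤ min κ₀ (t / 32)` with `‖sz ℓ z‖ ≤ r / 4` for `‖z‖ < κ₁` (`sz_small`); `pass` with
`ε = r / 4` gives `h₁, δ₁`; make `h₁ ≤ t / 32`. With `j = ⌊t / h⌋₊`: `j h ≤ t < j h + h`. `NN`: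
`‖x_j - xb‖ < ρ₁ + ρ / 4 < ρ / 2`; `‖z_j - t‖ ≤ ‖u.2‖ + h + t / 64 < t / 4`; energy:
`‖en (F^[j] u) - Φ xb‖ ≤ r/4 + ‖Φ (u.1) - Φ xb‖ + ‖sz (u.2)‖ < r`. Second part: `κ₂ ≤ κ₁` with
`‖sz ℓ z‖ ≤ ε / 2`, `pass` with `ε / 2`. -/
theorem half {ℓ xb : ℂ} {ρ : ℝ} {A₀ Φ : ℂ → ℂ} (hS : Side ℓ xb ρ A₀ Φ) :
    ∃ t₀ : ℝ, 0 < t₀ ∧ t₀ ≤ 1 / 4 ∧ ∀ t : ℝ, 0 < t → t ≤ t₀ → ∀ r : ℝ, 0 < r →
      ∃ ρ₁ κ₁ h₁ δ₁ : ℝ, 0 < ρ₁ ∧ ρ₁ ≤ ρ / 8 ∧ 0 < κ₁ ∧ κ₁ ≤ t / 32 ∧ 0 < h₁ ∧ h₁ ≤ t / 32 ∧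
        0 < δ₁ ∧ δ₁ ≤ 1 / 128 ∧
        (∀ (h : ℝ) (A : ℂ → ℂ), 0 < h → h ≤ h₁ → Cl xb ρ A A₀ δ₁ → ∀ u : ℂ × ℂ, ‖u.1 - xb‖ < ρ₁ →
          u.2 ∈ Sec 1 (h / 8) κ₁ →
            (∀ i ≤ ⌊t / h⌋₊, Pas ℓ (ρ / 4) (1 / 64) h A u i) ∧
            (Fs ℓ h A)^[⌊t / h⌋₊] u ∈ NN ℓ xb ρ Φ t r ∧
            AnalyticAt ℂ ((Fs ℓ h A)^[⌊t / h⌋₊]) u ∧
            jac (fun v => ((Fs ℓ h A)^[⌊t / h⌋₊] v).1)
              (fun v => ((Fs ℓ h A)^[⌊t / h⌋₊] v).2) u = 1) ∧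
        ∀ ε : ℝ, 0 < ε → ∃ κ₂ h₂ δ₂ : ℝ, 0 < κ₂ ∧ κ₂ ≤ κ₁ ∧ 0 < h₂ ∧ h₂ ≤ h₁ ∧ 0 < δ₂ ∧ δ₂ ≤ δ₁ ∧
          ∀ (h : ℝ) (A : ℂ → ℂ), 0 < h → h ≤ h₂ → Cl xb ρ A A₀ δ₂ → ∀ u : ℂ × ℂ, ‖u.1 - xb‖ < ρ₁ →
            u.2 ∈ Sec 1 (h / 8) κ₂ →
              ‖en ℓ Φ ((Fs ℓ h A)^[⌊t / h⌋₊] u) - Φ u.1‖ ≤ ε := by
  obtain ⟨t₀, κ₀, ht0, ht4, hκ0, hκ4, hp⟩ := pass hS
  refine ⟨t₀, ht0, ht4, fun t ht htt r hr => ?_⟩
  have hρ := hS.ρ_pos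
  have hcont : ContinuousAt Φ xb := (hS.prim xb (mem_ball_self hρ)).continuousAt
  obtain ⟨d, hd, hdΦ⟩ := Metric.continuousAt_iff.1 hcont (r / 4) (by linarith)
  obtain ⟨κa, hκa, hsz⟩ := sz_small ℓ (η := r / 4) (by linarith)
  obtain ⟨h', δ', hh', hh1', hδ', hδ1', hp'⟩ := hp (r / 4) (by linarith)
  have hfl : ∀ h : ℝ, 0 < h → ((⌊t / h⌋₊ : ℕ) : ℝ) * h ≤ t ∧ t < (⌊t / h⌋₊ : ℕ) * h + h := by
    intro h hh
    have h1 := Nat.floor_le (div_pos ht hh).le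
    have h2 := Nat.lt_floor_add_one (t / h)
    rw [le_div_iff₀ hh] at h1
    rw [div_lt_iff₀ hh] at h2
    exact ⟨h1, by linarith⟩
  refine ⟨min (ρ / 8) d, min κ₀ (min (t / 32) κa), min h' (t / 32), δ', by positivity,
    min_le_left _ _, by positivity, (min_le_right _ _).trans (min_le_left _ _), by positivity,
    min_le_right _ _, hδ', hδ1', ?_, ?_⟩
  · intro h A hh hhle hcl u hu1 hu2
    have hu1' : ‖u.1 - xb‖ < ρ / 8 := hu1.trans_le (min_le_left _ _)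
    have hu2' := Half_sec hu2 (min_le_left _ _)
    have hu3 : ‖u.2‖ < t / 32 := hu2.2.2.trans_le ((min_le_right _ _).trans (min_le_left _ _))
    have hu4 : ‖u.2‖ < κa := hu2.2.2.trans_le ((min_le_right _ _).trans (min_le_right _ _))
    have hht : h ≤ t / 32 := hhle.trans (min_le_right _ _)
    have hP := hp' h A hh (hhle.trans (min_le_left _ _)) hcl u (by linarith) hu2'
    obtain ⟨f1, f2⟩ := hfl h hh
    obtain ⟨P, hen, han, hjac⟩ := hP ⌊t / h⌋₊ (f1.trans htt)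
    refine ⟨fun i hi => (hP i ?_).1, ⟨?_, ?_, ?_⟩, han, hjac⟩
    · have h1 : (i : ℝ) * h ≤ (⌊t / h⌋₊ : ℕ) * h :=
        mul_le_mul_of_nonneg_right (by exact_mod_cast hi) hh.le
      linarith
    · have h1 := norm_sub_le_norm_sub_add_norm_sub ((Fs ℓ h A)^[⌊t / h⌋₊] u).1 u.1 xb
      have h2 := P.x_near
      linarith
    · have h1 := P.z_near
      have e : ((Fs ℓ h A)^[⌊t / h⌋₊] u).2 - (t : ℂ) =
          (((Fs ℓ h A)^[⌊t / h⌋₊] u).2 - (u.2 + (⌊t / h⌋₊ : ℕ) * h)) +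
            (u.2 + ((((⌊t / h⌋₊ : ℕ) : ℝ) * h - t : ℝ) : ℂ)) := by
        push_cast
        ring
      have h2 : ‖((((⌊t / h⌋₊ : ℕ) : ℝ) * h - t : ℝ) : ℂ)‖ ≤ h := by
        rw [norm_real, Real.norm_eq_abs, abs_le]
        constructor <;> linarith
      rw [e]
      refine (norm_add_le _ _).trans_lt ?_
      have h3 := norm_add_le u.2 ((((⌊t / h⌋₊ : ℕ) : ℝ) * h - t : ℝ) : ℂ)
      have h4 : (1 : ℝ) / 64 * ((⌊t / h⌋₊ : ℕ) * h) ≤ 1 / 64 * t :=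
        mul_le_mul_of_nonneg_left f1 (by norm_num)
      linarith
    · have h1 := norm_sub_le_norm_sub_add_norm_sub (en ℓ Φ ((Fs ℓ h A)^[⌊t / h⌋₊] u))
        (en ℓ Φ u) (Φ xb)
      have h2 : en ℓ Φ u - Φ xb = (Φ u.1 - Φ xb) + sz ℓ u.2 := by
        unfold en
        ring
      have h3 : ‖Φ u.1 - Φ xb‖ < r / 4 := by
        have := hdΦ (x := u.1) (by
          rw [dist_eq_norm]
          exact hu1.trans_le (min_le_right _ _))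
        rwa [dist_eq_norm] at this
      have h4 := hsz u.2 hu4
      have h5 := norm_add_le (Φ u.1 - Φ xb) (sz ℓ u.2)
      rw [← h2] at h5
      linarith
  · intro ε hε
    obtain ⟨κb, hκb, hszb⟩ := sz_small ℓ (η := ε / 2) (by linarith)
    obtain ⟨h'', δ'', hh'', hh1'', hδ'', hδ1'', hp''⟩ := hp (ε / 2) (by linarith)
    refine ⟨min (min κ₀ (min (t / 32) κa)) κb, min (min h' (t / 32)) h'', min δ' δ'',
      by positivity, min_le_left _ _, by positivity, min_le_left _ _, by positivity,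
      min_le_left _ _, ?_⟩
    intro h A hh hhle hcl u hu1 hu2
    have hu1' : ‖u.1 - xb‖ < ρ / 8 := hu1.trans_le (min_le_left _ _)
    have hu2' : u.2 ∈ Sec 1 (h / 8) κ₀ :=
      Half_sec hu2 ((min_le_left _ _).trans (min_le_left _ _))
    have hu4 : ‖u.2‖ < κb := hu2.2.2.trans_le (min_le_right _ _)
    have hP := hp'' h A hh (hhle.trans (min_le_right _ _)) (Half_cl hcl (min_le_right _ _)) u
      (by linarith) hu2'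
    obtain ⟨f1, f2⟩ := hfl h hh
    obtain ⟨P, hen, han, hjac⟩ := hP ⌊t / h⌋₊ (f1.trans htt)
    have h1 := norm_sub_le_norm_sub_add_norm_sub (en ℓ Φ ((Fs ℓ h A)^[⌊t / h⌋₊] u))
      (en ℓ Φ u) (Φ u.1)
    have h2 : en ℓ Φ u - Φ u.1 = sz ℓ u.2 := by
      unfold en
      ring
    rw [h2] at h1
    have h3 := hszb u.2 hu4
    linarith

end Pool.Agent.MP_ae5b4e_an_AT
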