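import Pool.Agent.Lib.MP_ae5b4e_an_AT.Elem

/-! # AT: the step preserves the area -/

noncomputable section

namespace Pool.Agent.MP_ae5b4e_an_AT

open Complex Set Filter Topology Metric

/-- Proof. Chain rule: `fderiv (f ∘ G) u e = fderiv f (G u) (fderiv G u e)`, and
`(a, b) = a • (1, 0) + b • (0, 1)`; the determinant is multiplicative (`ring`). -/
theorem jac_comp {f g : ℂ × ℂ → ℂ} {G : ℂ × ℂ → ℂ × ℂ} {u : ℂ × ℂ} (hG : DifferentiableAt ℂ G u)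
    (hf : DifferentiableAt ℂ f (G u)) (hg : DifferentiableAt ℂ g (G u)) :
    jac (fun v => f (G v)) (fun v => g (G v)) u =
      jac f g (G u) * jac (fun v => (G v).1) (fun v => (G v).2) u := by
  have e1 : fderiv ℂ (fun v => f (G v)) u = (fderiv ℂ f (G u)).comp (fderiv ℂ G u) :=
    (hf.hasFDerivAt.comp u hG.hasFDerivAt).fderiv
  have e2 : fderiv ℂ (fun v => g (G v)) u = (fderiv ℂ g (G u)).comp (fderiv ℂ G u) :=
    (hg.hasFDerivAt.comp u hG.hasFDerivAt).fderiv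
  have e3 : fderiv ℂ (fun v => (G v).1) u =
      (ContinuousLinearMap.fst ℂ ℂ ℂ).comp (fderiv ℂ G u) := hG.hasFDerivAt.fst.fderiv
  have e4 : fderiv ℂ (fun v => (G v).2) u =
      (ContinuousLinearMap.snd ℂ ℂ ℂ).comp (fderiv ℂ G u) := hG.hasFDerivAt.snd.fderiv
  have hlin : ∀ (T : ℂ × ℂ →L[ℂ] ℂ) (w : ℂ × ℂ), T w = w.1 * T (1, 0) + w.2 * T (0, 1) := by
    intro T w
    have hw : w = w.1 • ((1 : ℂ), (0 : ℂ)) + w.2 • ((0 : ℂ), (1 : ℂ)) := by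
      ext <;> simp
    conv_lhs => rw [hw]
    rw [map_add, map_smul, map_smul]
    simp
  unfold jac
  rw [e1, e2, e3, e4]
  simp only [ContinuousLinearMap.comp_apply, ContinuousLinearMap.coe_fst',
    ContinuousLinearMap.coe_snd']
  rw [hlin (fderiv ℂ f (G u)) (fderiv ℂ G u (1, 0)), hlin (fderiv ℂ f (G u)) (fderiv ℂ G u (0, 1)),
    hlin (fderiv ℂ g (G u)) (fderiv ℂ G u (1, 0)), hlin (fderiv ℂ g (G u)) (fderiv ℂ G u (0, 1))]
  ring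

private theorem Jac_F1 {ℓ : ℂ} {h : ℝ} {u : ℂ × ℂ} (h1 : u.2 ∈ slitPlane)
    (h2 : ‖cexp ℓ * u.2‖ < 1) :
    ∃ c : ℂ, HasFDerivAt (fun v : ℂ × ℂ => v.1 + h * lam ℓ v.2)
      (ContinuousLinearMap.fst ℂ ℂ ℂ + (h : ℂ) • (c • ContinuousLinearMap.snd ℂ ℂ ℂ)) u := by
  refine ⟨-(1 / (u.2 * (1 + cexp ℓ * u.2))), ?_⟩
  have hd := (hasDerivAt_lam h1 h2).comp_hasFDerivAt u
    (hasFDerivAt_snd (𝕜 := ℂ) (E := ℂ) (F := ℂ) (p := u))
  exact hasFDerivAt_fst.add (hd.const_mul (h : ℂ))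

private theorem Jac_F2 {ℓ : ℂ} {h : ℝ} {A : ℂ → ℂ} {u : ℂ × ℂ} {c : ℂ}
    (hF : HasFDerivAt (fun v : ℂ × ℂ => v.1 + h * lam ℓ v.2)
      (ContinuousLinearMap.fst ℂ ℂ ℂ + (h : ℂ) • (c • ContinuousLinearMap.snd ℂ ℂ ℂ)) u)
    (hA : DifferentiableAt ℂ A (u.1 + h * lam ℓ u.2)) :
    ∃ a : ℂ, HasFDerivAt (fun v : ℂ × ℂ => v.2 + h * A (v.1 + h * lam ℓ v.2))
      (ContinuousLinearMap.snd ℂ ℂ ℂ + (h : ℂ) • (a •
        (ContinuousLinearMap.fst ℂ ℂ ℂ + (h : ℂ) • (c • ContinuousLinearMap.snd ℂ ℂ ℂ)))) u := by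
  refine ⟨deriv A (u.1 + h * lam ℓ u.2), ?_⟩
  have hd := hA.hasDerivAt.comp_hasFDerivAt u hF
  exact hasFDerivAt_snd.add (hd.const_mul (h : ℂ))

private theorem Jac_diff {ℓ : ℂ} {h : ℝ} {A : ℂ → ℂ} {u : ℂ × ℂ} (h1 : u.2 ∈ slitPlane)
    (h2 : ‖cexp ℓ * u.2‖ < 1) (hA : DifferentiableAt ℂ A (u.1 + h * lam ℓ u.2)) :
    DifferentiableAt ℂ (Fs ℓ h A) u := by
  obtain ⟨c, hc⟩ := Jac_F1 (h := h) h1 h2
  obtain ⟨a, ha⟩ := Jac_F2 hc hA
  exact (hc.prodMk ha).differentiableAt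

/-- Proof. With `c = lam' (u.2)`, `a = A' (u.1 + h lam)`: the derivatives of `F.1` are `1, h c`, those of
`F.2` are `h a, 1 + h a h c`; determinant `1 (1 + h² a c) - h c h a = 1`. -/
theorem jac_Fs {ℓ : ℂ} {h : ℝ} {A : ℂ → ℂ} {u : ℂ × ℂ} (h1 : u.2 ∈ slitPlane)
    (h2 : ‖cexp ℓ * u.2‖ < 1) (hA : DifferentiableAt ℂ A (u.1 + h * lam ℓ u.2)) :
    jac (fun v => (Fs ℓ h A v).1) (fun v => (Fs ℓ h A v).2) u = 1 := by
  obtain ⟨c, hc⟩ := Jac_F1 (h := h) h1 h2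
  obtain ⟨a, ha⟩ := Jac_F2 hc hA
  unfold jac
  have e1 : fderiv ℂ (fun v => (Fs ℓ h A v).1) u = _ := hc.fderiv
  have e2 : fderiv ℂ (fun v => (Fs ℓ h A v).2) u = _ := ha.fderiv
  rw [e1, e2]
  simp
  ring

/-- Proof. The derivatives are `-1, 0` and `h A', -1`. -/
theorem jac_rev {h : ℝ} {A : ℂ → ℂ} {u : ℂ × ℂ} (hA : DifferentiableAt ℂ A u.1) :
    jac (fun v => (rev h A v).1) (fun v => (rev h A v).2) u = 1 := by
  have hd := hA.hasDerivAt.comp_hasFDerivAt u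
    (hasFDerivAt_fst (𝕜 := ℂ) (E := ℂ) (F := ℂ) (p := u))
  have e1 : fderiv ℂ (fun v => (rev h A v).1) u = _ :=
    (hasFDerivAt_fst (𝕜 := ℂ) (E := ℂ) (F := ℂ) (p := u)).neg.fderiv
  have e2 : fderiv ℂ (fun v => (rev h A v).2) u = _ :=
    (hasFDerivAt_snd.sub (hd.const_mul (h : ℂ))).neg.fderiv
  unfold jac
  rw [e1, e2]
  simp

/-- Proof. Induction on `j` with `Function.iterate_succ_apply'`, `jac_comp` for `f = (Fs ·).1`,
`g = (Fs ·).2`, `G = Fs^[j]` (differentiable at `u`: chain rule), `jac_Fs`. For `j = 0`: `jac fst snd = 1`. -/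
theorem jac_iter {ℓ xb : ℂ} {ρ h : ℝ} {A : ℂ → ℂ} (hA : DifferentiableOn ℂ A (ball xb ρ))
    {u : ℂ × ℂ} {j : ℕ} (h1 : ∀ i < j, ((Fs ℓ h A)^[i] u).2 ∈ slitPlane ∧
      ‖cexp ℓ * ((Fs ℓ h A)^[i] u).2‖ < 1 ∧ ((Fs ℓ h A)^[i + 1] u).1 ∈ ball xb ρ) :
    jac (fun v => ((Fs ℓ h A)^[j] v).1) (fun v => ((Fs ℓ h A)^[j] v).2) u = 1 := by
  have hAt : ∀ i < j, DifferentiableAt ℂ A
      (((Fs ℓ h A)^[i] u).1 + h * lam ℓ ((Fs ℓ h A)^[i] u).2) := by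
    intro i hi
    have h2 := (h1 i hi).2.2
    rw [Function.iterate_succ_apply'] at h2
    exact (hA _ h2).differentiableAt (isOpen_ball.mem_nhds h2)
  have key : ∀ i ≤ j, DifferentiableAt ℂ ((Fs ℓ h A)^[i]) u ∧
      jac (fun v => ((Fs ℓ h A)^[i] v).1) (fun v => ((Fs ℓ h A)^[i] v).2) u = 1 := by
    intro i
    induction i with
    | zero =>
      intro _
      refine ⟨differentiableAt_id, ?_⟩
      unfold jac
      have e1 : fderiv ℂ (fun v : ℂ × ℂ => ((Fs ℓ h A)^[0] v).1) u = _ := fderiv_fst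
      have e2 : fderiv ℂ (fun v : ℂ × ℂ => ((Fs ℓ h A)^[0] v).2) u = _ := fderiv_snd
      rw [e1, e2]
      simp
    | succ i ih =>
      intro hi
      obtain ⟨d, e⟩ := ih (by omega)
      obtain ⟨a1, a2, -⟩ := h1 i (by omega)
      have a3 := hAt i (by omega)
      have hF := Jac_diff a1 a2 a3
      have es : (Fs ℓ h A)^[i + 1] = fun v => Fs ℓ h A ((Fs ℓ h A)^[i] v) := by
        funext v
        exact Function.iterate_succ_apply' _ _ _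
      refine ⟨?_, ?_⟩
      · rw [es]
        exact hF.comp u d
      · rw [es]
        have hc := jac_comp (f := fun v => (Fs ℓ h A v).1) (g := fun v => (Fs ℓ h A v).2) d
          hF.fst hF.snd
        rw [hc, jac_Fs a1 a2 a3, e, mul_one]
  exact (key j le_rfl).2

end Pool.Agent.MP_ae5b4e_an_AT
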