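import Pool.Agent.Lib.MP_ae5b4e_an_AT.Defs

/-! # AT: chains which pass below the tip -/

noncomputable section

namespace Pool.Agent.MP_ae5b4e_an_AT

open Complex Set Filter Topology Metric

variable {ℓ xb : ℂ} {ρ κ₁ ρ₁ h : ℝ} {A Φ : ℂ → ℂ} {γ₀ θb : ℂ} {t r y₁ : ℝ}
  {S Γ Γr : ℂ × ℂ → ℂ} {sb : ℂ} {X Z B : ℂ → ℂ}

/-- the values of `z` near `s` -/
private theorem LowA_near {s z : ℂ} (hh : 0 < h) (h0 : 100 * h < κ₁) (h1 : |s.re| ≤ h / 2)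
    (h2 : s.im = -(κ₁ / 4)) (hz : ‖z - s‖ ≤ ‖s‖ / 16) :
    |z.re| ≤ 22 / 1000 * κ₁ ∧ z.im ≤ - (233 / 1000) * κ₁ ∧ ‖z‖ ≤ κ₁ := by
  have hκ : 0 < κ₁ := by linarith
  have hs : ‖s‖ ≤ 255 / 1000 * κ₁ := by
    refine (Complex.norm_le_abs_re_add_abs_im s).trans ?_
    rw [h2, abs_neg, abs_of_pos (by linarith : 0 < κ₁ / 4)]
    linarith
  have h3 := (Complex.abs_re_le_norm (z - s)).trans hz
  have h4 := (Complex.abs_im_le_norm (z - s)).trans hz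
  rw [Complex.sub_re] at h3
  rw [Complex.sub_im, h2] at h4
  have h5 := abs_le.1 h3
  have h6 := abs_le.1 h4
  have h7 := abs_le.1 h1
  refine ⟨abs_le.2 ⟨by linarith, by linarith⟩, by linarith, ?_⟩
  calc ‖z‖ = ‖s + (z - s)‖ := by rw [add_sub_cancel]
    _ ≤ ‖s‖ + ‖z - s‖ := norm_add_le _ _
    _ ≤ κ₁ := by linarith

/-- Backward values of `z`. Proof. `‖z - s‖ ≤ ‖s‖/16`, `‖s‖ ≤ h/2 + κ₁/4 ≤ 0.26 κ₁` (`100 h < κ₁`), so
`Im z ≤ -κ₁/4 + 0.017 κ₁ ≤ -0.23 κ₁`, `|Re z| ≤ h/2 + 0.017 κ₁ ≤ 0.03 κ₁`. `z' = z - b + w`, `0 ≤ b`,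
`‖w‖ ≤ b / 64 + h/16`. If `b ≤ κ₁`: `Im z' ≤ (-0.23 + 1/64 + 1/1600) κ₁ < -κ₁/8`. If `b > κ₁`:
`Re z' ≤ 0.03 κ₁ - b + b/64 + κ₁/1600 ≤ -0.9 b`, `Im z' ≤ b / 64 - 0.2 κ₁ < |Re z'| / 4`. Norm
`≤ ‖z‖ + (65/64) b + h ≤ κ₁ + (65/64) t + h < 2 t`. -/
theorem low_back {s z z' : ℂ} {b : ℝ} (hh : 0 < h) (h0 : 100 * h < κ₁) (hκ : κ₁ ≤ t / 32)
    (h1 : |s.re| ≤ h / 2) (h2 : s.im = -(κ₁ / 4)) (hz : ‖z - s‖ ≤ ‖s‖ / 16) (hb : 0 ≤ b)
    (hbt : b ≤ t + h) (hz' : ‖z' - (z - b)‖ ≤ b / 64 + h / 16) :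
    z' ∈ Low (κ₁ / 8) t ∧ (z'.re < 0 ∨ z'.im < 0) := by
  obtain ⟨hz1, hz2, hz3⟩ := LowA_near hh h0 h1 h2 hz
  have h3 := (Complex.abs_re_le_norm (z' - (z - b))).trans hz'
  have h4 := (Complex.abs_im_le_norm (z' - (z - b))).trans hz'
  rw [Complex.sub_re, Complex.sub_re, Complex.ofReal_re] at h3
  rw [Complex.sub_im, Complex.sub_im, Complex.ofReal_im, sub_zero] at h4
  have h5 := abs_le.1 h3
  have h6 := abs_le.1 h4
  have h7 := abs_le.1 hz1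
  have hn : ‖z'‖ < 2 * t := by
    calc ‖z'‖ = ‖z - b + (z' - (z - b))‖ := by rw [add_sub_cancel]
      _ ≤ ‖z - b‖ + ‖z' - (z - b)‖ := norm_add_le _ _
      _ ≤ ‖z‖ + ‖(b : ℂ)‖ + (b / 64 + h / 16) := add_le_add (norm_sub_le _ _) hz'
      _ = ‖z‖ + b + (b / 64 + h / 16) := by rw [Complex.norm_real, Real.norm_of_nonneg hb]
      _ < 2 * t := by linarith
  rcases le_or_gt b κ₁ with hc | hc
  · have h8 : z'.im < - (κ₁ / 8) := by linarith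
    have h9 : z'.im < 0 := by linarith
    refine ⟨⟨h9.trans_le (by positivity), ?_, hn⟩, Or.inr h9⟩
    have h10 := Complex.abs_im_le_norm z'
    rw [abs_of_neg h9] at h10
    linarith
  · have h8 : z'.re < - (9 / 10) * b := by linarith
    have h9 : z'.re < 0 := by linarith
    have h10 := Complex.abs_re_le_norm z'
    rw [abs_of_neg h9] at h10
    refine ⟨⟨?_, by linarith, hn⟩, Or.inl h9⟩
    rw [abs_of_neg h9]
    linarith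

/-- Forward values. Proof. The same with `+ b` (mirror image). -/
theorem low_forw {s z z' : ℂ} {b : ℝ} (hh : 0 < h) (h0 : 100 * h < κ₁) (hκ : κ₁ ≤ t / 32)
    (h1 : |s.re| ≤ h / 2) (h2 : s.im = -(κ₁ / 4)) (hz : ‖z - s‖ ≤ ‖s‖ / 16) (hb : 0 ≤ b)
    (hbt : b ≤ t + h) (hz' : ‖z' - (z + b)‖ ≤ b / 64 + h / 16) :
    z' ∈ Low (κ₁ / 8) t ∧ (0 < z'.re ∨ z'.im < 0) := by
  obtain ⟨hz1, hz2, hz3⟩ := LowA_near hh h0 h1 h2 hz
  have h3 := (Complex.abs_re_le_norm (z' - (z + b))).trans hz'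
  have h4 := (Complex.abs_im_le_norm (z' - (z + b))).trans hz'
  rw [Complex.sub_re, Complex.add_re, Complex.ofReal_re] at h3
  rw [Complex.sub_im, Complex.add_im, Complex.ofReal_im, add_zero] at h4
  have h5 := abs_le.1 h3
  have h6 := abs_le.1 h4
  have h7 := abs_le.1 hz1
  have hn : ‖z'‖ < 2 * t := by
    calc ‖z'‖ = ‖z + b + (z' - (z + b))‖ := by rw [add_sub_cancel]
      _ ≤ ‖z + b‖ + ‖z' - (z + b)‖ := norm_add_le _ _
      _ ≤ ‖z‖ + ‖(b : ℂ)‖ + (b / 64 + h / 16) := add_le_add (norm_add_le _ _) hz'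
      _ = ‖z‖ + b + (b / 64 + h / 16) := by rw [Complex.norm_real, Real.norm_of_nonneg hb]
      _ < 2 * t := by linarith
  rcases le_or_gt b κ₁ with hc | hc
  · have h8 : z'.im < - (κ₁ / 8) := by linarith
    have h9 : z'.im < 0 := by linarith
    refine ⟨⟨h9.trans_le (by positivity), ?_, hn⟩, Or.inr h9⟩
    have h10 := Complex.abs_im_le_norm z'
    rw [abs_of_neg h9] at h10
    linarith
  · have h8 : 9 / 10 * b < z'.re := by linarith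
    have h9 : 0 < z'.re := by linarith
    have h10 := Complex.abs_re_le_norm z'
    rw [abs_of_pos h9] at h10
    refine ⟨⟨?_, by linarith, hn⟩, Or.inl h9⟩
    rw [abs_of_pos h9]
    linarith

end Pool.Agent.MP_ae5b4e_an_AT
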