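import Pool.Agent.Lib.MP_ae5b4e_an_AT.Geom
import Pool.Agent.Lib.MP_ae5b4e_an_AT.Elem

/-! # AT: the reversed chain -/

noncomputable section

namespace Pool.Agent.MP_ae5b4e_an_AT

open Complex Set Filter Topology Metric

variable {ℓ xb : ℂ} {ρ : ℝ} {A₀ Φ A : ℂ → ℂ}

theorem exp_sub_pi (ℓ : ℂ) : cexp (ℓ - Real.pi * I) = -cexp ℓ := by
  rw [Complex.exp_sub, Complex.exp_pi_mul_I, div_neg, div_one]

private theorem mem_ball_rev {xb x : ℂ} {ρ : ℝ} (hx : x ∈ ball (-xb) ρ) : -x ∈ ball xb ρ := by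
  rw [mem_ball_iff_norm] at hx ⊢
  rwa [show -x - xb = -(x - -xb) by ring, norm_neg]

/-- Proof. `exp (ℓ - π i) = - exp ℓ`; chain rule for `x ↦ - x`, which maps `ball (-xb) ρ` onto
`ball xb ρ`. -/
theorem Side.rev (hS : Side ℓ xb ρ A₀ Φ) :
    Side (ℓ - Real.pi * I) (-xb) ρ (fun x => A₀ (-x)) (fun x => Φ (-x)) := by
  refine ⟨hS.ρ_pos, ?_, fun x hx => hS.near _ (mem_ball_rev hx), ?_, fun x hx => ?_⟩
  · show A₀ (- -xb) = 1
    rw [neg_neg, hS.one]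
  · exact hS.an.comp differentiable_neg.differentiableOn fun x hx => mem_ball_rev hx
  · have h1 := (hS.prim (-x) (mem_ball_rev hx)).comp x (hasDerivAt_neg x)
    rw [exp_sub_pi]
    have h2 : -(-cexp ℓ * A₀ (-x)) = -(cexp ℓ * A₀ (-x)) * -1 := by ring
    rw [h2]
    exact h1

theorem Cl.rev {δ : ℝ} (hC : Cl xb ρ A A₀ δ) :
    Cl (-xb) ρ (fun x => A (-x)) (fun x => A₀ (-x)) δ := by
  refine ⟨?_, fun x hx => hC.cl _ (mem_ball_rev hx)⟩
  exact hC.an.comp differentiable_neg.differentiableOn fun x hx => mem_ball_rev hx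

/-- The step of the reversed chain is the inverse of the step on the left side. -/
theorem rev_step (ℓ : ℂ) (h : ℝ) (A : ℂ → ℂ) (u : ℂ × ℂ) :
    Fs (ℓ - Real.pi * I) h (fun x => A (-x)) (rev h A (Wm ℓ h A u)) = rev h A u := by
  ext
  · simp only [Fs, Pool.Agent.MP_ae5b4e_an_AT.rev, Wm]
    ring_nf
  · simp only [Fs, Pool.Agent.MP_ae5b4e_an_AT.rev, Wm]
    ring_nf

/-- the inverse of `rev` -/
def unrev (h : ℝ) (A : ℂ → ℂ) (u : ℂ × ℂ) : ℂ × ℂ := (-u.1, -u.2 + h * A (-u.1))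

theorem rev_unrev (h : ℝ) (A : ℂ → ℂ) (u : ℂ × ℂ) : rev h A (unrev h A u) = u := by
  ext
  · simp [Pool.Agent.MP_ae5b4e_an_AT.rev, unrev]
  · simp [Pool.Agent.MP_ae5b4e_an_AT.rev, unrev]

theorem unrev_rev (h : ℝ) (A : ℂ → ℂ) (u : ℂ × ℂ) : unrev h A (rev h A u) = u := by
  ext
  · simp [Pool.Agent.MP_ae5b4e_an_AT.rev, unrev]
  · simp [Pool.Agent.MP_ae5b4e_an_AT.rev, unrev]

/-- Proof. Unfold; `-(-x) = x`. -/
theorem Wm_unrev (ℓ : ℂ) (h : ℝ) (A : ℂ → ℂ) (w : ℂ × ℂ) :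
    Wm ℓ h A (unrev h A (Fs (ℓ - Real.pi * I) h (fun x => A (-x)) w)) = unrev h A w := by
  have h2 : (unrev h A (Fs (ℓ - Real.pi * I) h (fun x => A (-x)) w)).2 = -w.2 := by
    simp only [Fs, unrev]
    ring
  have h1 : (unrev h A (Fs (ℓ - Real.pi * I) h (fun x => A (-x)) w)).1 =
      -(w.1 + h * lam (ℓ - Real.pi * I) w.2) := rfl
  have h3 : -(w.1 + h * lam (ℓ - Real.pi * I) w.2) + h * lam (ℓ - Real.pi * I) w.2 = -w.1 := by
    ring
  unfold Wm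
  rw [h1, h2, neg_neg, h3]
  rfl

/-- The reversed states of the left domain are in the sector of the reversed chain.

Proof. `A = A u.1`, `‖A - 1‖ ≤ 1 / 64`, `ẑ = h A - u.2`. `Re ẑ ≥ (63/64) h - Re u.2`,
`|Im ẑ| ≥ |Im u.2| - h / 64`, so `Re ẑ + |Im ẑ| ≥ (62/64) h - Re u.2 + |Im u.2| > 0`.
`‖ẑ‖ ≥ ‖h - u.2‖ - h / 64`; for `Re z < |Im z| + 3 h / 4` the distance `‖h - z‖ ≥ (h / 4) / √2 > h / 6`
(`(h - Re z) + |Im z| > h / 4` and `a + b ≤ √2 √(a² + b²)`), and `1/6 - 1/64 > 1/8`.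
`‖ẑ‖ ≤ κ + 65 / 64 h < 2 κ`. -/
theorem rev_mem {κ h ρ₁ : ℝ} (hh : 0 < h) (hκ : 100 * h < κ)
    (hA : ∀ x ∈ ball xb ρ₁, ‖A x - 1‖ ≤ 1 / 64) {u : ℂ × ℂ} (hu : u ∈ DL xb ρ₁ κ h) :
    (rev h A u).2 ∈ Sec 1 (h / 8) (2 * κ) ∧ ‖(rev h A u).1 - -xb‖ < ρ₁ := by
  obtain ⟨hu1, hu2, hu3⟩ := hu
  have hE := hA u.1 (mem_ball_iff_norm.2 hu1)
  set E : ℂ := A u.1 - 1 with hEd
  set z : ℂ := u.2 with hz
  have hAE : A u.1 = 1 + E := by rw [hEd]; ring
  have hr : (Pool.Agent.MP_ae5b4e_an_AT.rev h A u).2 = (h : ℂ) - z + h * E := by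
    show -(u.2 - h * A u.1) = _
    rw [hAE, ← hz]
    ring
  have hEre := (abs_le.1 ((Complex.abs_re_le_norm E).trans hE))
  have hEim := (abs_le.1 ((Complex.abs_im_le_norm E).trans hE))
  refine ⟨?_, ?_⟩
  · rw [hr]
    have hre : ((h : ℂ) - z + h * E).re = h - z.re + h * E.re := by simp
    have him : ((h : ℂ) - z + h * E).im = -z.im + h * E.im := by simp
    refine ⟨?_, ?_, ?_⟩
    · rw [hre, him, one_mul]
      have h1 : |z.im| - |h * E.im| ≤ |-z.im + h * E.im| := by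
        have := abs_sub_abs_le_abs_sub (-z.im) (-(h * E.im))
        rw [abs_neg, abs_neg, sub_neg_eq_add] at this
        exact this
      have h2 : |h * E.im| ≤ h * (1 / 64) := by
        rw [abs_mul, abs_of_pos hh]
        exact mul_le_mul_of_nonneg_left (abs_le.2 hEim) hh.le
      have h3 : h * (-(1 / 64)) ≤ h * E.re := mul_le_mul_of_nonneg_left hEre.1 hh.le
      linarith
    · have h1 : h / 6 < ‖(h : ℂ) - z‖ := by
        have hsq : ‖(h : ℂ) - z‖ ^ 2 = (h - z.re) ^ 2 + |z.im| ^ 2 := by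
          rw [Complex.sq_norm, Complex.normSq_apply, sq_abs]
          simp
          ring
        have h4 : h / 4 < (h - z.re) + |z.im| := by linarith
        have h5 : (h / 4) ^ 2 < ((h - z.re) + |z.im|) ^ 2 := by
          apply pow_lt_pow_left₀ h4 (by positivity) (by norm_num)
        have h6 : (h / 6) ^ 2 < ‖(h : ℂ) - z‖ ^ 2 := by
          rw [hsq]
          nlinarith [sq_nonneg ((h - z.re) - |z.im|)]
        exact lt_of_pow_lt_pow_left₀ 2 (norm_nonneg _) h6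
      have h2 : ‖(h : ℂ) - z‖ - ‖(h : ℂ) * E‖ ≤ ‖(h : ℂ) - z + h * E‖ := by
        have := norm_sub_norm_le ((h : ℂ) - z) (-((h : ℂ) * E))
        rwa [norm_neg, sub_neg_eq_add] at this
      have h3 : ‖(h : ℂ) * E‖ ≤ h * (1 / 64) := by
        rw [norm_mul, Complex.norm_real, Real.norm_of_nonneg hh.le]
        exact mul_le_mul_of_nonneg_left hE hh.le
      linarith
    · have h1 : ‖(h : ℂ) - z + h * E‖ ≤ ‖(h : ℂ)‖ + ‖z‖ + ‖(h : ℂ) * E‖ :=
        (norm_add_le _ _).trans (add_le_add (norm_sub_le _ _) le_rfl)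
      have h3 : ‖(h : ℂ) * E‖ ≤ h * (1 / 64) := by
        rw [norm_mul, Complex.norm_real, Real.norm_of_nonneg hh.le]
        exact mul_le_mul_of_nonneg_left hE hh.le
      rw [Complex.norm_real, Real.norm_of_nonneg hh.le] at h1
      linarith
  · show ‖-u.1 - -xb‖ < ρ₁
    rwa [show -u.1 - -xb = -(u.1 - xb) by ring, norm_neg]

end Pool.Agent.MP_ae5b4e_an_AT
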