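import Pool.Agent.Lib.MP_ae5b4e_an_AT.SlitA
import Pool.Agent.Lib.MP_ae5b4e_an_AT.LowA
import Pool.Agent.Lib.MP_ae5b4e_an_AT.Rev

/-! # AT: identification of the kick below the tip -/

noncomputable section

namespace Pool.Agent.MP_ae5b4e_an_AT

open Complex Set Filter Topology Metric

variable {ℓ xb : ℂ} {ρ κ₁ ρ₁ h : ℝ} {A Φ : ℂ → ℂ} {γ₀ θb : ℂ} {t r y₁ : ℝ}
  {S Γ Γr : ℂ × ℂ → ℂ} {sb : ℂ} {X Z B : ℂ → ℂ}

private theorem LowId_per {B : ℂ → ℂ} {h : ℝ} (hB : ∀ s, B (s + h) = B s) (x : ℂ) (j : ℕ) :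
    B (x - j * h) = B x := by
  induction j with
  | zero => simp
  | succ j ih =>
    rw [← ih, ← hB (x - ((j + 1 : ℕ) : ℂ) * h)]
    congr 1
    push_cast
    ring

/-- the backward values -/
private theorem LowId_zz (ℓ : ℂ) (h : ℝ) (A : ℂ → ℂ) (w : ℂ × ℂ) :
    (unrev h A (Fs ℓ h (fun x => A (-x)) w)).2 = -w.2 := by
  simp only [unrev, Fs]
  ring

/-- IDENTIFICATION. Proof. `u₀ := (X s, Z s) ∈ DL` (`Cur`, `QQ`), `ℓ' = ℓ - π i`, `A' = A (-·)`,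
`F' = Fs ℓ' h A'`, `F = Fs ℓ h A`, `u₁ := Wm u₀ ∈ DR` (`slit_lam`, `slit_mem`). The chain
`v k := unrev h A (F'^[j - k] (rev h A u₀))` for `k ≤ j`, `v (j + 1 + i) := F^[i] u₁`; `m = 2 j + 1`.
(a) `‖(v k).1 - xb‖ < ρ/2`: `Pas.x_near` (`≤ ρ/4`) and `‖(rev u₀).1 + xb‖ < ρ₁ ≤ ρ/8`, `‖u₁.1 - xb‖ < ρ₁`.
(b) `(v k).2 ∈ Low (κ₁/8) t`: for `k = j` it is `Z s`; for `k < j`, `i := j - k ≥ 1`, `w := F'^[i-1] (rev u₀)`,
`v (k+1) = unrev w`, `v k = unrev (F' w)`, and `(v k).2 = -(F' w).2 + h A (-(F' w).1)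
= - w.2 - h A'((F' w).1) + h A (-(F' w).1) = - w.2`, with `‖w.2 - ((rev u₀).2 + (i-1) h)‖ ≤ (i-1) h / 64` and
`(rev u₀).2 = - (Z s - h A (X s))`: so `‖(v k).2 - (Z s - i h)‖ ≤ (i - 1) h/64 + h/64`: `low_back` with
`b = i h ≤ t`. For `k = j + 1 + i`: `‖(v k).2 - (u₁.2 + i h)‖ ≤ i h/64`, `u₁.2 = Z s + h A (..)`: `low_forw` with
`b = (i + 1) h ≤ t + h`.
(c) `v (k+1) = Fl (v k)`: for `k < j` by `Wm_unrev` `Wm (v k) = v (k+1)` and `Fl = Wm` at `v k`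
(`laml_eq_left`); for `k = j`: `v (j+1) = Wm u₀ = Fl u₀`; for `k > j`: `Fl = Fs` at `v k` (`laml_eq_lam`).
(d) `rev (v 0) = F'^[j] (rev u₀) ∈ NN'` (`rev_unrev`, `Lnk.left_mem`); `v m = F^[j] u₁ ∈ NN`
(`Lnk.right_mem`); `Γ (rev (v 0)) = L u₀ = γ₀` (`Cur.L_eq`).
`Kick.pass`: with `S (rev (v 0)) = T u₀ - j h = sb + s - j h`: the imaginary part is the one of `sb + s`, and
`B (sb + s - j h) = B (sb + s)` by periodicity (induction). -/
theorem low_id {j : ℕ} (hT : TipN ℓ xb ρ₁ κ₁ h A γ₀ θb t (Lf ℓ h A j Γ)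
      (fun u => Lf ℓ h A j S u + j * h) (Rf ℓ h A j Γr))
    (hL : Lnk ℓ xb ρ Φ t r h A ρ₁ κ₁ j) (hρ : ρ₁ ≤ ρ / 8) (hκ : κ₁ ≤ t / 32)
    (hC : Cur ℓ xb ρ₁ κ₁ h A γ₀ (Lf ℓ h A j Γ) (fun u => Lf ℓ h A j S u + j * h) sb X Z)
    (hK : Kick ℓ xb ρ Φ t r h A γ₀ (κ₁ / 8) y₁ S Γ Γr B) {s : ℂ} (h1 : |s.re| ≤ h / 2)
    (h2 : s.im = -(κ₁ / 4)) :
    (sb + s).im ≤ y₁ ∧ B (sb + s) = Rf ℓ h A j Γr (Wm ℓ h A (X s, Z s)) - γ₀ := by
  have hh := hT.h_pos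
  have hρ0 := hT.ρ_pos
  have hκh := hT.h_lt
  have hκ1 := hT.κ_le
  have hκ0 : 0 < κ₁ := by linarith
  have hjle := hL.j_le
  have hj0 : (0:ℝ) ≤ j := Nat.cast_nonneg j
  have hs : s ∈ QQ κ₁ h := by
    refine ⟨by linarith, ?_⟩
    rw [h2, abs_neg, abs_of_pos (by linarith)]
    linarith
  have hsn : ‖s‖ ≤ h / 2 + κ₁ / 4 := by
    refine (Complex.norm_le_abs_re_add_abs_im s).trans ?_
    rw [h2, abs_neg, abs_of_pos (by linarith : 0 < κ₁ / 4)]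
    linarith
  have hsn' : κ₁ / 4 ≤ ‖s‖ := by
    have := Complex.abs_im_le_norm s
    rwa [h2, abs_neg, abs_of_pos (by linarith : 0 < κ₁ / 4)] at this
  have hX := hC.X_mem s hs
  have hZ := hC.Z_near s hs
  have hZn : ‖Z s‖ ≤ ‖s‖ + ‖s‖ / 16 := by
    calc ‖Z s‖ = ‖s + (Z s - s)‖ := by rw [add_sub_cancel]
      _ ≤ ‖s‖ + ‖Z s - s‖ := norm_add_le _ _
      _ ≤ _ := by linarith
  have hZn' : ‖s‖ - ‖s‖ / 16 ≤ ‖Z s‖ := by
    have : ‖s‖ ≤ ‖Z s‖ + ‖Z s - s‖ := by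
      calc ‖s‖ = ‖Z s - (Z s - s)‖ := by rw [sub_sub_cancel]
        _ ≤ _ := norm_sub_le _ _
    linarith
  have hZre := (abs_le.1 ((Complex.abs_re_le_norm (Z s - s)).trans hZ)).2
  have hZim := (abs_le.1 ((Complex.abs_im_le_norm (Z s - s)).trans hZ)).2
  rw [Complex.sub_re] at hZre
  rw [Complex.sub_im, h2] at hZim
  have hu₀ : (X s, Z s) ∈ DL xb ρ₁ κ₁ h := by
    refine ⟨?_, ?_, ?_⟩
    · show ‖X s - xb‖ < ρ₁
      linarith
    · show ‖Z s‖ < κ₁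
      linarith
    · show (Z s).re < |(Z s).im| + 3 / 4 * h
      have h3 := (abs_le.1 h1).2
      have h4 := neg_abs_le (Z s).im
      linarith
  have hAX : ‖A (X s) - 1‖ ≤ 1 / 64 := by
    refine hT.A_near _ ?_
    rw [mem_ball, dist_eq_norm]
    linarith
  have hlam : ‖h * lam (ℓ - Real.pi * I) (-Z s)‖ ≤ ρ₁ / 16 := by
    refine (slit_lam hT ?_ ?_).2
    · have hh1 : h ≤ 1 := by linarith
      have hh3 : h ^ 3 ≤ h := by
        calc h ^ 3 = h * h ^ 2 := by ring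
          _ ≤ h * 1 := mul_le_mul_of_nonneg_left (pow_le_one₀ hh.le hh1) hh.le
          _ = h := mul_one h
      linarith
    · linarith
  set u₁ : ℂ × ℂ := Wm ℓ h A (X s, Z s) with hu₁
  have hu₁1 : u₁.1 = X s + h * lam (ℓ - Real.pi * I) (-Z s) := rfl
  have hu₁2 : u₁.2 = Z s + h * A u₁.1 := rfl
  have hu₁x : ‖u₁.1 - xb‖ < ρ₁ := by
    rw [hu₁1]
    have e : X s + h * lam (ℓ - Real.pi * I) (-Z s) - xb =
        (X s - xb) + h * lam (ℓ - Real.pi * I) (-Z s) := by ring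
    rw [e]
    refine (norm_add_le _ _).trans_lt ?_
    linarith
  have hA1 : ‖A u₁.1 - 1‖ ≤ 1 / 64 := by
    refine hT.A_near _ ?_
    rw [mem_ball, dist_eq_norm]
    exact hu₁x
  have hu₁DR : u₁ ∈ DR xb ρ₁ κ₁ h := by
    refine ⟨hu₁x, ?_⟩
    rw [hu₁2]
    have h3 := abs_le.1 h1
    refine slit_mem hh hκh (s := s) (by linarith [h3.1]) (by linarith [h3.2]) ?_ hZ hA1
    rw [h2, abs_neg, abs_of_pos (by linarith : 0 < κ₁ / 4)]
    linarith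
  set w₀ : ℂ × ℂ := rev h A (X s, Z s) with hw₀
  have hw₀1 : w₀.1 = -X s := rfl
  have hw₀2 : w₀.2 = -(Z s - h * A (X s)) := rfl
  set F' : ℂ × ℂ → ℂ × ℂ := Fs (ℓ - Real.pi * I) h fun x => A (-x) with hF'
  have hleft : ∀ i ≤ j, Pas (ℓ - Real.pi * I) (ρ / 4) (1 / 64) h (fun x => A (-x)) w₀ i :=
    fun i hi => hL.left _ hu₀ i hi
  have hright : ∀ i ≤ j, Pas ℓ (ρ / 4) (1 / 64) h A u₁ i := fun i hi => hL.right _ hu₁DR i hi
  obtain ⟨v, hv⟩ : ∃ v : ℕ → ℂ × ℂ, v = fun k => if k ≤ j then unrev h A (F'^[j - k] w₀) else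
    (Fs ℓ h A)^[k - (j + 1)] u₁ := ⟨_, rfl⟩
  have hvl : ∀ k, k ≤ j → v k = unrev h A (F'^[j - k] w₀) := fun k hk => by
    rw [hv]
    exact if_pos hk
  have hvr : ∀ k, j < k → v k = (Fs ℓ h A)^[k - (j + 1)] u₁ := fun k hk => by
    rw [hv]
    exact if_neg (not_le.2 hk)
  have hnh : ∀ i : ℕ, i ≤ j → (i:ℝ) * h ≤ t := fun i hi => by
    have : (i:ℝ) ≤ j := by exact_mod_cast hi
    nlinarith
  have hxl : ∀ k, k ≤ j → ‖(v k).1 - xb‖ < ρ / 2 := by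
    intro k hk
    rw [hvl k hk]
    have h3 := (hleft (j - k) (Nat.sub_le _ _)).x_near
    have e : (unrev h A (F'^[j - k] w₀)).1 - xb = (X s - xb) - ((F'^[j - k] w₀).1 - w₀.1) := by
      rw [hw₀1]
      simp only [unrev]
      ring
    rw [e]
    refine (norm_sub_le _ _).trans_lt ?_
    linarith
  have hxr : ∀ k, j < k → k ≤ 2 * j + 1 → ‖(v k).1 - xb‖ < ρ / 2 := by
    intro k hk hk'
    rw [hvr k hk]
    have h3 := (hright (k - (j + 1)) (by omega)).x_near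
    have e : ((Fs ℓ h A)^[k - (j + 1)] u₁).1 - xb =
        (u₁.1 - xb) + (((Fs ℓ h A)^[k - (j + 1)] u₁).1 - u₁.1) := by ring
    rw [e]
    refine (norm_add_le _ _).trans_lt ?_
    linarith
  have hzl : ∀ k, k ≤ j → (v k).2 ∈ Low (κ₁ / 8) t ∧ ((v k).2.re < 0 ∨ (v k).2.im < 0) := by
    intro k hk
    obtain ⟨i, hi⟩ : ∃ i, i = j - k := ⟨_, rfl⟩
    have hij : i ≤ j := by omega
    rw [hvl k hk, ← hi]
    refine low_back (s := s) (z := Z s) (b := i * h) hh hκh hκ h1 h2 hZ (by positivity)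
      (by linarith [hnh i hij]) ?_
    rcases Nat.eq_zero_or_pos i with h0 | h0
    · rw [h0]
      have e : (unrev h A (F'^[0] w₀)).2 - (Z s - (((0:ℕ):ℝ) * h : ℝ)) = 0 := by
        rw [Function.iterate_zero, id, hw₀, unrev_rev]
        push_cast
        ring
      rw [e, norm_zero]
      push_cast
      linarith
    · obtain ⟨i', hi'⟩ : ∃ i', i = i' + 1 := ⟨i - 1, by omega⟩
      rw [hi', Function.iterate_succ_apply', hF', LowId_zz, ← hF']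
      have h3 := (hleft i' (by omega)).z_near
      rw [← hF', hw₀2] at h3
      have e : -(F'^[i'] w₀).2 - (Z s - (((i' + 1 : ℕ):ℝ) * h : ℝ)) =
          -((F'^[i'] w₀).2 - (-(Z s - h * A (X s)) + i' * h)) - h * (A (X s) - 1) := by
        push_cast
        ring
      rw [e]
      refine (norm_sub_le _ _).trans ?_
      rw [norm_neg, norm_mul, Complex.norm_real, Real.norm_of_nonneg hh.le]
      have h4 : h * ‖A (X s) - 1‖ ≤ h * (1 / 64) := mul_le_mul_of_nonneg_left hAX hh.le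
      push_cast
      linarith
  have hzr : ∀ k, j < k → k ≤ 2 * j + 1 →
      (v k).2 ∈ Low (κ₁ / 8) t ∧ (0 < (v k).2.re ∨ (v k).2.im < 0) := by
    intro k hk hk'
    obtain ⟨i, hi⟩ : ∃ i, i = k - (j + 1) := ⟨_, rfl⟩
    have hij : i ≤ j := by omega
    rw [hvr k hk, ← hi]
    refine low_forw (s := s) (z := Z s) (b := (i + 1) * h) hh hκh hκ h1 h2 hZ (by positivity)
      (by linarith [hnh i hij]) ?_
    have h3 := (hright i hij).z_near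
    have e : ((Fs ℓ h A)^[i] u₁).2 - (Z s + (((i:ℝ) + 1) * h : ℝ)) =
        (((Fs ℓ h A)^[i] u₁).2 - (u₁.2 + i * h)) + h * (A u₁.1 - 1) := by
      rw [hu₁2]
      push_cast
      ring
    rw [e]
    refine (norm_add_le _ _).trans ?_
    rw [norm_mul, Complex.norm_real, Real.norm_of_nonneg hh.le]
    have h4 : h * ‖A u₁.1 - 1‖ ≤ h * (1 / 64) := mul_le_mul_of_nonneg_left hA1 hh.le
    linarith
  have hFlW : ∀ u : ℂ × ℂ, (u.2.re < 0 ∨ u.2.im < 0) → Fl ℓ h A u = Wm ℓ h A u := by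
    intro u hu
    unfold Fl Wm
    rw [laml_eq_left hu]
  have hFlF : ∀ u : ℂ × ℂ, (0 < u.2.re ∨ u.2.im < 0) → Fl ℓ h A u = Fs ℓ h A u := by
    intro u hu
    unfold Fl Fs
    rw [laml_eq_lam hu]
  have hstep : ∀ k < 2 * j + 1, v (k + 1) = Fl ℓ h A (v k) := by
    intro k hk
    rcases lt_trichotomy k j with h3 | h3 | h3
    · rw [hFlW _ (hzl k h3.le).2, hvl k h3.le, hvl (k + 1) h3]
      have e : j - k = (j - (k + 1)) + 1 := by omega
      rw [e, Function.iterate_succ_apply', hF']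
      exact (Wm_unrev ℓ h A _).symm
    · rw [hFlW _ (hzl k h3.le).2, hvl k h3.le, hvr (k + 1) (by omega), h3, Nat.sub_self,
        Nat.sub_self, Function.iterate_zero, Function.iterate_zero, id, id, hw₀, unrev_rev]
    · rw [hFlF _ (hzr k h3 (by omega)).2, hvr k h3, hvr (k + 1) (by omega)]
      have e : k + 1 - (j + 1) = (k - (j + 1)) + 1 := by omega
      rw [e, Function.iterate_succ_apply']
  have hv0 : rev h A (v 0) = F'^[j] w₀ := by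
    rw [hvl 0 (Nat.zero_le _), rev_unrev, Nat.sub_zero]
  have hvm : v (2 * j + 1) = (Fs ℓ h A)^[j] u₁ := by
    rw [hvr _ (by omega)]
    congr 1
    omega
  have hS : S (F'^[j] w₀) = sb + s - j * h := by
    have h3 := hC.T_eq s hs
    have h4 : S (F'^[j] w₀) + j * h = sb + s := h3
    rw [← h4]
    ring
  have hfin := hK.pass (2 * j + 1) v (fun k hk => ?_) hstep ?_ ?_ ?_
  · rw [hv0, hvm, hS, LowId_per hK.per] at hfin
    have him : (sb + s - j * h : ℂ).im = (sb + s).im := by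
      rw [Complex.sub_im]
      have : ((j : ℂ) * (h : ℂ)).im = 0 := by
        rw [← Complex.ofReal_natCast, ← Complex.ofReal_mul, Complex.ofReal_im]
      rw [this, sub_zero]
    rw [him] at hfin
    exact hfin
  · rcases le_or_gt k j with h3 | h3
    · exact ⟨hxl k h3, (hzl k h3).1⟩
    · exact ⟨hxr k h3 hk, (hzr k h3 hk).1⟩
  · rw [hv0]
    exact hL.left_mem _ hu₀
  · rw [hvm]
    exact hL.right_mem _ hu₁DR
  · rw [hv0]
    exact hC.L_eq s hs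

end Pool.Agent.MP_ae5b4e_an_AT
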