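import Pool.Agent.Lib.MP_ae5b4e_an_AT.Defs

/-! # AT: Cauchy estimates, sectors -/

noncomputable section

namespace Pool.Agent.MP_ae5b4e_an_AT

open Complex Set Filter Topology Metric

/-- Cauchy estimate, one variable. Proof. `norm_deriv_le_of_forall_mem_sphere_norm_le` on the
circles of
radius `s < r`, `s → r` (or `s = r / 2` gives the constant `2`). -/
theorem cauchy_ball {f : ℂ → ℂ} {c : ℂ} {r M : ℝ} (hr : 0 < r)
    (hf : DifferentiableOn ℂ f (ball c r)) (hM : ∀ x ∈ ball c r, ‖f x‖ ≤ M) :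
    ‖deriv f c‖ ≤ 2 * M / r := by
  have h1 : closedBall c (r / 2) ⊆ ball c r := closedBall_subset_ball (by linarith)
  have h2 : DiffContOnCl ℂ f (ball c (r / 2)) :=
    (hf.mono (closure_ball_subset_closedBall.trans h1)).diffContOnCl
  have h3 := norm_deriv_le_of_forall_mem_sphere_norm_le (half_pos hr) h2
    (fun z hz => hM z (h1 (sphere_subset_closedBall hz)))
  refine h3.trans (le_of_eq ?_)
  field_simp

/-- Proof. Let `g = f - exp (- Φ ·)`; `‖deriv g x‖ ≤ 2 ε₁ / ρ₁` by `cauchy_ball` on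
`ball x ρ₁ ⊆ ball xb (2 ρ₁)`, and the derivative of `exp (- Φ ·)` is `e^ℓ A₀ x exp (- Φ x)`
(`Side.prim`).
Mean value inequality on the convex `ball xb ρ₁` for `f - a ·`. -/
theorem der_near {ℓ xb : ℂ} {ρ : ℝ} {A₀ Φ : ℂ → ℂ} (hS : Side ℓ xb ρ A₀ Φ) {ρ₁ ε₁ η : ℝ} {a : ℂ}
    {f : ℂ → ℂ} (hρ : 0 < ρ₁) (h2 : 2 * ρ₁ ≤ ρ) (hf : DifferentiableOn ℂ f (ball xb (2 * ρ₁)))
    (hε : ∀ x ∈ ball xb (2 * ρ₁), ‖f x - cexp (-Φ x)‖ ≤ ε₁)
    (hη : ∀ x ∈ ball xb ρ₁, ‖cexp ℓ * A₀ x * cexp (-Φ x) - a‖ ≤ η) :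
    (∀ x ∈ ball xb ρ₁, ‖deriv f x - a‖ ≤ 2 * ε₁ / ρ₁ + η) ∧
      ∀ x ∈ ball xb ρ₁, ∀ x' ∈ ball xb ρ₁,
        ‖f x - f x' - a * (x - x')‖ ≤ (2 * ε₁ / ρ₁ + η) * ‖x - x'‖ := by
  have hfd : ∀ x ∈ ball xb (2 * ρ₁), DifferentiableAt ℂ f x := fun x hx =>
    (hf x hx).differentiableAt (isOpen_ball.mem_nhds hx)
  have hsub1 : ball xb ρ₁ ⊆ ball xb (2 * ρ₁) := ball_subset_ball (by linarith)
  have hE : ∀ x ∈ ball xb (2 * ρ₁),
      HasDerivAt (fun x => cexp (-Φ x)) (cexp ℓ * A₀ x * cexp (-Φ x)) x := by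
    intro x hx
    have h1 := (hS.prim x (ball_subset_ball h2 hx)).neg.cexp
    refine h1.congr_deriv ?_
    rw [Pi.neg_apply]
    ring
  have hder : ∀ x ∈ ball xb ρ₁, ‖deriv f x - cexp ℓ * A₀ x * cexp (-Φ x)‖ ≤ 2 * ε₁ / ρ₁ := by
    intro x hx
    have hsub : ball x ρ₁ ⊆ ball xb (2 * ρ₁) := by
      intro y hy
      rw [mem_ball] at hx hy ⊢
      linarith [dist_triangle y x xb]
    have h1 : DifferentiableOn ℂ (fun x => f x - cexp (-Φ x)) (ball x ρ₁) := fun y hy =>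
      ((hfd y (hsub hy)).sub (hE y (hsub hy)).differentiableAt).differentiableWithinAt
    have h3 := cauchy_ball hρ h1 fun y hy => hε y (hsub hy)
    have h4 : deriv (fun x => f x - cexp (-Φ x)) x =
        deriv f x - cexp ℓ * A₀ x * cexp (-Φ x) :=
      ((hfd x (hsub1 hx)).hasDerivAt.sub (hE x (hsub1 hx))).deriv
    rwa [h4] at h3
  have hder2 : ∀ x ∈ ball xb ρ₁, ‖deriv f x - a‖ ≤ 2 * ε₁ / ρ₁ + η := by
    intro x hx
    have h1 : deriv f x - a = (deriv f x - cexp ℓ * A₀ x * cexp (-Φ x)) +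
        (cexp ℓ * A₀ x * cexp (-Φ x) - a) := by ring
    rw [h1]
    exact (norm_add_le _ _).trans (add_le_add (hder x hx) (hη x hx))
  refine ⟨hder2, fun x hx x' hx' => ?_⟩
  have hk : ∀ y ∈ ball xb ρ₁, HasDerivAt (fun y => f y - a * y) (deriv f y - a) y := by
    intro y hy
    have h1 := (hfd y (hsub1 hy)).hasDerivAt.sub ((hasDerivAt_id y).const_mul a)
    refine h1.congr_deriv ?_
    rw [mul_one]
  have h3 := (convex_ball xb ρ₁).norm_image_sub_le_of_norm_hasDerivWithin_le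
    (f := fun y => f y - a * y) (f' := fun y => deriv f y - a) (C := 2 * ε₁ / ρ₁ + η)
    (fun y hy => (hk y hy).hasDerivWithinAt) (fun y hy => hder2 y hy) hx' hx
  have h4 : f x - f x' - a * (x - x') = f x - a * x - (f x' - a * x') := by ring
  rw [h4]
  exact h3

/-- Proof. `Re w' + |Im w'| ≥ Re w + |Im w| - h / 16`. If `Re w ≥ 0` then
`Re w + |Im w| ≥ ‖w‖ > h / 4`; if `Re w < 0` then `|Re w| < |Im w| / 2`, so `‖w‖ ≤ (√5/2) |Im w|`,
`|Im w| > h / 5`, and `Re w + |Im w| ≥ |Im w| / 2 > h / 10 > h / 16`. `‖w'‖ > h/4 - h/32 > h/8`,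
`‖w'‖ < κ + h/32 ≤ 2 κ`. -/
theorem sec_shift {h κ : ℝ} {w w' : ℂ} (hh : 0 < h) (hκ : h ≤ κ) (hw : w ∈ Sec (1 / 2) (h / 4) κ)
    (hd : ‖w' - w‖ ≤ h / 32) : w' ∈ Sec 1 (h / 8) (2 * κ) := by
  obtain ⟨h1, h2, h3⟩ := hw
  have hre : |w'.re - w.re| ≤ h / 32 := by
    rw [← sub_re]
    exact (abs_re_le_norm _).trans hd
  have him : |w'.im - w.im| ≤ h / 32 := by
    rw [← sub_im]
    exact (abs_im_le_norm _).trans hd
  have hre' : w.re - h / 32 ≤ w'.re := by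
    have := abs_le.1 hre
    linarith
  have him' : |w.im| - h / 32 ≤ |w'.im| := by
    have h4 := abs_sub_abs_le_abs_sub w.im w'.im
    rw [abs_sub_comm] at h4
    linarith
  have hn := norm_le_abs_re_add_abs_im w
  have him0 := abs_nonneg w.im
  have hkey : h / 16 < w.re + |w.im| := by
    rcases le_or_gt 0 w.re with h4 | h4
    · rw [abs_of_nonneg h4] at hn
      linarith
    · rw [abs_of_neg h4] at hn
      linarith
  have hn1 : ‖w‖ ≤ ‖w'‖ + ‖w' - w‖ := by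
    have := norm_sub_le w' (w' - w)
    rwa [sub_sub_cancel] at this
  have hn2 : ‖w'‖ ≤ ‖w‖ + ‖w' - w‖ := by
    have := norm_add_le w (w' - w)
    rwa [add_sub_cancel] at this
  refine ⟨?_, ?_, ?_⟩
  · rw [one_mul]
    linarith
  · linarith
  · linarith

end Pool.Agent.MP_ae5b4e_an_AT
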