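import Pool.Agent.Lib.MP_ae5b4e_an_AT.Half
import Pool.Agent.Lib.MP_ae5b4e_an_AT.NearA
import Pool.Agent.Lib.MP_ae5b4e_an_AT.Rev

/-! # AT: the exact coordinates near the tip -/

noncomputable section

namespace Pool.Agent.MP_ae5b4e_an_AT

open Complex Set Filter Topology Metric

/-- the facts about the passing from the state `u` to the base region -/
private structure NrP (ℓ xb : ℂ) (ρ : ℝ) (Φ : ℂ → ℂ) (t r h : ℝ) (A : ℂ → ℂ) (ε : ℝ) (j : ℕ)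
    (u : ℂ × ℂ) : Prop where
  pas : ∀ i ≤ j, Pas ℓ (ρ / 4) (1 / 64) h A u i
  mem : (Fs ℓ h A)^[j] u ∈ NN ℓ xb ρ Φ t r
  an : AnalyticAt ℂ ((Fs ℓ h A)^[j]) u
  jc : jac (fun v => ((Fs ℓ h A)^[j] v).1) (fun v => ((Fs ℓ h A)^[j] v).2) u = 1
  ene : ‖en ℓ Φ ((Fs ℓ h A)^[j] u) - Φ u.1‖ ≤ ε

private theorem nr_exp {g p e : ℂ} {ε ε₁ : ℝ} (h1 : ‖cexp (-p) - g‖ ≤ ‖g‖ / 256)
    (h2 : ‖e - p‖ ≤ ε) (hε : ε ≤ 1) (h3 : 8 * ‖g‖ * ε ≤ ε₁) :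
    ‖cexp (-e) - cexp (-p)‖ ≤ ε₁ / 2 := by
  have h4 : cexp (-e) - cexp (-p) = cexp (-p) * (cexp (-(e - p)) - 1) := by
    rw [mul_sub, ← Complex.exp_add, mul_one]
    congr 2
    ring
  have h5 : ‖cexp (-p)‖ ≤ 2 * ‖g‖ := by
    have h6 : ‖cexp (-p)‖ ≤ ‖cexp (-p) - g‖ + ‖g‖ := by
      have := norm_add_le (cexp (-p) - g) g
      rwa [sub_add_cancel] at this
    have := norm_nonneg g
    linarith
  have h7 : ‖cexp (-(e - p)) - 1‖ ≤ 2 * ε := by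
    have h8 : ‖-(e - p)‖ ≤ 1 := by
      rw [norm_neg]
      linarith
    refine (Complex.norm_exp_sub_one_le h8).trans ?_
    rw [norm_neg]
    linarith
  rw [h4, norm_mul]
  have h9 : ‖cexp (-p)‖ * ‖cexp (-(e - p)) - 1‖ ≤ 2 * ‖g‖ * (2 * ε) :=
    mul_le_mul h5 h7 (norm_nonneg _) (by positivity)
  linarith

private theorem nr_log {C ρ : ℝ} (hρ : 0 < ρ) : ∃ h₁ : ℝ, 0 < h₁ ∧ ∀ h : ℝ, 0 < h → h ≤ h₁ →
    h * (C + 4 * |Real.log h|) ≤ ρ := by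
  have hc : Continuous fun h : ℝ => h * C + 4 * |h * Real.log h| := by
    have := Real.continuous_mul_log
    fun_prop
  have h0 : ∀ᶠ h in 𝓝 (0 : ℝ), h * C + 4 * |h * Real.log h| < ρ := by
    have h1 := hc.tendsto 0
    simp only [zero_mul, abs_zero, mul_zero, add_zero] at h1
    exact h1.eventually (gt_mem_nhds hρ)
  obtain ⟨η, hη, h1⟩ := Metric.eventually_nhds_iff.1 h0
  refine ⟨η / 2, by linarith, fun h hh hh' => ?_⟩
  have h2 := h1 (y := h) (by rw [Real.dist_eq, sub_zero, abs_of_pos hh]; linarith)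
  rw [abs_mul, abs_of_pos hh] at h2
  nlinarith

private theorem nr_rev_an {xb : ℂ} {ρ h : ℝ} {A : ℂ → ℂ} (hA : DifferentiableOn ℂ A (ball xb ρ))
    {u : ℂ × ℂ} (hu : u.1 ∈ ball xb ρ) : AnalyticAt ℂ (rev h A) u := by
  have h1 : AnalyticAt ℂ A u.1 := hA.analyticAt (isOpen_ball.mem_nhds hu)
  have h2 : AnalyticAt ℂ (fun v : ℂ × ℂ => A v.1) u := AnalyticAt.fun_comp (g := A) h1 analyticAt_fst
  exact (analyticAt_fst.neg).prod ((analyticAt_snd.sub (analyticAt_const.mul h2)).neg)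

private theorem nr_fst {f : ℂ × ℂ → ℂ} {u : ℂ × ℂ} (hf : DifferentiableAt ℂ f u) :
    HasDerivAt (fun x => f (x, u.2)) (fderiv ℂ f u (1, 0)) u.1 := by
  have h1 : HasDerivAt (fun x : ℂ => (x, u.2)) ((1 : ℂ), (0 : ℂ)) u.1 :=
    (hasDerivAt_id u.1).prodMk (hasDerivAt_const u.1 u.2)
  have h2 : HasFDerivAt f (fderiv ℂ f u) ((fun x : ℂ => (x, u.2)) u.1) := hf.hasFDerivAt
  exact h2.comp_hasDerivAt u.1 h1

private theorem nr_core {ℓ xb : ℂ} {ρ : ℝ} {A₀ Φ : ℂ → ℂ} (hS : Side ℓ xb ρ A₀ Φ)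
    {t r ρ₁ κ₁ δ₁ ε₁ ε h : ℝ} {A : ℂ → ℂ} (ht : 0 < t) (hρ₁ : 0 < ρ₁) (hρ₁' : 2 * ρ₁ ≤ ρ)
    (he1 : ∀ x ∈ ball xb (2 * ρ₁), ‖cexp (-Φ x) - cexp (-Φ xb)‖ ≤ ‖cexp (-Φ xb)‖ / 256)
    (he2 : ∀ x ∈ ball xb (2 * ρ₁), ‖A₀ x * cexp (-Φ x) - cexp (-Φ xb)‖ ≤
      ‖cexp (-Φ xb)‖ / 256)
    (hε₁ : ε₁ ≤ ‖cexp ℓ * cexp (-Φ xb)‖ * ρ₁ / 2000) (hε₁' : ε₁ ≤ ‖cexp (-Φ xb)‖ / 256)
    (hε₁0 : 0 < ε₁)
    (hε : ε ≤ 1) (hε' : 8 * ‖cexp (-Φ xb)‖ * ε ≤ ε₁)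
    (hκ1 : κ₁ ≤ 1) (hκ2 : ‖cexp ℓ‖ * κ₁ ≤ 1 / 4) (hh : 0 < h) (hhκ : 100 * h < κ₁)
    (hhl : h * (‖ℓ‖ + 10 + 4 * |Real.log h|) ≤ ρ₁ / 16) (hδ : δ₁ ≤ ε₁ / 2)
    (hδ' : δ₁ ≤ ‖cexp ℓ * cexp (-Φ xb)‖ / 256) (hδ'' : δ₁ ≤ 1 / 128) (hC : Cl xb ρ A A₀ δ₁)
    (hR : ∀ u : ℂ × ℂ, ‖u.1 - xb‖ < 2 * ρ₁ → u.2 ∈ Sec 1 (h / 8) (2 * κ₁) →
      NrP ℓ xb ρ Φ t r h A ε ⌊t / h⌋₊ u)
    (hL : ∀ u : ℂ × ℂ, ‖u.1 - -xb‖ < 2 * ρ₁ → u.2 ∈ Sec 1 (h / 8) (2 * κ₁) →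
      NrP (ℓ - Real.pi * I) (-xb) ρ (fun x => Φ (-x)) t r h (fun x => A (-x)) ε ⌊t / h⌋₊ u)
    {θb : ℂ} {S Γ Γr : ℂ × ℂ → ℂ}
    (bG : BaseG (ℓ - Real.pi * I) (-xb) ρ (fun x => Φ (-x)) t r h (fun x => A (-x)) δ₁ Γ)
    (bS : BaseS (ℓ - Real.pi * I) (-xb) ρ (fun x => Φ (-x)) t r h (fun x => A (-x)) δ₁ θb S Γ)
    (bR : BaseG ℓ xb ρ Φ t r h A δ₁ Γr) :
    TipN ℓ xb ρ₁ κ₁ h A (cexp (-Φ xb)) θb t (Lf ℓ h A ⌊t / h⌋₊ Γ)
        (fun u => Lf ℓ h A ⌊t / h⌋₊ S u + ⌊t / h⌋₊ * h) (Rf ℓ h A ⌊t / h⌋₊ Γr) ∧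
      Lnk ℓ xb ρ Φ t r h A ρ₁ κ₁ ⌊t / h⌋₊ := by
  obtain ⟨j, hj⟩ : ∃ j : ℕ, j = ⌊t / h⌋₊ := ⟨_, rfl⟩
  rw [← hj] at hR hL ⊢
  obtain ⟨g, hg⟩ : ∃ g : ℂ, g = cexp (-Φ xb) := ⟨_, rfl⟩
  rw [← hg] at he1 he2 hε₁ hε₁' hε' hδ' ⊢
  have hg0 : g ≠ 0 := by
    rw [hg]
    exact Complex.exp_ne_zero _
  have hgn : 0 < ‖g‖ := norm_pos_iff.2 hg0
  have ha0 : 0 < ‖cexp ℓ * g‖ := norm_pos_iff.2 (mul_ne_zero (Complex.exp_ne_zero _) hg0)
  have hκ₁ : 0 < κ₁ := by linarith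
  have hjt : (j : ℝ) * h ≤ t := by
    rw [hj]
    have h1 := Nat.floor_le (a := t / h) (by positivity)
    rw [le_div_iff₀ hh] at h1
    exact h1
  have hjt' : t < ((j : ℝ) + 1) * h := by
    rw [hj]
    have h1 := Nat.lt_floor_add_one (t / h)
    rw [div_lt_iff₀ hh] at h1
    exact h1
  have hb1 : ball xb ρ₁ ⊆ ball xb (2 * ρ₁) := ball_subset_ball (by linarith)
  have hb2 : ball xb (2 * ρ₁) ⊆ ball xb ρ := ball_subset_ball hρ₁'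
  have hA64 : ∀ x ∈ ball xb ρ, ‖A x - 1‖ ≤ 1 / 64 := by
    intro x hx
    have h1 := hC.cl x hx
    have h2 := hS.near x hx
    have h3 : A x - 1 = (A x - A₀ x) + (A₀ x - 1) := by ring
    rw [h3]
    refine (norm_add_le _ _).trans ?_
    linarith
  -- the left side
  have hDL : ∀ u ∈ DL xb (2 * ρ₁) κ₁ h, NrP (ℓ - Real.pi * I) (-xb) ρ (fun x => Φ (-x)) t r h
      (fun x => A (-x)) ε j (rev h A u) := by
    intro u hu
    have h1 := rev_mem hh hhκ (fun x hx => hA64 x (hb2 hx)) hu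
    exact hL _ h1.2 h1.1
  have hDLm : DL xb ρ₁ κ₁ h ⊆ DL xb (2 * ρ₁) κ₁ h := by
    rintro u ⟨h1, h2, h3⟩
    exact ⟨by linarith, h2, h3⟩
  have hDL1 : ∀ u ∈ DL xb (2 * ρ₁) κ₁ h, u.1 ∈ ball xb (2 * ρ₁) := by
    rintro u ⟨h1, h2, h3⟩
    rw [mem_ball, dist_eq_norm]
    exact h1
  have hLcan : ∀ u ∈ DL xb (2 * ρ₁) κ₁ h, AnalyticAt ℂ
      (fun v => (Fs (ℓ - Real.pi * I) h fun x => A (-x))^[j] (rev h A v)) u := by
    intro u hu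
    exact AnalyticAt.fun_comp (hDL u hu).an (nr_rev_an hC.an (hb2 (hDL1 u hu)))
  have hLan : ∀ f : ℂ × ℂ → ℂ, AnalyticOnNhd ℂ f
      (NN (ℓ - Real.pi * I) (-xb) ρ (fun x => Φ (-x)) t r) →
      ∀ u ∈ DL xb (2 * ρ₁) κ₁ h, AnalyticAt ℂ (Lf ℓ h A j f) u := by
    intro f hf u hu
    have h1 := AnalyticAt.fun_comp (g := f)
      (f := fun v => (Fs (ℓ - Real.pi * I) h fun x => A (-x))^[j] (rev h A v))
      (hf _ (hDL u hu).mem) (hLcan u hu)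
    exact h1
  have hLe : ∀ u ∈ DL xb (2 * ρ₁) κ₁ h, ‖cexp (-en (ℓ - Real.pi * I) (fun x => Φ (-x))
      ((Fs (ℓ - Real.pi * I) h fun x => A (-x))^[j] (rev h A u))) - cexp (-Φ u.1)‖ ≤
        ε₁ / 2 := by
    intro u hu
    have h1 := (hDL u hu).ene
    have h2 : Φ (-(rev h A u).1) = Φ u.1 := by
      show Φ (-(-u.1)) = Φ u.1
      rw [neg_neg]
    rw [h2] at h1
    exact nr_exp (he1 _ (hDL1 u hu)) h1 hε hε'
  have hLv : ∀ u ∈ DL xb (2 * ρ₁) κ₁ h, ‖Lf ℓ h A j Γ u - cexp (-Φ u.1)‖ ≤ ε₁ := by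
    intro u hu
    have h1 := hLe u hu
    have h2 := bG.cl _ (hDL u hu).mem
    have h3 := norm_add_le _ _ |>.trans (add_le_add h2 h1)
    rw [sub_add_sub_cancel] at h3
    exact h3.trans (by linarith)
  -- the right side
  have hsec : ∀ z : ℂ, z ∈ Sec (1 / 2) (h / 4) κ₁ → z ∈ Sec 1 (h / 8) (2 * κ₁) := by
    rintro z ⟨h1, h2, h3⟩
    refine ⟨?_, by linarith, by linarith⟩
    have := abs_nonneg z.im
    linarith
  have hDR : ∀ u ∈ DR xb ρ₁ κ₁ h, NrP ℓ xb ρ Φ t r h A ε j u := by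
    rintro u ⟨h1, h2⟩
    exact hR u (by linarith) (hsec _ h2)
  have hRv : ∀ u : ℂ × ℂ, u.1 ∈ ball xb (2 * ρ₁) → NrP ℓ xb ρ Φ t r h A ε j u →
      ‖Rf ℓ h A j Γr u - cexp (-Φ u.1)‖ ≤ ε₁ := by
    intro u hu hp
    have h1 := nr_exp (he1 _ hu) hp.ene hε hε'
    have h2 := bR.cl _ hp.mem
    have h3 := norm_add_le _ _ |>.trans (add_le_add h2 h1)
    rw [sub_add_sub_cancel] at h3
    exact h3.trans (by linarith)
  have hRan : ∀ u : ℂ × ℂ, NrP ℓ xb ρ Φ t r h A ε j u → AnalyticAt ℂ (Rf ℓ h A j Γr) u := by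
    intro u hp
    have h1 := AnalyticAt.fun_comp (g := Γr) (f := (Fs ℓ h A)^[j]) (bR.an _ hp.mem) hp.an
    exact h1
  -- the derivative
  have hη : ∀ x ∈ ball xb ρ₁, ‖cexp ℓ * A₀ x * cexp (-Φ x) - cexp ℓ * g‖ ≤
      ‖cexp ℓ * g‖ / 256 := by
    intro x hx
    have h1 : cexp ℓ * A₀ x * cexp (-Φ x) - cexp ℓ * g =
        cexp ℓ * (A₀ x * cexp (-Φ x) - g) := by ring
    rw [h1, norm_mul, norm_mul]
    have h2 := mul_le_mul_of_nonneg_left (he2 x (hb1 hx)) (norm_nonneg (cexp ℓ))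
    linarith
  have hq : 2 * ε₁ / ρ₁ ≤ ‖cexp ℓ * g‖ / 1000 := by
    rw [div_le_iff₀ hρ₁]
    linarith
  have hx0 : xb ∈ ball xb (2 * ρ₁) := mem_ball_self (by linarith)
  refine ⟨?_, ?_⟩
  · refine
      { ρ_pos := hρ₁
        h_pos := hh
        h_lt := hhκ
        κ_le := hκ1
        κ_exp := hκ2
        h_lam := hhl
        γ_ne := hg0
        A_an := hC.an.mono (hb1.trans hb2)
        A_near := fun x hx => hA64 x (hb2 (hb1 hx))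
        L_an := fun u hu => hLan Γ bG.an u (hDLm hu)
        T_an := fun u hu => (hLan S bS.an u (hDLm hu)).add analyticAt_const
        R_an := fun u hu => hRan u (hDR u hu)
        L_x := ?_
        L_0 := ?_
        J := ?_
        T_bd := ?_
        L_inv := ?_
        R_inv := ?_
        R_bd := ?_
        R_aff := ?_ }
    · -- `L_x`
      intro u hu
      have hu1 : u.1 ∈ ball xb ρ₁ := by
        rw [mem_ball, dist_eq_norm]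
        exact hu.1
      have hmem : ∀ x ∈ ball xb (2 * ρ₁), (x, u.2) ∈ DL xb (2 * ρ₁) κ₁ h := by
        intro x hx
        rw [mem_ball, dist_eq_norm] at hx
        exact ⟨hx, hu.2.1, hu.2.2⟩
      have hd : DifferentiableOn ℂ (fun x => Lf ℓ h A j Γ (x, u.2)) (ball xb (2 * ρ₁)) := by
        intro x hx
        exact (nr_fst (u := (x, u.2))
          (hLan Γ bG.an _ (hmem x hx)).differentiableAt).differentiableAt.differentiableWithinAt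
      have h1 := (der_near hS hρ₁ hρ₁' hd (fun x hx => hLv _ (hmem x hx)) hη).1 u.1 hu1
      rw [(nr_fst (hLan Γ bG.an u (hDLm hu)).differentiableAt).deriv] at h1
      exact h1.trans (by linarith)
    · -- `L_0`
      intro z hz
      have h1 := hLv _ (hDLm hz)
      rw [← hg] at h1
      refine h1.trans (hε₁.trans ?_)
      have : 0 ≤ ‖cexp ℓ * g‖ * ρ₁ := by positivity
      linarith
    · -- `J`
      intro u hu
      have hu' := hDLm hu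
      have hP := hDL u hu'
      have h1 : jac (fun v => Lf ℓ h A j S v + j * h) (Lf ℓ h A j Γ) u =
          jac (fun v => Lf ℓ h A j S v) (fun v => Lf ℓ h A j Γ v) u := by
        unfold jac
        rw [fderiv_add_const]
      have h2 : jac (fun v => Lf ℓ h A j S v) (fun v => Lf ℓ h A j Γ v) u =
          jac S Γ ((Fs (ℓ - Real.pi * I) h fun x => A (-x))^[j] (rev h A u)) *
            jac (fun v => ((Fs (ℓ - Real.pi * I) h fun x => A (-x))^[j] (rev h A v)).1)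
              (fun v => ((Fs (ℓ - Real.pi * I) h fun x => A (-x))^[j] (rev h A v)).2) u :=
        jac_comp (hLcan u hu').differentiableAt (bS.an _ hP.mem).differentiableAt
          (bG.an _ hP.mem).differentiableAt
      have h3 : jac (fun v => ((Fs (ℓ - Real.pi * I) h fun x => A (-x))^[j] (rev h A v)).1)
              (fun v => ((Fs (ℓ - Real.pi * I) h fun x => A (-x))^[j] (rev h A v)).2) u = 1 := by
        rw [jac_comp (f := fun w => ((Fs (ℓ - Real.pi * I) h fun x => A (-x))^[j] w).1)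
          (g := fun w => ((Fs (ℓ - Real.pi * I) h fun x => A (-x))^[j] w).2)
          (nr_rev_an hC.an (hb2 (hDL1 u hu'))).differentiableAt
          hP.an.differentiableAt.fst hP.an.differentiableAt.snd, hP.jc,
          jac_rev ((hC.an.analyticAt (isOpen_ball.mem_nhds (hb2 (hDL1 u hu')))).differentiableAt),
          one_mul]
      have h4 := bS.jac _ hP.mem
      rw [h1, h2, h3, mul_one]
      have h5 := hLe u hu'
      have h6 := he1 _ (hDL1 u hu')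
      have h7 := norm_add_le _ _ |>.trans (add_le_add h5 h6)
      rw [sub_add_sub_cancel] at h7
      rw [exp_sub_pi] at h4
      set J := jac S Γ ((Fs (ℓ - Real.pi * I) h fun x => A (-x))^[j] (rev h A u)) with hJ
      set E := cexp (-en (ℓ - Real.pi * I) (fun x => Φ (-x))
        ((Fs (ℓ - Real.pi * I) h fun x => A (-x))^[j] (rev h A u))) with hE
      have h8 : J + cexp ℓ * g = (J - -cexp ℓ * E) + -(cexp ℓ * (E - g)) := by ring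
      have h9 : ‖cexp ℓ * (E - g)‖ ≤ ‖cexp ℓ‖ * (‖g‖ / 512 + ‖g‖ / 256) := by
        rw [norm_mul]
        exact mul_le_mul_of_nonneg_left (h7.trans (by linarith)) (norm_nonneg _)
      rw [h8]
      refine (norm_add_le _ _).trans ?_
      rw [norm_neg]
      have h10 : ‖cexp ℓ * g‖ = ‖cexp ℓ‖ * ‖g‖ := norm_mul _ _
      rw [h10] at hδ' ⊢
      have h11 : 0 ≤ ‖cexp ℓ‖ * ‖g‖ := by positivity
      linarith
    · -- `T_bd`
      intro u hu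
      have hP := hDL u (hDLm hu)
      have h1 := bS.cl _ hP.mem
      have h2 : Lf ℓ h A j S u + j * h - θb = (S ((Fs (ℓ - Real.pi * I) h fun x => A (-x))^[j]
          (rev h A u)) - θb) + ((j * h : ℝ) : ℂ) := by
        unfold Lf
        push_cast
        ring
      show ‖Lf ℓ h A j S u + j * h - θb‖ ≤ 4 * t
      rw [h2]
      refine (norm_add_le _ _).trans ?_
      rw [Complex.norm_real, Real.norm_of_nonneg (by positivity)]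
      linarith
    · -- `L_inv`
      intro u hu _ hu'
      have hP := hDL u (hDLm hu)
      have hP' := hDL _ (hDLm hu')
      have h1 : (Fs (ℓ - Real.pi * I) h fun x => A (-x))^[j] (rev h A u) =
          Fs (ℓ - Real.pi * I) h (fun x => A (-x))
            ((Fs (ℓ - Real.pi * I) h fun x => A (-x))^[j] (rev h A (Wm ℓ h A u))) := by
        rw [← Function.iterate_succ_apply' (Fs (ℓ - Real.pi * I) h fun x => A (-x)) j,
          Function.iterate_succ_apply, rev_step]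
      have h2 := hP.mem
      rw [h1] at h2
      have h3 := bG.inv _ hP'.mem h2
      have h4 := bS.inv _ hP'.mem h2
      rw [← h1] at h3 h4
      refine ⟨h3.symm, ?_⟩
      show Lf ℓ h A j S (Wm ℓ h A u) + j * h = Lf ℓ h A j S u + j * h + h
      unfold Lf
      rw [h4]
      ring
    · -- `R_inv`
      intro u hu hu'
      have hP := hDR u hu
      have hP' := hDR _ hu'
      have h1 : (Fs ℓ h A)^[j] (Fs ℓ h A u) = Fs ℓ h A ((Fs ℓ h A)^[j] u) := by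
        rw [← Function.iterate_succ_apply (Fs ℓ h A) j, Function.iterate_succ_apply']
      have h2 := hP'.mem
      rw [h1] at h2
      show Γr ((Fs ℓ h A)^[j] (Fs ℓ h A u)) = Γr ((Fs ℓ h A)^[j] u)
      rw [h1]
      exact bR.inv _ hP.mem h2
    · -- `R_bd`
      intro u hu
      have hu1 : u.1 ∈ ball xb (2 * ρ₁) := by
        rw [mem_ball, dist_eq_norm]
        have := hu.1
        linarith
      have h1 := hRv u hu1 (hDR u hu)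
      have h2 := norm_add_le _ _ |>.trans (add_le_add h1 (he1 _ hu1))
      rw [sub_add_sub_cancel] at h2
      linarith
    · -- `R_aff`
      intro z x x' hx hx'
      have hx1 : x ∈ ball xb ρ₁ := by
        rw [mem_ball, dist_eq_norm]
        exact hx.1
      have hx1' : x' ∈ ball xb ρ₁ := by
        rw [mem_ball, dist_eq_norm]
        exact hx'.1
      have hP : ∀ y ∈ ball xb (2 * ρ₁), NrP ℓ xb ρ Φ t r h A ε j (y, z + h * A y) := by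
        intro y hy
        refine hR _ ?_ ?_
        · rw [mem_ball, dist_eq_norm] at hy
          exact hy
        · refine sec_shift hh (by linarith) hx.2 ?_
          have h1 : z + h * A y - (z + h * A x) = h * ((A y - 1) - (A x - 1)) := by ring
          show ‖z + h * A y - (z + h * A x)‖ ≤ h / 32
          rw [h1, norm_mul, Complex.norm_real, Real.norm_of_nonneg hh.le]
          have h2 := hA64 y (hb2 hy)
          have h3 := hA64 x (hb2 (hb1 hx1))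
          have h4 : ‖(A y - 1) - (A x - 1)‖ ≤ 1 / 32 := (norm_sub_le _ _).trans (by linarith)
          have h5 := mul_le_mul_of_nonneg_left h4 hh.le
          linarith
      have hd : DifferentiableOn ℂ (fun y => Rf ℓ h A j Γr (y, z + h * A y))
          (ball xb (2 * ρ₁)) := by
        intro y hy
        have h1 : DifferentiableAt ℂ A y :=
          (hC.an.analyticAt (isOpen_ball.mem_nhds (hb2 hy))).differentiableAt
        have h2 : DifferentiableAt ℂ (fun y : ℂ => (y, z + h * A y)) y := by fun_prop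
        have h3 : DifferentiableAt ℂ (Rf ℓ h A j Γr) (y, z + h * A y) :=
          (hRan _ (hP y hy)).differentiableAt
        exact (DifferentiableAt.comp y h3 h2).differentiableWithinAt
      have h1 := (der_near hS hρ₁ hρ₁' hd (fun y hy => hRv _ hy (hP y hy)) hη).2 x hx1 x' hx1'
      refine h1.trans (mul_le_mul_of_nonneg_right ?_ (norm_nonneg _))
      linarith
  · exact
      { j_le := hjt
        j_ge := hjt'
        left := fun u hu => (hDL u (hDLm hu)).pas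
        left_mem := fun u hu => (hDL u (hDLm hu)).mem
        right := fun u hu => (hDR u hu).pas
        right_mem := fun u hu => (hDR u hu).mem }

private theorem nr_cl_mono {xb : ℂ} {ρ : ℝ} {A A₀ : ℂ → ℂ} {δ δ' : ℝ} (h : Cl xb ρ A A₀ δ)
    (hδ : δ ≤ δ') : Cl xb ρ A A₀ δ' :=
  ⟨h.an, fun x hx => (h.cl x hx).trans hδ⟩

/-- NEAR THE TIP. Proof. Let `γ₀ := exp (- Φ xb)`, `a := e^ℓ γ₀`, `ℓ' := ℓ - π i`, `A' x := A (-x)`,
`Φ' x := Φ (-x)`.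
(0) `half` for `(ℓ, xb, A₀, Φ)` and for `(ℓ', -xb, A₀ (-·), Φ')` (`Side.rev`), `t₀` = minimum; let
`ρ₁, κ₁, h₁, δ₁` be the minima of the two quadruples; call `ρ₂` the minimum of the two `ρ₁`.
(1) The functions `x ↦ exp (- Φ x)` and `x ↦ A₀ x exp (- Φ x)` are continuous at `xb` with the value `γ₀`:
choose `ρ₃ ≤ ρ₂` so that both are within `‖γ₀‖ / 256` of `γ₀` on `ball xb ρ₃`. Let `ρ₁ := ρ₃ / 2`.
(2) Choose `ε₁ > 0` with `ε₁ ≤ ‖a‖ ρ₁ / 2000`, `ε₁ ≤ ‖γ₀‖ / 256`, and `ε > 0` such that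
`‖w‖ ≤ ε` implies `‖γ₀‖ · 2 · ‖exp w - 1‖ ≤ ε₁ / 2`. The second parts of `half` for `ε` (both sides) give
`κ₂, h₂, δ₂`. `κ₁ := κ₂ / 4` (also `‖e^ℓ‖ κ₁ ≤ 1/4`), `h₁ ≤ h₂`, `200 h₁ < κ₁`,
`h (‖ℓ‖ + 10 + 4 |log h|) ≤ ρ₁ / 16` for `h ≤ h₁`, `δ₁ ≤ min δ₂ (ε₁ / 2)`, `δ₁ ≤ ‖a‖ / 256`.
(3) `j := ⌊t / h⌋₊`, `G' := (Fs ℓ' h A')^[j] ∘ rev h A`, `G := (Fs ℓ h A)^[j]`. By `rev_mem` and `half`, for
every `u ∈ DL xb ρ₃ κ₁ h` (the larger radius) `G' u ∈ NN'`, `G'` is analytic at `u` (`rev` is analytic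
there), `‖L u - exp (- Φ u.1)‖ ≤ δ₁ + ‖exp (-en' (G' u)) - exp (- Φ u.1)‖ ≤ ε₁`, where
`Φ' (rev u).1 = Φ u.1` and `‖en' (G' u) - Φ u.1‖ ≤ ε`. The same for `R` on `DR xb ρ₃ (2 κ₁) h'`.
`L_x`: `der_near` for `f x = L (x, u.2)`, whose derivative at `u.1` is `fderiv L u (1, 0)`;
`2 ε₁ / ρ₁ ≤ ‖a‖ / 256`, `η = ‖a‖ / 256`. `L_0`: `‖L (xb, z) - γ₀‖ ≤ ε₁`.
`J`: `jac T L u = jac S Γ (G' u) · 1` (`jac_comp` twice, `jac_rev`, `half`; the constant `j h` in `T` does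
not matter), within `δ₁ + ..` of `e^ℓ' exp (- en' (G' u))`, `e^ℓ' = - e^ℓ`, and
`‖exp (- en' (G' u)) - γ₀‖ ≤ ‖γ₀‖ / 100`. `T_bd`: `‖S (G' u) - θb‖ ≤ 2 t`, `j h ≤ t`.
`L_inv`: with `u' = Wm u`: `rev_step` gives `Fs' (rev u') = rev u`, so
`G' u = Fs' ((Fs')^[j] (rev u')) = Fs' (G' u')` (`Function.iterate_succ_apply`,
`Function.iterate_succ_apply'`), both `G' u, G' u'` in `NN'`: `BaseG.inv`, `BaseS.inv`
(`S (G' u) = S (G' u') - h`). `R_inv`: the same. `R_bd`: `‖R u - γ₀‖ ≤ ε₁ + ‖γ₀‖ / 256`.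
`R_aff`: if `(x, z + h A x) ∈ DR xb ρ₁ κ₁ h` for one `x` then `z + h A x' ∈ Sec 1 (h/8) (2 κ₁)` for ALL
`x' ∈ ball xb ρ₃` (`sec_shift`, `‖A - 1‖ ≤ 1/64`). So `f x' := R (x', z + h A x')` is differentiable on
`ball xb ρ₃`, `‖f x' - exp (- Φ x')‖ ≤ ε₁`: `der_near`, second part.
`Lnk`: `rev_mem` with `2 κ₁`, `half`; `DR xb ρ₁ κ₁ h ⊆ ball × Sec 1 (h/8) κ`. -/
theorem near_tip {ℓ xb : ℂ} {ρ : ℝ} {A₀ Φ : ℂ → ℂ} (hS : Side ℓ xb ρ A₀ Φ) :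
    ∃ t₀ : ℝ, 0 < t₀ ∧ t₀ ≤ 1 / 4 ∧ ∀ t : ℝ, 0 < t → t ≤ t₀ → ∀ r : ℝ, 0 < r →
      ∃ ρ₁ κ₁ h₁ δ₁ : ℝ, 0 < ρ₁ ∧ ρ₁ ≤ ρ / 8 ∧ 0 < κ₁ ∧ κ₁ ≤ t / 32 ∧ 0 < h₁ ∧ 0 < δ₁ ∧
        ∀ (h : ℝ) (A : ℂ → ℂ), 0 < h → h ≤ h₁ → Cl xb ρ A A₀ δ₁ →
          ∀ (θb : ℂ) (S Γ Γr : ℂ × ℂ → ℂ),
          BaseG (ℓ - Real.pi * I) (-xb) ρ (fun x => Φ (-x)) t r h (fun x => A (-x)) δ₁ Γ →
          BaseS (ℓ - Real.pi * I) (-xb) ρ (fun x => Φ (-x)) t r h (fun x => A (-x)) δ₁ θb S Γ →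
          BaseG ℓ xb ρ Φ t r h A δ₁ Γr →
            TipN ℓ xb ρ₁ κ₁ h A (cexp (-Φ xb)) θb t (Lf ℓ h A ⌊t / h⌋₊ Γ)
              (fun u => Lf ℓ h A ⌊t / h⌋₊ S u + ⌊t / h⌋₊ * h) (Rf ℓ h A ⌊t / h⌋₊ Γr) ∧
            Lnk ℓ xb ρ Φ t r h A ρ₁ κ₁ ⌊t / h⌋₊ := by
  have hS' := hS.rev
  obtain ⟨ta, hta, hta', HA⟩ := half hS
  obtain ⟨tb, htb, htb', HB⟩ := half hS'
  refine ⟨min ta tb, lt_min hta htb, (min_le_left _ _).trans hta', fun t ht ht' r hr => ?_⟩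
  obtain ⟨ρa, κa, ha, δa, hρa, hρa', hκa, hκa', hha, hha', hδa, hδa', PA, QA⟩ :=
    HA t ht (ht'.trans (min_le_left _ _)) r hr
  obtain ⟨ρb, κb, hb, δb, hρb, hρb', hκb, hκb', hhb, hhb', hδb, hδb', PB, QB⟩ :=
    HB t ht (ht'.trans (min_le_right _ _)) r hr
  obtain ⟨g, hg⟩ : ∃ g : ℂ, g = cexp (-Φ xb) := ⟨_, rfl⟩
  have hg0 : g ≠ 0 := by
    rw [hg]
    exact Complex.exp_ne_zero _
  have hgn : 0 < ‖g‖ := norm_pos_iff.2 hg0
  have hln : 0 < ‖cexp ℓ‖ := norm_pos_iff.2 (Complex.exp_ne_zero _)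
  have ha0 : 0 < ‖cexp ℓ * g‖ := norm_pos_iff.2 (mul_ne_zero (Complex.exp_ne_zero _) hg0)
  -- the radius
  have hxb : xb ∈ ball xb ρ := mem_ball_self hS.ρ_pos
  have hΦc : ContinuousAt Φ xb := (hS.prim xb hxb).continuousAt
  have hAc : ContinuousAt A₀ xb := hS.an.continuousOn.continuousAt (ball_mem_nhds _ hS.ρ_pos)
  have hE : ContinuousAt (fun x => cexp (-Φ x)) xb := hΦc.neg.cexp
  have c1 : ∀ᶠ x in 𝓝 xb, ‖cexp (-Φ x) - g‖ ≤ ‖g‖ / 256 := by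
    have h1 := Metric.tendsto_nhds.1 hE (‖g‖ / 256) (by linarith)
    filter_upwards [h1] with x hx
    rw [dist_eq_norm, ← hg] at hx
    exact hx.le
  have c2 : ∀ᶠ x in 𝓝 xb, ‖A₀ x * cexp (-Φ x) - g‖ ≤ ‖g‖ / 256 := by
    have h0 : Tendsto (fun x => A₀ x * cexp (-Φ x)) (𝓝 xb) (𝓝 (A₀ xb * cexp (-Φ xb))) :=
      hAc.mul hE
    have h1 := Metric.tendsto_nhds.1 h0 (‖g‖ / 256) (by linarith)
    filter_upwards [h1] with x hx
    rw [dist_eq_norm, hS.one, one_mul, ← hg] at hx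
    exact hx.le
  obtain ⟨ρc, hρc, hc⟩ := Metric.eventually_nhds_iff.1 (c1.and c2)
  obtain ⟨ρ₁, hρ₁, h2a, h2b, h2c⟩ : ∃ ρ₁ : ℝ, 0 < ρ₁ ∧ 2 * ρ₁ ≤ ρa ∧ 2 * ρ₁ ≤ ρb ∧
      2 * ρ₁ ≤ ρc := by
    refine ⟨min ρa (min ρb ρc) / 2, by positivity, ?_, ?_, ?_⟩
    · have := min_le_left ρa (min ρb ρc)
      linarith
    · have := (min_le_right ρa (min ρb ρc)).trans (min_le_left _ _)
      linarith
    · have := (min_le_right ρa (min ρb ρc)).trans (min_le_right _ _)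
      linarith
  -- the accuracy
  obtain ⟨ε₁, hε₁0, hε₁, hε₁'⟩ : ∃ ε₁ : ℝ, 0 < ε₁ ∧ ε₁ ≤ ‖cexp ℓ * g‖ * ρ₁ / 2000 ∧
      ε₁ ≤ ‖g‖ / 256 :=
    ⟨min (‖cexp ℓ * g‖ * ρ₁ / 2000) (‖g‖ / 256), lt_min (by positivity) (by positivity),
      min_le_left _ _, min_le_right _ _⟩
  obtain ⟨ε, hε0, hε, hε'⟩ : ∃ ε : ℝ, 0 < ε ∧ ε ≤ 1 ∧ 8 * ‖g‖ * ε ≤ ε₁ := by
    refine ⟨min 1 (ε₁ / (8 * ‖g‖)), lt_min one_pos (by positivity), min_le_left _ _, ?_⟩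
    have h1 := mul_le_mul_of_nonneg_left (min_le_right 1 (ε₁ / (8 * ‖g‖)))
      (by positivity : 0 ≤ 8 * ‖g‖)
    rwa [mul_div_cancel₀ _ (by positivity : 8 * ‖g‖ ≠ 0)] at h1
  obtain ⟨κ2a, h2a', δ2a, hκ2a, hκ2a', hh2a, hh2a', hδ2a, hδ2a', QA'⟩ := QA ε hε0
  obtain ⟨κ2b, h2b', δ2b, hκ2b, hκ2b', hh2b, hh2b', hδ2b, hδ2b', QB'⟩ := QB ε hε0
  obtain ⟨κ₁, hκ₁, hκ1a, hκ1b, hκ1c⟩ : ∃ κ₁ : ℝ, 0 < κ₁ ∧ 4 * κ₁ ≤ κ2a ∧ 4 * κ₁ ≤ κ2b ∧
      ‖cexp ℓ‖ * κ₁ ≤ 1 / 4 := by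
    refine ⟨min (min κ2a κ2b / 4) (1 / (4 * ‖cexp ℓ‖)), lt_min (by positivity) (by positivity),
      ?_, ?_, ?_⟩
    · have h1 := min_le_left (min κ2a κ2b / 4) (1 / (4 * ‖cexp ℓ‖))
      have h2 := min_le_left κ2a κ2b
      linarith
    · have h1 := min_le_left (min κ2a κ2b / 4) (1 / (4 * ‖cexp ℓ‖))
      have h2 := min_le_right κ2a κ2b
      linarith
    · have h1 := mul_le_mul_of_nonneg_left
        (min_le_right (min κ2a κ2b / 4) (1 / (4 * ‖cexp ℓ‖))) hln.le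
      refine h1.trans (le_of_eq ?_)
      field_simp
  obtain ⟨h3, hh3, hh3'⟩ := nr_log (C := ‖ℓ‖ + 10) (ρ := ρ₁ / 16) (by positivity)
  obtain ⟨h₁, hh₁, hx1, hx2, hx3, hx4⟩ : ∃ h₁ : ℝ, 0 < h₁ ∧ h₁ ≤ h2a' ∧ h₁ ≤ h2b' ∧
      200 * h₁ ≤ κ₁ ∧ h₁ ≤ h3 := by
    refine ⟨min (min h2a' h2b') (min (κ₁ / 200) h3), by positivity, ?_, ?_, ?_, ?_⟩
    · exact (min_le_left _ _).trans (min_le_left _ _)
    · exact (min_le_left _ _).trans (min_le_right _ _)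
    · have := (min_le_right (min h2a' h2b') (min (κ₁ / 200) h3)).trans (min_le_left _ _)
      linarith
    · exact (min_le_right _ _).trans (min_le_right _ _)
  obtain ⟨δ₁, hδ₁, hd1, hd2, hd3, hd4⟩ : ∃ δ₁ : ℝ, 0 < δ₁ ∧ δ₁ ≤ δ2a ∧ δ₁ ≤ δ2b ∧
      δ₁ ≤ ε₁ / 2 ∧ δ₁ ≤ ‖cexp ℓ * g‖ / 256 := by
    refine ⟨min (min δ2a δ2b) (min (ε₁ / 2) (‖cexp ℓ * g‖ / 256)), by positivity, ?_, ?_, ?_, ?_⟩
    · exact (min_le_left _ _).trans (min_le_left _ _)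
    · exact (min_le_left _ _).trans (min_le_right _ _)
    · exact (min_le_right _ _).trans (min_le_left _ _)
    · exact (min_le_right _ _).trans (min_le_right _ _)
  have hρpos := hS.ρ_pos
  have ht4 : t ≤ 1 / 4 := ht'.trans ((min_le_left _ _).trans hta')
  refine ⟨ρ₁, κ₁, h₁, δ₁, hρ₁, by linarith, hκ₁, by linarith, hh₁, hδ₁, ?_⟩
  intro h A hh hh' hC θb S Γ Γr bG bS bR
  have hC' := hC.rev
  have hsm : ∀ (κ : ℝ) (z : ℂ), 4 * κ₁ ≤ κ → z ∈ Sec 1 (h / 8) (2 * κ₁) → z ∈ Sec 1 (h / 8) κ := by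
    rintro κ z hk ⟨h1, h2, h3⟩
    exact ⟨h1, h2, by linarith⟩
  refine nr_core hS (ε₁ := ε₁) (ε := ε) ht hρ₁ (by linarith) ?_ ?_ (by rw [← hg]; exact hε₁)
    (by rw [← hg]; exact hε₁') hε₁0 hε (by rw [← hg]; exact hε') (by linarith) hκ1c hh
    (by linarith) ?_ hd3 (by rw [← hg]; exact hd4) (by linarith) hC ?_ ?_ bG bS bR
  · intro x hx
    rw [← hg]
    exact (hc ((mem_ball.1 hx).trans_le h2c)).1
  · intro x hx
    rw [← hg]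
    exact (hc ((mem_ball.1 hx).trans_le h2c)).2
  · exact hh3' h hh (hh'.trans hx4)
  · intro u hu1 hu2
    have p1 := PA h A hh ((hh'.trans hx1).trans hh2a')
      (nr_cl_mono hC (hd1.trans hδ2a')) u (by linarith) (hsm κa u.2 (by linarith) hu2)
    exact ⟨p1.1, p1.2.1, p1.2.2.1, p1.2.2.2, QA' h A hh (hh'.trans hx1) (nr_cl_mono hC hd1) u
      (by linarith) (hsm κ2a u.2 (by linarith) hu2)⟩
  · intro u hu1 hu2
    have p1 := PB h (fun x => A (-x)) hh ((hh'.trans hx2).trans hh2b')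
      (nr_cl_mono hC' (hd2.trans hδ2b')) u (by linarith) (hsm κb u.2 (by linarith) hu2)
    exact ⟨p1.1, p1.2.1, p1.2.2.1, p1.2.2.2, QB' h (fun x => A (-x)) hh (hh'.trans hx2)
      (nr_cl_mono hC' hd2) u (by linarith) (hsm κ2b u.2 (by linarith) hu2)⟩

end Pool.Agent.MP_ae5b4e_an_AT
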