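import Pool.Agent.Lib.MP_ae5b4e_an_AT.Chain
import Pool.Agent.Lib.MP_ae5b4e_an_AT.Energy
import Pool.Agent.Lib.MP_ae5b4e_an_AT.Jac

/-! # AT: passing on one side of the tip -/

noncomputable section

namespace Pool.Agent.MP_ae5b4e_an_AT

open Complex Set Filter Topology Metric

/-- the numerical errors tend to zero -/
private theorem Pass_small (E C ρ : ℝ) {ε : ℝ} (hε : 0 < ε) : ∃ h₂ : ℝ, 0 < h₂ ∧
    ∀ h : ℝ, 0 < h → h < h₂ → E * (768 * h * (1 + Real.log (1 / h)) +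
      2 / ρ * h * (C + Real.log (32 / h)) ^ 2) < ε := by
  have h1 : Tendsto (fun x : ℝ => Real.log x * x ^ (1 : ℝ)) (𝓝[>] 0) (𝓝 0) :=
    tendsto_log_mul_rpow_nhdsGT_zero one_pos
  have h2 : Tendsto (fun x : ℝ => Real.log x * x ^ (1 / 2 : ℝ)) (𝓝[>] 0) (𝓝 0) :=
    tendsto_log_mul_rpow_nhdsGT_zero (by norm_num)
  have h3 : Tendsto (fun x : ℝ => x) (𝓝[>] (0 : ℝ)) (𝓝 0) :=
    tendsto_nhdsWithin_of_tendsto_nhds tendsto_id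
  have h4 : Tendsto (fun x : ℝ => x ^ (1 / 2 : ℝ)) (𝓝[>] (0 : ℝ)) (𝓝 0) := by
    have h5 : ContinuousAt (fun x : ℝ => x ^ (1 / 2 : ℝ)) 0 :=
      Real.continuousAt_rpow_const 0 (1 / 2) (Or.inr (by norm_num))
    have h6 : Tendsto (fun x : ℝ => x ^ (1 / 2 : ℝ)) (𝓝 (0 : ℝ)) (𝓝 ((0 : ℝ) ^ (1 / 2 : ℝ))) := h5
    rw [Real.zero_rpow (by norm_num)] at h6
    exact tendsto_nhdsWithin_of_tendsto_nhds h6
  have h7 : Tendsto (fun x : ℝ => E * (768 * (x - Real.log x * x ^ (1 : ℝ)) +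
      2 / ρ * ((C + Real.log 32) * x ^ (1 / 2 : ℝ) - Real.log x * x ^ (1 / 2 : ℝ)) ^ 2))
      (𝓝[>] 0) (𝓝 (E * (768 * (0 - 0) + 2 / ρ * ((C + Real.log 32) * 0 - 0) ^ 2))) :=
    ((((h3.sub h1).const_mul 768).add ((((h4.const_mul (C + Real.log 32)).sub h2).pow 2).const_mul
      (2 / ρ))).const_mul E)
  have h8 : E * (768 * (0 - 0) + 2 / ρ * ((C + Real.log 32) * 0 - 0) ^ 2) = 0 := by ring
  rw [h8] at h7
  have h9 := h7.eventually (eventually_lt_nhds hε)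
  obtain ⟨h₂, hh₂, hsub⟩ := mem_nhdsGT_iff_exists_Ioo_subset.1 h9
  refine ⟨h₂, hh₂, fun h hh hh' => ?_⟩
  have h10 := hsub ⟨hh, hh'⟩
  have h11 : E * (768 * (h - Real.log h * h ^ (1 : ℝ)) +
      2 / ρ * ((C + Real.log 32) * h ^ (1 / 2 : ℝ) - Real.log h * h ^ (1 / 2 : ℝ)) ^ 2) < ε := h10
  have h12 : (h ^ (1 / 2 : ℝ)) ^ 2 = h := by
    rw [← Real.sqrt_eq_rpow, Real.sq_sqrt hh.le]
  have h13 : Real.log (1 / h) = -Real.log h := by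
    rw [one_div, Real.log_inv]
  have h14 : Real.log (32 / h) = Real.log 32 - Real.log h := Real.log_div (by norm_num) hh.ne'
  rw [Real.rpow_one] at h11
  have h15 : ((C + Real.log 32) * h ^ (1 / 2 : ℝ) - Real.log h * h ^ (1 / 2 : ℝ)) ^ 2 =
      h * (C + Real.log (32 / h)) ^ 2 := by
    rw [h14]
    calc ((C + Real.log 32) * h ^ (1 / 2 : ℝ) - Real.log h * h ^ (1 / 2 : ℝ)) ^ 2 =
        (h ^ (1 / 2 : ℝ)) ^ 2 * (C + (Real.log 32 - Real.log h)) ^ 2 := by ring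
      _ = _ := by rw [h12]
  rw [h15] at h11
  rw [h13]
  calc E * (768 * h * (1 + -Real.log h) + 2 / ρ * h * (C + Real.log (32 / h)) ^ 2) =
      E * (768 * (h - Real.log h * h) + 2 / ρ * (h * (C + Real.log (32 / h)) ^ 2)) := by ring
    _ < ε := h11

/-- PASSING. Proof. `t₀, κ₀` from `chain` with `η = ρ / 4` (decrease them so that `κ₀, t₀ ≤ 1 / 4`).
Let `C = ‖ℓ‖ + 5`. Choose `δ₁ ≤ 1 / 128` and `h₁ ≤ 1`, `h₁ ‖e^ℓ‖ ≤ 1 / 8` such that for `0 < h ≤ h₁`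
`‖e^ℓ‖ (768 h (1 + log (1 / h)) + δ₁ ρ / 4 + (2 / ρ) h (C + log (32 / h))²) ≤ ε`
(`h log h → 0`, `h log² h → 0`). `chain` with `δ = 1 / 64` (`‖A - 1‖ ≤ 1/128 + 1/128`): `Pas` for all
`i ≤ j`; so `‖x_i - xb‖ < ρ / 4 + ρ / 4`. `energy_step` at `v = F^[i] u`, `i < j`:
`‖z_i‖ ≥ (i + 1) h / 32`, `‖lam z_i‖ ≤ C + log (32 / ((i+1) h)) ≤ C + log (32 / h)`. Sum over `i < j`:
first terms `‖e^ℓ‖ h ∑ 24 · 32 / (i + 1)` (`sum_inv`); `δ`-terms `‖e^ℓ‖ δ₁ h ∑ ‖lam z_i‖ ≤ ‖e^ℓ‖ δ₁ η`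
(`sum_log` is used here again: decrease `t₀` by `sum_log C (ρ/4)` at the beginning);
last terms `≤ ‖e^ℓ‖ (2/ρ) h² j (C + log (32/h))²`, `j h ≤ 1`. Analyticity and Jacobian: `iter_an`,
`jac_iter` (`sec_slit`, `Pas.exp`). -/
theorem pass {ℓ xb : ℂ} {ρ : ℝ} {A₀ Φ : ℂ → ℂ} (hS : Side ℓ xb ρ A₀ Φ) :
    ∃ t₀ κ₀ : ℝ, 0 < t₀ ∧ t₀ ≤ 1 / 4 ∧ 0 < κ₀ ∧ κ₀ ≤ 1 / 4 ∧ ∀ ε : ℝ, 0 < ε →
      ∃ h₁ δ₁ : ℝ, 0 < h₁ ∧ h₁ ≤ 1 ∧ 0 < δ₁ ∧ δ₁ ≤ 1 / 128 ∧ ∀ (h : ℝ) (A : ℂ → ℂ), 0 < h → h ≤ h₁ →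
        Cl xb ρ A A₀ δ₁ → ∀ u : ℂ × ℂ, ‖u.1 - xb‖ < ρ / 4 → u.2 ∈ Sec 1 (h / 8) κ₀ →
          ∀ j : ℕ, j * h ≤ t₀ → Pas ℓ (ρ / 4) (1 / 64) h A u j ∧
            ‖en ℓ Φ ((Fs ℓ h A)^[j] u) - en ℓ Φ u‖ ≤ ε ∧ AnalyticAt ℂ ((Fs ℓ h A)^[j]) u ∧
              jac (fun v => ((Fs ℓ h A)^[j] v).1) (fun v => ((Fs ℓ h A)^[j] v).2) u = 1 := by
  have hρ := hS.ρ_pos
  obtain ⟨t₁, κ₁, ht₁, ht₁', hκ₁, hκ₁', hchain⟩ := chain ℓ (show 0 < ρ / 4 by positivity)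
  obtain ⟨t₂, ht₂, -, hsum⟩ := sum_log (‖ℓ‖ + 5) (show 0 < ρ / 4 by positivity)
  refine ⟨min t₁ t₂, κ₁, lt_min ht₁ ht₂, (min_le_left _ _).trans ht₁', hκ₁, hκ₁', ?_⟩
  intro ε hε
  have hE : 0 < ‖cexp ℓ‖ := norm_pos_iff.2 (Complex.exp_ne_zero ℓ)
  obtain ⟨h₂, hh₂, hsmall⟩ := Pass_small ‖cexp ℓ‖ (‖ℓ‖ + 5) ρ (show 0 < ε / 2 by positivity)
  refine ⟨min (min (h₂ / 2) 1) (1 / (8 * ‖cexp ℓ‖)), min (1 / 128) (ε / (‖cexp ℓ‖ * ρ)),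
    lt_min (lt_min (by positivity) one_pos) (by positivity),
    (min_le_left _ _).trans (min_le_right _ _), lt_min (by norm_num) (by positivity),
    min_le_left _ _, ?_⟩
  intro h A hh hh1 hC u hu1 hu2 j hj
  have hha : h ≤ h₂ / 2 := hh1.trans ((min_le_left _ _).trans (min_le_left _ _))
  have hhb : h ≤ 1 := hh1.trans ((min_le_left _ _).trans (min_le_right _ _))
  have hhc : h ≤ 1 / (8 * ‖cexp ℓ‖) := hh1.trans (min_le_right _ _)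
  set δ₁ : ℝ := min (1 / 128) (ε / (‖cexp ℓ‖ * ρ)) with hδ₁
  have hδa : δ₁ ≤ 1 / 128 := min_le_left _ _
  have hδb : δ₁ ≤ ε / (‖cexp ℓ‖ * ρ) := min_le_right _ _
  have hδ0 : 0 < δ₁ := lt_min (by norm_num) (by positivity)
  have he : h * ‖cexp ℓ‖ ≤ 1 / 8 := by
    rw [le_div_iff₀ (by positivity)] at hhc
    linarith
  have hA1 : ∀ x ∈ ball xb ρ, ‖A x - 1‖ ≤ 1 / 64 := by
    intro x hx
    have h1 := hC.cl x hx
    have h2 := hS.near x hx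
    calc ‖A x - 1‖ = ‖(A x - A₀ x) + (A₀ x - 1)‖ := by rw [sub_add_sub_cancel]
      _ ≤ ‖A x - A₀ x‖ + ‖A₀ x - 1‖ := norm_add_le _ _
      _ ≤ 1 / 64 := by linarith
  have hjt : j * h ≤ t₁ := hj.trans (min_le_left _ _)
  have hjt2 : j * h ≤ t₂ := hj.trans (min_le_right _ _)
  have hij : ∀ i ≤ j, (i : ℝ) * h ≤ j * h := fun i hi =>
    mul_le_mul_of_nonneg_right (by exact_mod_cast hi) hh.le
  have hP : ∀ i ≤ j, Pas ℓ (ρ / 4) (1 / 64) h A u i := fun i hi =>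
    hchain xb ρ h (1 / 64) A le_rfl hh (by norm_num) (by norm_num) hA1 u hu1 hu2 i
      ((hij i hi).trans hjt)
  have hx : ∀ i ≤ j, ‖((Fs ℓ h A)^[i] u).1 - xb‖ < ρ / 2 := by
    intro i hi
    have h1 := (hP i hi).x_near
    calc ‖((Fs ℓ h A)^[i] u).1 - xb‖ = ‖(((Fs ℓ h A)^[i] u).1 - u.1) + (u.1 - xb)‖ := by
          rw [sub_add_sub_cancel]
      _ ≤ ‖((Fs ℓ h A)^[i] u).1 - u.1‖ + ‖u.1 - xb‖ := norm_add_le _ _
      _ < ρ / 2 := by linarith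
  have hball : ∀ i < j, ((Fs ℓ h A)^[i] u).2 ∈ slitPlane ∧
      ‖cexp ℓ * ((Fs ℓ h A)^[i] u).2‖ < 1 ∧ ((Fs ℓ h A)^[i + 1] u).1 ∈ ball xb ρ := by
    intro i hi
    refine ⟨sec_slit (hP i hi.le).sec, ?_, ?_⟩
    · have := (hP i hi.le).exp
      linarith
    · rw [mem_ball, dist_eq_norm]
      have := hx (i + 1) hi
      linarith
  refine ⟨hP j le_rfl, ?_, iter_an hC.an hball, jac_iter hC.an hball⟩
  -- the energy
  set L : ℝ := ‖ℓ‖ + 5 + Real.log (32 / h) with hL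
  have hstep : ∀ i ∈ Finset.range j, ‖en ℓ Φ ((Fs ℓ h A)^[i + 1] u) - en ℓ Φ ((Fs ℓ h A)^[i] u)‖ ≤
      ‖cexp ℓ‖ * h * (768 * (1 / ((i : ℝ) + 1)) +
        δ₁ * (‖ℓ‖ + 5 + Real.log (32 / (((i : ℝ) + 1) * h))) + 2 / ρ * h * L ^ 2) := by
    intro i hi
    have hi' : i < j := Finset.mem_range.1 hi
    have hPi := hP i hi'.le
    have hi0 : (0 : ℝ) ≤ i := Nat.cast_nonneg i
    have h1 : ((Fs ℓ h A)^[i + 1] u) = Fs ℓ h A ((Fs ℓ h A)^[i] u) :=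
      Function.iterate_succ_apply' _ _ _
    have hx1 := hx (i + 1) hi'
    rw [h1] at hx1 ⊢
    set v := (Fs ℓ h A)^[i] u with hv
    have h2 := energy_step hS hh he hC hδa (hx i hi'.le) hx1 hPi.sec hPi.exp
    refine h2.trans ?_
    have hlow : ((i : ℝ) + 1) * h / 32 ≤ ‖v.2‖ := by
      have h3 := hPi.low
      have h4 : h / 8 < ‖u.2‖ := hu2.2.1
      have h5 : 0 ≤ (i : ℝ) * h := by positivity
      linarith
    have hpos : 0 < ((i : ℝ) + 1) * h / 32 := by positivity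
    have hv0 : 0 < ‖v.2‖ := hpos.trans_le hlow
    have hlam : ‖lam ℓ v.2‖ ≤ ‖ℓ‖ + 5 + Real.log (32 / (((i : ℝ) + 1) * h)) := by
      have h3 := norm_lam_le hPi.exp
      have h4 : |Real.log ‖v.2‖| ≤ Real.log (32 / (((i : ℝ) + 1) * h)) := by
        rw [abs_of_nonpos (Real.log_nonpos hv0.le hPi.one), ← Real.log_inv]
        apply Real.log_le_log (inv_pos.2 hv0)
        rw [show 32 / (((i : ℝ) + 1) * h) = (((i : ℝ) + 1) * h / 32)⁻¹ by rw [inv_div]]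
        exact inv_anti₀ hpos hlow
      linarith
    have hLi : ‖ℓ‖ + 5 + Real.log (32 / (((i : ℝ) + 1) * h)) ≤ L := by
      have h3 : Real.log (32 / (((i : ℝ) + 1) * h)) ≤ Real.log (32 / h) := by
        apply Real.log_le_log (by positivity)
        apply div_le_div_of_nonneg_left (by norm_num) hh
        nlinarith
      linarith
    have hlamL : ‖lam ℓ v.2‖ ≤ L := hlam.trans hLi
    have hlam0 := norm_nonneg (lam ℓ v.2)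
    have e1 : 24 * h / ‖v.2‖ ≤ 768 * (1 / ((i : ℝ) + 1)) := by
      rw [div_le_iff₀ hv0]
      have h3 : 768 * (1 / ((i : ℝ) + 1)) * (((i : ℝ) + 1) * h / 32) ≤
          768 * (1 / ((i : ℝ) + 1)) * ‖v.2‖ := mul_le_mul_of_nonneg_left hlow (by positivity)
      have h4 : 768 * (1 / ((i : ℝ) + 1)) * (((i : ℝ) + 1) * h / 32) = 24 * h := by
        field_simp
        norm_num
      linarith
    have e2 : ‖lam ℓ v.2‖ * (δ₁ + 2 * h * ‖lam ℓ v.2‖ / ρ) ≤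
        δ₁ * (‖ℓ‖ + 5 + Real.log (32 / (((i : ℝ) + 1) * h))) + 2 / ρ * h * L ^ 2 := by
      have h3 : ‖lam ℓ v.2‖ * (δ₁ + 2 * h * ‖lam ℓ v.2‖ / ρ) =
          δ₁ * ‖lam ℓ v.2‖ + 2 / ρ * h * ‖lam ℓ v.2‖ ^ 2 := by ring
      rw [h3]
      refine add_le_add (mul_le_mul_of_nonneg_left hlam hδ0.le)
        (mul_le_mul_of_nonneg_left ?_ (by positivity))
      exact pow_le_pow_left₀ hlam0 hlamL 2
    have h5 : 0 ≤ ‖cexp ℓ‖ * h := by positivity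
    exact mul_le_mul_of_nonneg_left (by linarith) h5
  have htel : en ℓ Φ ((Fs ℓ h A)^[j] u) - en ℓ Φ u =
      ∑ i ∈ Finset.range j, (en ℓ Φ ((Fs ℓ h A)^[i + 1] u) - en ℓ Φ ((Fs ℓ h A)^[i] u)) := by
    rw [Finset.sum_range_sub (fun i => en ℓ Φ ((Fs ℓ h A)^[i] u)) j]
    rfl
  rw [htel]
  refine (norm_sum_le _ _).trans ((Finset.sum_le_sum hstep).trans ?_)
  have hj1 : j * h ≤ 1 := by linarith
  have s1 := sum_inv hh hhb hj1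
  have s2 := hsum h hh j hjt2
  have hsplit : ∑ i ∈ Finset.range j, ‖cexp ℓ‖ * h * (768 * (1 / ((i : ℝ) + 1)) +
        δ₁ * (‖ℓ‖ + 5 + Real.log (32 / (((i : ℝ) + 1) * h))) + 2 / ρ * h * L ^ 2) =
      ‖cexp ℓ‖ * (768 * h * ∑ i ∈ Finset.range j, (1 : ℝ) / ((i : ℝ) + 1)) +
      ‖cexp ℓ‖ * δ₁ * (h * ∑ i ∈ Finset.range j,
        (‖ℓ‖ + 5 + Real.log (32 / (((i : ℝ) + 1) * h)))) +
      ‖cexp ℓ‖ * (2 / ρ * h * L ^ 2) * (j * h) := by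
    rw [← Finset.mul_sum, Finset.sum_add_distrib, Finset.sum_add_distrib, ← Finset.mul_sum,
      ← Finset.mul_sum, Finset.sum_const, Finset.card_range, nsmul_eq_mul]
    ring
  rw [hsplit]
  have b1 : ‖cexp ℓ‖ * (768 * h * ∑ i ∈ Finset.range j, (1 : ℝ) / ((i : ℝ) + 1)) ≤
      ‖cexp ℓ‖ * (768 * h * (1 + Real.log (1 / h))) :=
    mul_le_mul_of_nonneg_left (mul_le_mul_of_nonneg_left s1 (by positivity)) hE.le
  have b2 : ‖cexp ℓ‖ * δ₁ * (h * ∑ i ∈ Finset.range j,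
        (‖ℓ‖ + 5 + Real.log (32 / (((i : ℝ) + 1) * h)))) ≤ ε / 4 := by
    have h1 : ‖cexp ℓ‖ * δ₁ * (h * ∑ i ∈ Finset.range j,
        (‖ℓ‖ + 5 + Real.log (32 / (((i : ℝ) + 1) * h)))) ≤ ‖cexp ℓ‖ * δ₁ * (ρ / 4) :=
      mul_le_mul_of_nonneg_left s2 (by positivity)
    have h2 : δ₁ * (‖cexp ℓ‖ * ρ) ≤ ε := by
      rwa [le_div_iff₀ (by positivity)] at hδb
    linarith
  have b3 : ‖cexp ℓ‖ * (2 / ρ * h * L ^ 2) * (j * h) ≤ ‖cexp ℓ‖ * (2 / ρ * h * L ^ 2) := by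
    have h1 : 0 ≤ ‖cexp ℓ‖ * (2 / ρ * h * L ^ 2) := by positivity
    calc ‖cexp ℓ‖ * (2 / ρ * h * L ^ 2) * (j * h) ≤ ‖cexp ℓ‖ * (2 / ρ * h * L ^ 2) * 1 :=
          mul_le_mul_of_nonneg_left hj1 h1
      _ = _ := mul_one _
  have b4 := hsmall h hh (by linarith)
  have b5 : ‖cexp ℓ‖ * (768 * h * (1 + Real.log (1 / h)) + 2 / ρ * h * L ^ 2) =
      ‖cexp ℓ‖ * (768 * h * (1 + Real.log (1 / h))) + ‖cexp ℓ‖ * (2 / ρ * h * L ^ 2) := by ring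
  rw [← hL, b5] at b4
  linarith

end Pool.Agent.MP_ae5b4e_an_AT
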