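import Pool.Agent.Lib.MP_ae5b4e_an_AT.Elem
import Pool.Agent.Lib.MP_ae5b4e_an_AT.Geom

/-! # AT: the kick on both sides of the slit, estimates -/

noncomputable section

namespace Pool.Agent.MP_ae5b4e_an_AT

open Complex Set Filter Topology Metric

variable {ℓ xb : ℂ} {ρ κ h : ℝ} {A : ℂ → ℂ} {γ₀ θb : ℂ} {t : ℝ} {L T R : ℂ × ℂ → ℂ} {sb : ℂ}
  {X Z : ℂ → ℂ}

/-- the kick, continued from the left (`w = s / h`) -/
def Um (ℓ : ℂ) (h : ℝ) (A : ℂ → ℂ) (R : ℂ × ℂ → ℂ) (γ₀ : ℂ) (X Z : ℂ → ℂ) (w : ℂ) : ℂ :=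
  R (Wm ℓ h A (X (h * w), Z (h * w))) - γ₀

/-- the kick, continued from the right -/
def Up (ℓ : ℂ) (h : ℝ) (A : ℂ → ℂ) (R : ℂ × ℂ → ℂ) (γ₀ : ℂ) (X Z : ℂ → ℂ) (w : ℂ) : ℂ :=
  R (Fs ℓ h A (X (h * w), Z (h * w))) - γ₀

/-- Size of the logarithm. Proof. `‖z‖ ≥ (15/16) h³`, `‖z‖ ≤ 1`: `|log ‖z‖| ≤ 3 |log h| + log (16/15)`;
`norm_lam_le` (for `lam (ℓ - π i) (-z)`: `exp (ℓ - π i) (-z) = exp ℓ z`, `‖ℓ - π i‖ ≤ ‖ℓ‖ + π`); `h_lam`. -/
theorem slit_lam (hT : TipN ℓ xb ρ κ h A γ₀ θb t L T R) {z : ℂ} (h1 : 15 / 16 * h ^ 3 ≤ ‖z‖)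
    (h2 : ‖z‖ < κ) :
    ‖h * lam ℓ z‖ ≤ ρ / 16 ∧ ‖h * lam (ℓ - Real.pi * I) (-z)‖ ≤ ρ / 16 := by
  have hh := hT.h_pos
  have hκ := hT.h_lt
  have hκ1 := hT.κ_le
  have hlam := hT.h_lam
  have hz0 : 0 < ‖z‖ := lt_of_lt_of_le (by positivity) h1
  have hz1 : ‖z‖ ≤ 1 := by linarith
  have hh1 : h ≤ 1 := by linarith
  have hlh : |Real.log h| = -Real.log h := abs_of_nonpos (Real.log_nonpos hh.le hh1)
  have hlz : |Real.log ‖z‖| ≤ 3 * |Real.log h| + 1 / 15 := by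
    rw [abs_of_nonpos (Real.log_nonpos hz0.le hz1), hlh]
    have e1 : Real.log (15 / 16 * h ^ 3) = Real.log (15 / 16) + 3 * Real.log h := by
      rw [Real.log_mul (by norm_num) (by positivity), Real.log_pow]
      norm_num
    have e2 : Real.log (15 / 16 * h ^ 3) ≤ Real.log ‖z‖ := Real.log_le_log (by positivity) h1
    have e3 : -(1 / 15) ≤ Real.log (15 / 16) := by
      have h4 := Real.log_le_sub_one_of_pos (x := 16 / 15) (by norm_num)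
      have h5 : Real.log (15 / 16) = -Real.log (16 / 15) := by
        rw [← Real.log_inv]
        norm_num
      rw [h5]
      linarith
    linarith
  have hex : ‖cexp ℓ * z‖ ≤ 1 / 2 := by
    rw [norm_mul]
    have h3 : ‖cexp ℓ‖ * ‖z‖ ≤ ‖cexp ℓ‖ * κ :=
      mul_le_mul_of_nonneg_left h2.le (norm_nonneg _)
    linarith [hT.κ_exp]
  have hex2 : ‖cexp (ℓ - Real.pi * I) * (-z)‖ ≤ 1 / 2 := by
    have e1 : cexp (ℓ - Real.pi * I) * (-z) = cexp ℓ * z := by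
      rw [Complex.exp_sub, Complex.exp_pi_mul_I]
      ring
    rw [e1]
    exact hex
  have hl0 : 0 ≤ |Real.log h| := abs_nonneg _
  have hπ := Real.pi_le_four
  have hπ0 := Real.pi_pos
  have hfin : ∀ w : ℂ, ‖w‖ ≤ ‖ℓ‖ + 10 + 4 * |Real.log h| → ‖h * w‖ ≤ ρ / 16 := by
    intro w hw
    rw [norm_mul, Complex.norm_real, Real.norm_eq_abs, abs_of_pos hh]
    exact (mul_le_mul_of_nonneg_left hw hh.le).trans hlam
  constructor
  · apply hfin
    have h3 := norm_lam_le hex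
    linarith
  · apply hfin
    have h3 := norm_lam_le hex2
    rw [norm_neg] at h3
    have h4 : ‖ℓ - Real.pi * I‖ ≤ ‖ℓ‖ + Real.pi := by
      refine (norm_sub_le _ _).trans ?_
      rw [norm_mul, Complex.norm_I, mul_one, Complex.norm_real, Real.norm_eq_abs,
        abs_of_pos hπ0]
    linarith

/-- The next `z` is in the domain of `R`.

Proof. `z⁺ = z + h a`, `‖a - 1‖ ≤ 1/64`, `‖z - s‖ ≤ ‖s‖/16`, `Re s ≥ - 9/16 h`, `‖s‖ ≤ |Re s| + |Im s|`.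
`Re z⁺ + |Im z⁺| / 2 ≥ Re s + h + |Im s| / 2 - (3/2) (‖s‖/16 + h/64)`; if `Re s ≤ 0` use
`‖s‖ ≤ 9/16 h + |Im s|`: the sum is `≥ h (1 - 9/16 - 27/512 - 3/128) + |Im s| (1/2 - 3/32) > 0`; if `Re s > 0` it is
`≥ (1 - 3/32) Re s + ...> 0`. `‖z⁺‖ ≥ ‖s + h‖ - ‖s‖/16 - h/64`, `‖s‖ ≤ (9/7) ‖s + h‖` (if `Re s ≥ - 9/16 h`,
`|Re s| ≤ (9/7) (Re s + h)`, for `Re s ≥ 0` trivial), `‖s + h‖ ≥ 7/16 h`, so
`‖z⁺‖ ≥ (1 - 9/112) (7/16) h - h/64 > h/4`. `‖z⁺‖ ≤ (17/16) (‖s‖) + 65/64 h < κ` as `‖s‖ ≤ 2 h + κ / 2`. -/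
theorem slit_mem (hh : 0 < h) (hκ : 100 * h < κ) {s z a : ℂ} (h1 : -(9 / 16 * h) ≤ s.re)
    (h2 : s.re ≤ 2 * h) (h3 : |s.im| ≤ κ / 2) (hz : ‖z - s‖ ≤ ‖s‖ / 16) (ha : ‖a - 1‖ ≤ 1 / 64) :
    z + h * a ∈ Sec (1 / 2) (h / 4) κ := by
  obtain ⟨e, he⟩ : ∃ e, e = z - s := ⟨_, rfl⟩
  obtain ⟨d, hd⟩ : ∃ d, d = h * (a - 1) := ⟨_, rfl⟩
  have hen : ‖e‖ ≤ ‖s‖ / 16 := by rw [he]; exact hz
  have hdn : ‖d‖ ≤ h / 64 := by
    rw [hd, norm_mul, Complex.norm_real, Real.norm_eq_abs, abs_of_pos hh]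
    have := mul_le_mul_of_nonneg_left ha hh.le
    linarith
  have hsum : z + h * a = (s + h) + (e + d) := by
    rw [he, hd]
    ring
  have hed : ‖e + d‖ ≤ ‖s‖ / 16 + h / 64 := (norm_add_le _ _).trans (add_le_add hen hdn)
  have hre := (Complex.abs_re_le_norm (e + d)).trans hed
  have him := (Complex.abs_im_le_norm (e + d)).trans hed
  have hs1 : ‖s‖ ≤ |s.re| + |s.im| := Complex.norm_le_abs_re_add_abs_im s
  have hi0 : 0 ≤ |s.im| := abs_nonneg _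
  have hzre : (z + h * a).re = s.re + h + (e + d).re := by
    rw [hsum]
    simp
  have hzim : (z + h * a).im = s.im + (e + d).im := by
    rw [hsum]
    simp
  have hre' := (abs_le.1 hre).1
  have habs : |s.im| - (‖s‖ / 16 + h / 64) ≤ |(z + h * a).im| := by
    rw [hzim]
    have h3 := abs_sub_abs_le_abs_sub s.im (-(e + d).im)
    rw [sub_neg_eq_add, abs_neg] at h3
    linarith
  have hsre : |s.re| ≤ 9 / 7 * (s.re + h) := by
    rw [abs_le]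
    constructor <;> linarith
  have hsre2 : |s.re| ≤ 2 * h := by
    rw [abs_le]
    constructor <;> linarith
  refine ⟨?_, ?_, ?_⟩
  · rw [hzre]
    rcases abs_cases s.re with ⟨h5, h6⟩ | ⟨h5, h6⟩ <;> rw [h5] at hs1 <;> linarith
  · have hsh : ‖s‖ ≤ 9 / 7 * ‖s + h‖ := by
      have h6 : ‖s‖ ^ 2 ≤ (9 / 7 * ‖s + h‖) ^ 2 := by
        rw [mul_pow, ← Complex.normSq_eq_norm_sq, ← Complex.normSq_eq_norm_sq,
          Complex.normSq_apply, Complex.normSq_apply]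
        have e1 : (s + h).re = s.re + h := by simp
        have e2 : (s + h).im = s.im := by simp
        rw [e1, e2]
        have h7 : s.re * s.re ≤ (9 / 7) ^ 2 * ((s.re + h) * (s.re + h)) := by
          have h8 := mul_self_le_mul_self (abs_nonneg s.re) hsre
          rw [abs_mul_abs_self] at h8
          linarith
        nlinarith [mul_self_nonneg s.im]
      exact le_of_sq_le_sq h6 (by positivity)
    have hsh2 : 7 / 16 * h ≤ ‖s + h‖ := by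
      have h6 := Complex.abs_re_le_norm (s + h)
      have e1 : (s + h).re = s.re + h := by simp
      rw [e1] at h6
      have h7 := le_abs_self (s.re + h)
      linarith
    have h6 : ‖s + h‖ - (‖s‖ / 16 + h / 64) ≤ ‖z + h * a‖ := by
      rw [hsum]
      have h7 := norm_sub_norm_le (s + h) (-(e + d))
      rw [sub_neg_eq_add, norm_neg] at h7
      linarith
    linarith
  · rw [hsum]
    have h6 : ‖s + h‖ ≤ ‖s‖ + h := by
      refine (norm_add_le _ _).trans ?_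
      rw [Complex.norm_real, Real.norm_eq_abs, abs_of_pos hh]
    have h7 := norm_add_le (s + h) (e + d)
    linarith

end Pool.Agent.MP_ae5b4e_an_AT
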