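import Pool.Agent.Lib.MP_ae5b4e_an_AT.SlitA

/-! # AT: the kick on both sides of the slit, analyticity -/

noncomputable section

namespace Pool.Agent.MP_ae5b4e_an_AT

open Complex Set Filter Topology Metric

variable {ℓ xb : ℂ} {ρ κ h : ℝ} {A : ℂ → ℂ} {γ₀ θb : ℂ} {t : ℝ} {L T R : ℂ × ℂ → ℂ} {sb : ℂ}
  {X Z : ℂ → ℂ}

private theorem SlitB_open (κ h : ℝ) : IsOpen (QQ κ h) := by
  have h1 : QQ κ h = {s : ℂ | |s.re| < 9 / 16 * h} ∩ {s : ℂ | |s.im| < κ / 2} := rfl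
  rw [h1]
  exact (isOpen_lt (Complex.continuous_re.abs) continuous_const).inter
    (isOpen_lt (Complex.continuous_im.abs) continuous_const)

/-- the facts on `s = h w` and `Z s` -/
private theorem SlitB_core (hT : TipN ℓ xb ρ κ h A γ₀ θb t L T R)
    (hC : Cur ℓ xb ρ κ h A γ₀ L T sb X Z) {w : ℂ} (h1 : -(1 / 2) ≤ w.re) (h2 : w.re ≤ 1 / 2)
    (h3 : |w.im| ≤ κ / (4 * h)) (h4 : h ^ 2 ≤ |w.re| ∨ h ^ 2 ≤ |w.im|) :
    (h : ℂ) * w ∈ QQ κ h ∧ -(9 / 16 * h) ≤ ((h : ℂ) * w).re ∧ ((h : ℂ) * w).re ≤ 2 * h ∧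
      |((h : ℂ) * w).im| ≤ κ / 2 ∧ ‖Z (h * w) - h * w‖ ≤ ‖(h : ℂ) * w‖ / 16 ∧
      15 / 16 * h ^ 3 ≤ ‖Z (h * w)‖ ∧ ‖Z (h * w)‖ < κ ∧ 0 < ‖(h : ℂ) * w‖ := by
  have hh := hT.h_pos
  have hκ := hT.h_lt
  have hre : ((h : ℂ) * w).re = h * w.re := by simp
  have him : ((h : ℂ) * w).im = h * w.im := by simp
  have hr1 : |w.re| ≤ 1 / 2 := abs_le.2 ⟨h1, h2⟩
  have hrs : |((h : ℂ) * w).re| ≤ h / 2 := by
    rw [hre, abs_mul, abs_of_pos hh]
    have := mul_le_mul_of_nonneg_left hr1 hh.le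
    linarith
  have his : |((h : ℂ) * w).im| ≤ κ / 4 := by
    rw [him, abs_mul, abs_of_pos hh]
    have h5 := mul_le_mul_of_nonneg_left h3 hh.le
    have h6 : h * (κ / (4 * h)) = κ / 4 := by
      field_simp
    rwa [h6] at h5
  have hwn : h ^ 2 ≤ ‖w‖ := by
    rcases h4 with h5 | h5
    · exact h5.trans (Complex.abs_re_le_norm w)
    · exact h5.trans (Complex.abs_im_le_norm w)
  have hsn : ‖(h : ℂ) * w‖ = h * ‖w‖ := by
    rw [norm_mul, Complex.norm_real, Real.norm_eq_abs, abs_of_pos hh]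
  have hs3 : h ^ 3 ≤ ‖(h : ℂ) * w‖ := by
    rw [hsn]
    have := mul_le_mul_of_nonneg_left hwn hh.le
    calc h ^ 3 = h * h ^ 2 := by ring
      _ ≤ _ := this
  have hs0 : 0 < ‖(h : ℂ) * w‖ := lt_of_lt_of_le (by positivity) hs3
  have hsu : ‖(h : ℂ) * w‖ ≤ h / 2 + κ / 4 := by
    have := Complex.norm_le_abs_re_add_abs_im ((h : ℂ) * w)
    linarith
  have hQ : (h : ℂ) * w ∈ QQ κ h := ⟨by linarith, by linarith⟩
  have hz := hC.Z_near _ hQ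
  have hz1 : ‖(h : ℂ) * w‖ - ‖(h : ℂ) * w‖ / 16 ≤ ‖Z (h * w)‖ := by
    have h5 := norm_sub_norm_le ((h : ℂ) * w) (Z (h * w))
    rw [norm_sub_rev] at h5
    linarith
  have hz2 : ‖Z (h * w)‖ ≤ ‖(h : ℂ) * w‖ + ‖(h : ℂ) * w‖ / 16 := by
    have h5 := norm_sub_norm_le (Z (h * w)) ((h : ℂ) * w)
    linarith
  refine ⟨hQ, ?_, ?_, by linarith, hz, by linarith, by linarith, hs0⟩
  · have := (abs_le.1 hrs).1
    linarith
  · have := (abs_le.1 hrs).2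
    linarith

/-- the composition -/
private theorem SlitB_main (hT : TipN ℓ xb ρ κ h A γ₀ θb t L T R)
    (hC : Cur ℓ xb ρ κ h A γ₀ L T sb X Z) (lf : ℂ → ℂ) {w : ℂ} (hQ : (h : ℂ) * w ∈ QQ κ h)
    (h1 : -(9 / 16 * h) ≤ ((h : ℂ) * w).re) (h2 : ((h : ℂ) * w).re ≤ 2 * h)
    (h3 : |((h : ℂ) * w).im| ≤ κ / 2) (hz : ‖Z (h * w) - h * w‖ ≤ ‖(h : ℂ) * w‖ / 16)
    (hlf : DifferentiableAt ℂ lf (Z (h * w))) (hlb : ‖h * lf (Z (h * w))‖ ≤ ρ / 16) :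
    DifferentiableAt ℂ (fun w : ℂ => R (X (h * w) + h * lf (Z (h * w)),
        Z (h * w) + h * A (X (h * w) + h * lf (Z (h * w)))) - γ₀) w ∧
      ‖R (X (h * w) + h * lf (Z (h * w)),
        Z (h * w) + h * A (X (h * w) + h * lf (Z (h * w)))) - γ₀‖ ≤ ‖γ₀‖ := by
  have hρ := hT.ρ_pos
  have hxb : X (h * w) + h * lf (Z (h * w)) ∈ ball xb ρ := by
    rw [mem_ball, dist_eq_norm]
    have e1 : X (h * w) + h * lf (Z (h * w)) - xb = (X (h * w) - xb) + h * lf (Z (h * w)) := by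
      ring
    rw [e1]
    have h5 := norm_add_le (X (h * w) - xb) (h * lf (Z (h * w)))
    have h6 := hC.X_mem _ hQ
    linarith
  have hmem : (X (h * w) + h * lf (Z (h * w)),
      Z (h * w) + h * A (X (h * w) + h * lf (Z (h * w)))) ∈ DR xb ρ κ h := by
    refine ⟨?_, ?_⟩
    · change ‖X (h * w) + h * lf (Z (h * w)) - xb‖ < ρ
      rw [← dist_eq_norm]
      exact hxb
    · exact slit_mem hT.h_pos hT.h_lt h1 h2 h3 hz (hT.A_near _ hxb)
  refine ⟨?_, hT.R_bd _ hmem⟩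
  have hO := (SlitB_open κ h).mem_nhds hQ
  have dm : DifferentiableAt ℂ (fun w : ℂ => (h : ℂ) * w) w := by fun_prop
  have dX : DifferentiableAt ℂ (fun w : ℂ => X (h * w)) w :=
    ((hC.X_an _ hQ).differentiableAt hO).comp w dm
  have dZ : DifferentiableAt ℂ (fun w : ℂ => Z (h * w)) w :=
    ((hC.Z_an _ hQ).differentiableAt hO).comp w dm
  have dl : DifferentiableAt ℂ (fun w : ℂ => lf (Z (h * w))) w :=
    DifferentiableAt.comp (g := lf) w hlf dZ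
  have dx : DifferentiableAt ℂ (fun w : ℂ => X (h * w) + h * lf (Z (h * w))) w :=
    dX.add (dl.const_mul _)
  have dA : DifferentiableAt ℂ (fun w : ℂ => A (X (h * w) + h * lf (Z (h * w)))) w :=
    DifferentiableAt.comp (g := A) w
      ((hT.A_an _ hxb).differentiableAt (isOpen_ball.mem_nhds hxb)) dx
  have dz : DifferentiableAt ℂ
      (fun w : ℂ => Z (h * w) + h * A (X (h * w) + h * lf (Z (h * w)))) w :=
    dZ.add (dA.const_mul _)
  exact (DifferentiableAt.comp (g := R) w (hT.R_an _ hmem).differentiableAt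
    (dx.prodMk dz)).sub_const _

/-- Proof. `s = h w ∈ QQ`, `s ≠ 0`, `‖s‖ ≥ h³`, `z = Z s`, `‖z - s‖ ≤ ‖s‖/16`, so
`‖z‖ ≥ (15/16) h³`, and `- z ∈ slitPlane` (`Re s ≤ 0`: if `Im z = 0` then `|Im s| ≤ ‖s‖/16`, so
`Re s ≤ -(15/16) ‖s‖`, `Re z < 0`). `x⁺ = X s + h lam`: `‖x⁺ - xb‖ ≤ ρ/8 + ρ/16` (`slit_lam`), so
`x⁺ ∈ ball xb ρ` and `A` is differentiable at `x⁺`; `slit_mem`; `R` is analytic at the state;
composition. Bound: `R_bd`. -/
theorem slit_left (hT : TipN ℓ xb ρ κ h A γ₀ θb t L T R) (hC : Cur ℓ xb ρ κ h A γ₀ L T sb X Z)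
    {w : ℂ} (h1 : -(1 / 2) ≤ w.re) (h2 : w.re ≤ 0) (h3 : |w.im| ≤ κ / (4 * h))
    (h4 : h ^ 2 ≤ -w.re ∨ h ^ 2 ≤ |w.im|) :
    DifferentiableAt ℂ (Um ℓ h A R γ₀ X Z) w ∧ ‖Um ℓ h A R γ₀ X Z w‖ ≤ ‖γ₀‖ := by
  have hh := hT.h_pos
  obtain ⟨hQ, k1, k2, k3, k4, k5, k6, k7⟩ := SlitB_core hT hC h1 (by linarith) h3
    (h4.imp_left fun h5 => h5.trans (neg_le_abs _))
  obtain ⟨-, hlb⟩ := slit_lam hT k5 k6
  have hsre : ((h : ℂ) * w).re ≤ 0 := by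
    have hre : ((h : ℂ) * w).re = h * w.re := by simp
    rw [hre]
    exact mul_nonpos_of_nonneg_of_nonpos hh.le h2
  have hsl : -Z (h * w) ∈ slitPlane := by
    rw [mem_slitPlane_iff, neg_re, neg_im]
    by_cases hi : (Z (h * w)).im = 0
    · left
      have h5 : |((h : ℂ) * w).im| ≤ ‖(h : ℂ) * w‖ / 16 := by
        have h6 := (Complex.abs_im_le_norm (Z (h * w) - h * w)).trans k4
        rw [sub_im, hi, zero_sub, abs_neg] at h6
        exact h6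
      have h6 := Complex.norm_le_abs_re_add_abs_im ((h : ℂ) * w)
      rw [abs_of_nonpos hsre] at h6
      have h7 := (Complex.abs_re_le_norm (Z (h * w) - h * w)).trans k4
      rw [sub_re] at h7
      have h8 := (abs_le.1 h7).2
      linarith
    · right
      exact neg_ne_zero.2 hi
  have hn : ‖cexp (ℓ - Real.pi * I) * (-Z (h * w))‖ < 1 := by
    have e1 : cexp (ℓ - Real.pi * I) * (-Z (h * w)) = cexp ℓ * Z (h * w) := by
      rw [Complex.exp_sub, Complex.exp_pi_mul_I]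
      ring
    rw [e1, norm_mul]
    have h5 : ‖cexp ℓ‖ * ‖Z (h * w)‖ ≤ ‖cexp ℓ‖ * κ :=
      mul_le_mul_of_nonneg_left k6.le (norm_nonneg _)
    linarith [hT.κ_exp]
  have hlf : DifferentiableAt ℂ (fun z => lam (ℓ - Real.pi * I) (-z)) (Z (h * w)) :=
    DifferentiableAt.comp (g := lam (ℓ - Real.pi * I)) _
      (hasDerivAt_lam hsl hn).differentiableAt differentiable_neg.differentiableAt
  exact SlitB_main hT hC (fun z => lam (ℓ - Real.pi * I) (-z)) hQ k1 k2 k3 k4 hlf hlb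

/-- Proof. As `slit_left`, with `z ∈ slitPlane` (`0 ≤ Re s`). -/
theorem slit_right (hT : TipN ℓ xb ρ κ h A γ₀ θb t L T R) (hC : Cur ℓ xb ρ κ h A γ₀ L T sb X Z)
    {w : ℂ} (h1 : 0 ≤ w.re) (h2 : w.re ≤ 1 / 2) (h3 : |w.im| ≤ κ / (4 * h))
    (h4 : h ^ 2 ≤ w.re ∨ h ^ 2 ≤ |w.im|) :
    DifferentiableAt ℂ (Up ℓ h A R γ₀ X Z) w ∧ ‖Up ℓ h A R γ₀ X Z w‖ ≤ ‖γ₀‖ := by
  have hh := hT.h_pos
  obtain ⟨hQ, k1, k2, k3, k4, k5, k6, k7⟩ := SlitB_core hT hC (by linarith) h2 h3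
    (h4.imp_left fun h5 => h5.trans (le_abs_self _))
  obtain ⟨hlb, -⟩ := slit_lam hT k5 k6
  have hsre : 0 ≤ ((h : ℂ) * w).re := by
    have hre : ((h : ℂ) * w).re = h * w.re := by simp
    rw [hre]
    exact mul_nonneg hh.le h1
  have hsl : Z (h * w) ∈ slitPlane := by
    rw [mem_slitPlane_iff]
    by_cases hi : (Z (h * w)).im = 0
    · left
      have h5 : |((h : ℂ) * w).im| ≤ ‖(h : ℂ) * w‖ / 16 := by
        have h6 := (Complex.abs_im_le_norm (Z (h * w) - h * w)).trans k4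
        rw [sub_im, hi, zero_sub, abs_neg] at h6
        exact h6
      have h6 := Complex.norm_le_abs_re_add_abs_im ((h : ℂ) * w)
      rw [abs_of_nonneg hsre] at h6
      have h7 := (Complex.abs_re_le_norm (Z (h * w) - h * w)).trans k4
      rw [sub_re] at h7
      have h8 := (abs_le.1 h7).1
      linarith
    · right
      exact hi
  have hn : ‖cexp ℓ * Z (h * w)‖ < 1 := by
    rw [norm_mul]
    have h5 : ‖cexp ℓ‖ * ‖Z (h * w)‖ ≤ ‖cexp ℓ‖ * κ :=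
      mul_le_mul_of_nonneg_left k6.le (norm_nonneg _)
    linarith [hT.κ_exp]
  exact SlitB_main hT hC (lam ℓ) hQ k1 k2 k3 k4 (hasDerivAt_lam hsl hn).differentiableAt hlb

end Pool.Agent.MP_ae5b4e_an_AT
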