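import Pool.Agent.Lib.MP_ae5b4e_an_AT.SlitA

/-! # AT: the kick on both sides of the slit, relations -/

noncomputable section

namespace Pool.Agent.MP_ae5b4e_an_AT

open Complex Set Filter Topology Metric

variable {ℓ xb : ℂ} {ρ κ h : ℝ} {A : ℂ → ℂ} {γ₀ θb : ℂ} {t : ℝ} {L T R : ℂ × ℂ → ℂ} {sb : ℂ}
  {X Z : ℂ → ℂ}

namespace SlitC

theorem mul_mem_QQ (hT : TipN ℓ xb ρ κ h A γ₀ θb t L T R) {w : ℂ} (h1 : |w.re| ≤ 1 / 2)
    (h3 : |w.im| ≤ κ / (4 * h)) : h * w ∈ QQ κ h := by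
  have hh := hT.h_pos
  have hκ := hT.h_lt
  have e1 : (h * w : ℂ).re = h * w.re := by simp
  have e2 : (h * w : ℂ).im = h * w.im := by simp
  constructor
  · rw [e1, abs_mul, abs_of_pos hh]
    have := mul_le_mul_of_nonneg_left h1 hh.le
    linarith
  · rw [e2, abs_mul, abs_of_pos hh]
    have h4 := mul_le_mul_of_nonneg_left h3 hh.le
    have h5 : h * (κ / (4 * h)) = κ / 4 := by
      field_simp
    linarith

theorem z_bd (hT : TipN ℓ xb ρ κ h A γ₀ θb t L T R) (hC : Cur ℓ xb ρ κ h A γ₀ L T sb X Z)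
    {s : ℂ} (hs : s ∈ QQ κ h) (h3 : h ^ 3 ≤ ‖s‖) : 15 / 16 * h ^ 3 ≤ ‖Z s‖ ∧ ‖Z s‖ < κ := by
  have hh := hT.h_pos
  have hκ := hT.h_lt
  have hz := hC.Z_near s hs
  have h4 : ‖s‖ ≤ |s.re| + |s.im| := Complex.norm_le_abs_re_add_abs_im s
  have h5 := hs.1
  have h6 := hs.2
  have h7 : ‖Z s‖ ≤ ‖s‖ + ‖Z s - s‖ := by
    have := norm_add_le s (Z s - s)
    rwa [add_sub_cancel] at this
  have h8 : ‖s‖ ≤ ‖Z s‖ + ‖Z s - s‖ := by
    have := norm_sub_le (Z s) (Z s - s)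
    rwa [sub_sub_cancel] at this
  constructor <;> linarith

theorem mem_both (hT : TipN ℓ xb ρ κ h A γ₀ θb t L T R) (hC : Cur ℓ xb ρ κ h A γ₀ L T sb X Z)
    {s : ℂ} (hs : s ∈ QQ κ h) (h3 : h ^ 3 ≤ ‖s‖) :
    Fs ℓ h A (X s, Z s) ∈ DR xb ρ κ h ∧ Wm ℓ h A (X s, Z s) ∈ DR xb ρ κ h := by
  have hh := hT.h_pos
  have hκ := hT.h_lt
  have hρ := hT.ρ_pos
  obtain ⟨hz1, hz2⟩ := z_bd hT hC hs h3
  obtain ⟨hl1, hl2⟩ := slit_lam hT hz1 hz2
  have hx := hC.X_mem s hs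
  have hre := (abs_lt.1 hs.1)
  have hb : ∀ y : ℂ, ‖y‖ ≤ ρ / 16 → ‖X s + y - xb‖ < ρ := by
    intro y hy
    have h4 : X s + y - xb = (X s - xb) + y := by ring
    rw [h4]
    have := norm_add_le (X s - xb) y
    linarith
  have key : ∀ y : ℂ, ‖y‖ ≤ ρ / 16 → (X s + y, Z s + h * A (X s + y)) ∈ DR xb ρ κ h := by
    intro y hy
    refine ⟨hb y hy, ?_⟩
    refine slit_mem hh hκ hre.1.le (by linarith) hs.2.le (hC.Z_near s hs)
      (hT.A_near (X s + y) ?_)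
    rw [mem_ball, dist_eq_norm]
    exact hb y hy
  exact ⟨key _ hl1, key _ hl2⟩

end SlitC

/-- Below the tip the two sides agree. Proof. `Im (Z s) < 0` (`Re s = 0`, `Im s < 0`,
`‖Z s - s‖ ≤ ‖s‖/16`): `lam_left_low`. More generally the two steps agree if `Im (Z s) < 0`. -/
theorem slit_low (hT : TipN ℓ xb ρ κ h A γ₀ θb t L T R) (hC : Cur ℓ xb ρ κ h A γ₀ L T sb X Z)
    {w : ℂ} (h1 : |w.re| ≤ 1 / 2) (h2 : 16 * |w.re| < 15 * -w.im) (h3 : -w.im ≤ κ / (4 * h)) :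
    Um ℓ h A R γ₀ X Z w = Up ℓ h A R γ₀ X Z w := by
  have hh := hT.h_pos
  have hre0 : 0 ≤ |w.re| := abs_nonneg _
  have him : |w.im| = -w.im := abs_of_nonpos (by linarith)
  have hs : (h * w : ℂ) ∈ QQ κ h := SlitC.mul_mem_QQ hT h1 (by rw [him]; exact h3)
  have hz : (Z (h * w)).im < 0 := by
    have h4 := hC.Z_near _ hs
    have h5 := (Complex.abs_im_le_norm (Z (h * w) - h * w)).trans h4
    have h6 : ‖(h * w : ℂ)‖ ≤ h * (|w.re| + |w.im|) := by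
      rw [norm_mul, Complex.norm_real, Real.norm_eq_abs, abs_of_pos hh]
      exact mul_le_mul_of_nonneg_left (Complex.norm_le_abs_re_add_abs_im w) hh.le
    have h7 : (Z (h * w) - h * w).im = (Z (h * w)).im - h * w.im := by simp
    rw [h7] at h5
    have h8 := (abs_le.1 h5).2
    have h9 : h * (16 * |w.re|) < h * (15 * -w.im) := mul_lt_mul_of_pos_left h2 hh
    rw [him] at h6
    have h10 : 0 ≤ h * |w.re| := by positivity
    linarith
  unfold Um Up Wm Fs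
  rw [lam_left_low hz]

/-- Periodicity. Proof. `s = h w`, `s, s + h ∈ QQ`; `Cur.per`: the state at `s + h` is
`u' = Wm (X s, Z s)`, so `Up (w + 1) = R (Fs u') - γ₀` and `Um w = R u' - γ₀`: `R_inv`, where
`u' ∈ DR` (`slit_mem` at `s`) and `Fs u' ∈ DR` (`slit_mem` at `s + h`, `slit_lam`). -/
theorem slit_per (hT : TipN ℓ xb ρ κ h A γ₀ θb t L T R) (hC : Cur ℓ xb ρ κ h A γ₀ L T sb X Z)
    {w : ℂ} (h1 : w.re = -(1 / 2)) (h3 : |w.im| ≤ κ / (4 * h)) :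
    Um ℓ h A R γ₀ X Z w = Up ℓ h A R γ₀ X Z (w + 1) := by
  have hh := hT.h_pos
  have hκ := hT.h_lt
  have hκ1 := hT.κ_le
  have hs : (h * w : ℂ) ∈ QQ κ h := SlitC.mul_mem_QQ hT (by rw [h1]; norm_num) h3
  have e1 : (h * (w + 1) : ℂ) = h * w + h := by ring
  have hs' : (h * w + h : ℂ) ∈ QQ κ h := by
    rw [← e1]
    refine SlitC.mul_mem_QQ hT ?_ ?_
    · rw [Complex.add_re, h1, Complex.one_re]
      norm_num
    · rw [Complex.add_im, Complex.one_im, add_zero]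
      exact h3
  have hh3 : h ^ 3 ≤ h / 2 := by
    have h4 : h ^ 2 ≤ 1 / 2 := by nlinarith
    calc h ^ 3 = h * h ^ 2 := by ring
      _ ≤ h * (1 / 2) := mul_le_mul_of_nonneg_left h4 hh.le
      _ = h / 2 := by ring
  have hn1 : h ^ 3 ≤ ‖(h * w : ℂ)‖ := by
    have h4 := Complex.abs_re_le_norm (h * w : ℂ)
    have h5 : (h * w : ℂ).re = -(h / 2) := by
      have : (h * w : ℂ).re = h * w.re := by simp
      rw [this, h1]
      ring
    rw [h5, abs_neg, abs_of_pos (by positivity)] at h4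
    linarith
  have hn2 : h ^ 3 ≤ ‖(h * w + h : ℂ)‖ := by
    have h4 := Complex.abs_re_le_norm (h * w + h : ℂ)
    have h5 : (h * w + h : ℂ).re = h / 2 := by
      have : (h * w + h : ℂ).re = h * w.re + h := by simp
      rw [this, h1]
      ring
    rw [h5, abs_of_pos (by positivity)] at h4
    linarith
  have hper := hC.per _ hs hs'
  have hu : (X (h * w + h), Z (h * w + h)) ∈ DR xb ρ κ h := by
    rw [hper]
    exact (SlitC.mem_both hT hC hs hn1).2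
  have hu2 := (SlitC.mem_both hT hC hs' hn2).1
  unfold Um Up
  rw [e1, hT.R_inv _ hu hu2, ← hper]

/-- THE JUMP. Proof. `s = i h τ`, `z = Z s`, `Im z > 0`: `lam (ℓ - π i) (-z) = lam ℓ z + 2 π i`
(`lam_left_up`). With `x₋ = X s + h lam (ℓ - π i) (-z)`, `x₊ = X s + h lam ℓ z = x₋ - 2 π i h`:
`Up - Um = R (x₊, z + h A x₊) - R (x₋, z + h A x₋)`; `R_aff` (both in `DR`: `slit_lam`, `slit_mem`);
`‖x₊ - x₋‖ = 2 π h`. -/
theorem slit_jump (hT : TipN ℓ xb ρ κ h A γ₀ θb t L T R) (hC : Cur ℓ xb ρ κ h A γ₀ L T sb X Z)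
    {τ : ℝ} (h1 : h ^ 2 ≤ τ) (h3 : τ ≤ κ / (4 * h)) :
    ‖Up ℓ h A R γ₀ X Z (I * τ) - Um ℓ h A R γ₀ X Z (I * τ) +
      2 * Real.pi * I * h * (cexp ℓ * γ₀)‖ ≤ ‖2 * Real.pi * I * h * (cexp ℓ * γ₀)‖ / 4 := by
  have hh := hT.h_pos
  have hτ : 0 < τ := lt_of_lt_of_le (by positivity) h1
  have hre : (I * τ : ℂ).re = 0 := by simp
  have him : (I * τ : ℂ).im = τ := by simp
  have hs : (h * (I * τ) : ℂ) ∈ QQ κ h := by
    refine SlitC.mul_mem_QQ hT ?_ ?_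
    · rw [hre, abs_zero]
      norm_num
    · rw [him, abs_of_pos hτ]
      exact h3
  have hns : ‖(h * (I * τ) : ℂ)‖ = h * τ := by
    rw [norm_mul, norm_mul, Complex.norm_I, Complex.norm_real, Complex.norm_real,
      Real.norm_eq_abs, Real.norm_eq_abs, abs_of_pos hh, abs_of_pos hτ, one_mul]
  have hn : h ^ 3 ≤ ‖(h * (I * τ) : ℂ)‖ := by
    rw [hns]
    calc h ^ 3 = h * h ^ 2 := by ring
      _ ≤ h * τ := mul_le_mul_of_nonneg_left h1 hh.le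
  obtain ⟨hF, hW⟩ := SlitC.mem_both hT hC hs hn
  have hz : 0 < (Z (h * (I * τ))).im := by
    have h4 := hC.Z_near _ hs
    have h5 := (Complex.abs_im_le_norm (Z (h * (I * τ)) - h * (I * τ))).trans h4
    have h7 : (Z (h * (I * τ)) - h * (I * τ)).im = (Z (h * (I * τ))).im - h * τ := by simp
    rw [h7, hns] at h5
    have h8 := (abs_le.1 h5).1
    have h9 : 0 < h * τ := by positivity
    linarith
  have hlam := lam_left_up (ℓ := ℓ) hz
  unfold Fs at hF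
  unfold Wm at hW
  unfold Um Up Wm Fs
  dsimp only at hF hW ⊢
  have haff := hT.R_aff _ _ _ hF hW
  rw [hlam] at haff ⊢
  have e1 : (X (h * (I * τ)) + h * lam ℓ (Z (h * (I * τ)))) -
      (X (h * (I * τ)) + h * (lam ℓ (Z (h * (I * τ))) + 2 * Real.pi * I)) =
      -(2 * Real.pi * I * h) := by ring
  rw [e1, norm_neg] at haff
  have e2 : ∀ a b : ℂ, a - γ₀ - (b - γ₀) + 2 * Real.pi * I * h * (cexp ℓ * γ₀) =
      a - b - cexp ℓ * γ₀ * -(2 * Real.pi * I * h) := fun a b => by ring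
  rw [e2]
  refine haff.trans ?_
  rw [norm_mul (2 * Real.pi * I * h : ℂ)]
  have h5 : 0 ≤ ‖(2 * Real.pi * I * h : ℂ)‖ * ‖cexp ℓ * γ₀‖ := by positivity
  linarith

end Pool.Agent.MP_ae5b4e_an_AT
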