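import Pool.Agent.Lib.MP_ae5b4e_an_AT.Near
import Pool.Agent.Lib.MP_ae5b4e_an_AT.Curve
import Pool.Agent.Lib.MP_ae5b4e_an_AT.LowId
import Pool.Agent.Lib.MP_ae5b4e_an_AT.SlitB
import Pool.Agent.Lib.MP_ae5b4e_an_AT.SlitC
import Pool.Agent.Lib.MP_ae5b4e_an_AT.Cont

/-! # AT: the abstract tip theorem -/

noncomputable section

namespace Pool.Agent.MP_ae5b4e_an_AT

open Complex Set Filter Topology Metric MeasureTheory intervalIntegral

/-- Proof. `exp (- c / h) = o(h)` and `h² = o(h)` for `h → 0+`. -/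
theorem small_err {κ₁ M m : ℝ} (hκ : 0 < κ₁) (hM : 0 ≤ M) (hm : 0 < m) : ∃ h₁ : ℝ, 0 < h₁ ∧
    ∀ h : ℝ, 0 < h → h ≤ h₁ → 1 ≤ κ₁ / (4 * h) ∧ h ^ 2 ≤ 1 / 20 ∧
      M * (Real.exp (-(2 * Real.pi * (κ₁ / (4 * h)))) + 16 * h ^ 2) ≤ h * m / 8 := by
  set c : ℝ := Real.pi * κ₁ / 2 with hc
  have hc0 : 0 < c := by positivity
  set D : ℝ := 8 * (M + 1) * (2 / c ^ 2 + 16) with hD
  have hD0 : 0 < D := by positivity
  refine ⟨min (κ₁ / 4) (min (1 / 5) (m / D)), by positivity, ?_⟩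
  intro h h0 hle
  have h1 : h ≤ κ₁ / 4 := hle.trans (min_le_left _ _)
  have h2 : h ≤ 1 / 5 := hle.trans ((min_le_right _ _).trans (min_le_left _ _))
  have h3 : h ≤ m / D := hle.trans ((min_le_right _ _).trans (min_le_right _ _))
  refine ⟨?_, ?_, ?_⟩
  · rw [le_div_iff₀ (by positivity)]
    linarith
  · nlinarith
  · have e1 : 2 * Real.pi * (κ₁ / (4 * h)) = c / h := by
      rw [hc]
      field_simp
      ring
    have e2 : Real.exp (-(2 * Real.pi * (κ₁ / (4 * h)))) ≤ 2 / c ^ 2 * h ^ 2 := by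
      rw [e1, Real.exp_neg]
      have hy : 0 < c / h := by positivity
      have h4 := Real.quadratic_le_exp_of_nonneg hy.le
      have h5 : (c / h) ^ 2 / 2 ≤ Real.exp (c / h) := by linarith
      have h6 : (Real.exp (c / h))⁻¹ ≤ ((c / h) ^ 2 / 2)⁻¹ := inv_anti₀ (by positivity) h5
      refine h6.trans (le_of_eq ?_)
      field_simp
    have h7 : M * (Real.exp (-(2 * Real.pi * (κ₁ / (4 * h)))) + 16 * h ^ 2) ≤
        (M + 1) * ((2 / c ^ 2 + 16) * h ^ 2) := by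
      refine mul_le_mul (by linarith) (by linarith) (by positivity) (by linarith)
    have h8 : h * D ≤ m := by rwa [le_div_iff₀ hD0] at h3
    have h9 : (M + 1) * ((2 / c ^ 2 + 16) * h ^ 2) = h * (h * D) / 8 := by
      rw [hD]
      ring
    rw [h9] at h7
    have h10 : h * (h * D) ≤ h * m := mul_le_mul_of_nonneg_left h8 h0.le
    linarith

/-- THE ABSTRACT TIP THEOREM: the first mode of the kick at a tip is at least
`(h / 4) |e^ℓ γ₀| exp (2 π (- Im s_b) / h)`, with `|s_b - θ_b| ≤ 4 t`.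

Proof. `near_tip`: `t₀`; for `t, r`: `ρ₁, κ₁, h₁, δ₁`. `κ := κ₁ / 8`; `small_err` with `M = ‖γ₀‖`,
`m = ‖e^ℓ γ₀‖`, `γ₀ = exp (- Φ xb)`. For the given data: `curve`: `sb, X, Z`. `T' := κ₁ / (4 h)`, `d := h²`,
`f := Um`, `g := Up`: hypotheses of `contour_low` from `slit_left`, `slit_right`, `slit_low`, `slit_per`,
`slit_jump`, with `m = 2 π i h e^ℓ γ₀`, `‖m‖ / (8 π) = h ‖e^ℓ γ₀‖ / 4`, `‖m‖ / (16 π) = h ‖e^ℓ γ₀‖ / 8`.
`y := sb.im - κ₁ / 4`. For `x ∈ [-1/2, 1/2]`, `w = x - i T'`, `s = h w = h x - i κ₁ / 4`: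
`sb.re + h x + y i = sb + s`, `low_id`: `y ≤ y₁` and `B (sb + s) = Um w = Up w` (`slit_low`, since
`16 |x| ≤ 8 < 15 T'`: make `h₁` so small that `T' ≥ 1`), and `exp (2 π i (sb + s) / h) = ee (sb / h) ee w`. So the
integral is `ee (sb / h)` times the sum in `contour_low` (split at `0`), and
`‖ee (sb / h)‖ = exp (- 2 π Im sb / h)`. -/
theorem tip_abs {ℓ xb : ℂ} {ρ : ℝ} {A₀ Φ : ℂ → ℂ} (hS : Side ℓ xb ρ A₀ Φ) :
    ∃ t₀ : ℝ, 0 < t₀ ∧ t₀ ≤ 1 / 4 ∧ ∀ t : ℝ, 0 < t → t ≤ t₀ → ∀ r : ℝ, 0 < r →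
      ∃ κ h₁ δ₁ : ℝ, 0 < κ ∧ κ ≤ t / 32 ∧ 0 < h₁ ∧ 0 < δ₁ ∧
        ∀ (h : ℝ) (A : ℂ → ℂ), 0 < h → h ≤ h₁ → Cl xb ρ A A₀ δ₁ →
          ∀ (θb : ℂ) (S Γ Γr : ℂ × ℂ → ℂ) (B : ℂ → ℂ) (y₁ : ℝ),
          BaseG (ℓ - Real.pi * I) (-xb) ρ (fun x => Φ (-x)) t r h (fun x => A (-x)) δ₁ Γ →
          BaseS (ℓ - Real.pi * I) (-xb) ρ (fun x => Φ (-x)) t r h (fun x => A (-x)) δ₁ θb S Γ →
          BaseG ℓ xb ρ Φ t r h A δ₁ Γr →
          Kick ℓ xb ρ Φ t r h A (cexp (-Φ xb)) κ y₁ S Γ Γr B →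
            ∃ (sb : ℂ) (y : ℝ), ‖sb - θb‖ ≤ 4 * t ∧ θb.im - 5 * t ≤ y ∧ y ≤ y₁ ∧
              h / 4 * ‖cexp ℓ * cexp (-Φ xb)‖ * Real.exp (-(2 * Real.pi * sb.im / h)) ≤
                ‖∫ x : ℝ in (-(1 / 2))..(1 / 2), B (sb.re + h * x + y * I) *
                  cexp (2 * Real.pi * I * (sb.re + h * x + y * I) / h)‖ := by
  obtain ⟨t₀, ht₀, ht₀', hnear⟩ := near_tip hS
  refine ⟨t₀, ht₀, ht₀', fun t ht htt r hr => ?_⟩
  obtain ⟨ρ₁, κ₁, h₁, δ₁, hρ₁, hρ₁', hκ₁, hκ₁', hh₁, hδ₁, hN⟩ := hnear t ht htt r hr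
  have hγ0 : cexp (-Φ xb) ≠ 0 := Complex.exp_ne_zero _
  have hm0 : 0 < ‖cexp ℓ * cexp (-Φ xb)‖ :=
    norm_pos_iff.2 (mul_ne_zero (Complex.exp_ne_zero _) hγ0)
  obtain ⟨h₂, hh₂, herr⟩ := small_err hκ₁ (norm_nonneg (cexp (-Φ xb))) hm0
  refine ⟨κ₁ / 8, min h₁ h₂, δ₁, by positivity, by linarith, lt_min hh₁ hh₂, hδ₁, ?_⟩
  intro h A h0 hle hA θb S Γ Γr B y₁ hG hBS hGr hK
  obtain ⟨hT, hL⟩ := hN h A h0 (hle.trans (min_le_left _ _)) hA θb S Γ Γr hG hBS hGr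
  obtain ⟨he1, he2, he3⟩ := herr h h0 (hle.trans (min_le_right _ _))
  obtain ⟨sb, X, Z, hC, hsb⟩ := curve hT
  have hhC : (h : ℂ) ≠ 0 := by exact_mod_cast h0.ne'
  obtain ⟨T', hT'⟩ : ∃ T' : ℝ, T' = κ₁ / (4 * h) := ⟨_, rfl⟩
  have hhT : h * T' = κ₁ / 4 := by
    rw [hT']
    field_simp
  have hT1 : 1 ≤ T' := by
    rw [hT']
    exact he1
  have hd1 : h ^ 2 ≤ 1 / 20 := he2
  have hcl := contour_low (f := Um ℓ h A (Rf ℓ h A ⌊t / h⌋₊ Γr) (cexp (-Φ xb)) X Z)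
    (g := Up ℓ h A (Rf ℓ h A ⌊t / h⌋₊ Γr) (cexp (-Φ xb)) X Z) (T := T') (d := h ^ 2)
    (M := ‖cexp (-Φ xb)‖) (m := 2 * Real.pi * I * h * (cexp ℓ * cexp (-Φ xb)))
    (by positivity) hd1 hT1 (norm_nonneg _)
    (fun w a1 a2 a3 a4 => slit_left hT hC a1 a2 (by rw [← hT']; exact a3) a4)
    (fun w a1 a2 a3 a4 => slit_right hT hC a1 a2 (by rw [← hT']; exact a3) a4)
    (fun w a1 a2 a3 => slit_low hT hC (by rw [a1]; norm_num) (by rw [a1, abs_zero]; linarith)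
      (by rw [← hT']; exact a3))
    (fun w a1 a2 => slit_per hT hC a1 (by rw [← hT']; exact a2))
    (fun τ a1 a2 => slit_jump hT hC a1 (by rw [← hT']; exact a2))
    (by
      have e1 : ‖2 * (Real.pi : ℂ) * I * h * (cexp ℓ * cexp (-Φ xb))‖ =
          2 * Real.pi * h * ‖cexp ℓ * cexp (-Φ xb)‖ := by
        rw [norm_mul, norm_mul, norm_mul, norm_mul, Complex.norm_I, Complex.norm_real,
          Complex.norm_real, Real.norm_of_nonneg Real.pi_pos.le, Real.norm_of_nonneg h0.le]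
        simp
      rw [e1, hT']
      refine he3.trans (le_of_eq ?_)
      field_simp
      ring)
  have e1 : ‖2 * (Real.pi : ℂ) * I * h * (cexp ℓ * cexp (-Φ xb))‖ =
      2 * Real.pi * h * ‖cexp ℓ * cexp (-Φ xb)‖ := by
    rw [norm_mul, norm_mul, norm_mul, norm_mul, Complex.norm_I, Complex.norm_real,
      Complex.norm_real, Real.norm_of_nonneg Real.pi_pos.le, Real.norm_of_nonneg h0.le]
    simp
  have e2 : 2 * Real.pi * h * ‖cexp ℓ * cexp (-Φ xb)‖ / (8 * Real.pi) =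
      h / 4 * ‖cexp ℓ * cexp (-Φ xb)‖ := by
    field_simp
    ring
  rw [e1, e2] at hcl
  -- identification
  have hid : ∀ x : ℝ, |x| ≤ 1 / 2 → ((sb + h * ((x : ℂ) - T' * I)).im ≤ y₁ ∧
      B (sb + h * ((x : ℂ) - T' * I)) =
        Um ℓ h A (Rf ℓ h A ⌊t / h⌋₊ Γr) (cexp (-Φ xb)) X Z ((x : ℂ) - T' * I)) := by
    intro x hx
    have s1 : ((h : ℂ) * ((x : ℂ) - T' * I)).re = h * x := by simp
    have s2 : ((h : ℂ) * ((x : ℂ) - T' * I)).im = -(κ₁ / 4) := by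
      rw [← hhT]
      simp
    exact low_id hT hL hρ₁' hκ₁' hC hK (s := (h : ℂ) * ((x : ℂ) - T' * I))
      (by
        rw [s1, abs_mul, abs_of_pos h0]
        nlinarith) s2
  obtain ⟨y, hy⟩ : ∃ y : ℝ, y = sb.im - κ₁ / 4 := ⟨_, rfl⟩
  have hpt : ∀ x : ℝ, (sb.re : ℂ) + h * x + y * I = sb + h * ((x : ℂ) - T' * I) := by
    intro x
    have e3 : (h : ℂ) * T' = κ₁ / 4 := by exact_mod_cast hhT
    have e4 : (y : ℂ) = sb.im - κ₁ / 4 := by
      rw [hy]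
      push_cast
      ring
    rw [e4, mul_sub, ← mul_assoc, e3]
    nth_rewrite 3 [← Complex.re_add_im sb]
    ring
  refine ⟨sb, y, hsb, ?_, ?_, ?_⟩
  · have h1 := (abs_le.1 ((Complex.abs_im_le_norm (sb - θb)).trans hsb)).1
    rw [Complex.sub_im] at h1
    rw [hy]
    linarith
  · have h1 := (hid 0 (by norm_num)).1
    rw [← hpt 0] at h1
    simpa using h1
  have hexp : ∀ x : ℝ, cexp (2 * Real.pi * I * ((sb.re : ℂ) + h * x + y * I) / h) =
      ee (sb / h) * ee ((x : ℂ) - T' * I) := by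
    intro x
    rw [hpt x]
    unfold ee
    rw [← Complex.exp_add]
    congr 1
    field_simp
  have hF1 : ∀ x ∈ uIcc (-(1 / 2) : ℝ) 0, B ((sb.re : ℂ) + h * x + y * I) *
      cexp (2 * Real.pi * I * ((sb.re : ℂ) + h * x + y * I) / h) =
      ee (sb / h) * (Um ℓ h A (Rf ℓ h A ⌊t / h⌋₊ Γr) (cexp (-Φ xb)) X Z ((x : ℂ) - T' * I) *
        ee ((x : ℂ) - T' * I)) := by
    intro x hx
    rw [uIcc_of_le (by norm_num)] at hx
    rw [hexp, hpt, (hid x (abs_le.2 ⟨hx.1, by linarith [hx.2]⟩)).2]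
    ring
  have hF2 : ∀ x ∈ uIcc (0 : ℝ) (1 / 2), B ((sb.re : ℂ) + h * x + y * I) *
      cexp (2 * Real.pi * I * ((sb.re : ℂ) + h * x + y * I) / h) =
      ee (sb / h) * (Up ℓ h A (Rf ℓ h A ⌊t / h⌋₊ Γr) (cexp (-Φ xb)) X Z ((x : ℂ) - T' * I) *
        ee ((x : ℂ) - T' * I)) := by
    intro x hx
    rw [uIcc_of_le (by norm_num)] at hx
    have hx' : |x| ≤ 1 / 2 := abs_le.2 ⟨by linarith [hx.1], hx.2⟩
    have s1 : ((x : ℂ) - T' * I).re = x := by simp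
    have s2 : ((x : ℂ) - T' * I).im = -T' := by simp
    have h1 : Um ℓ h A (Rf ℓ h A ⌊t / h⌋₊ Γr) (cexp (-Φ xb)) X Z ((x : ℂ) - T' * I) =
        Up ℓ h A (Rf ℓ h A ⌊t / h⌋₊ Γr) (cexp (-Φ xb)) X Z ((x : ℂ) - T' * I) :=
      slit_low hT hC (by rw [s1]; exact hx') (by rw [s1, s2]; linarith)
        (by rw [s2, ← hT', neg_neg])
    rw [hexp, hpt, (hid x hx').2, h1]
    ring
  have hcx : Continuous fun x : ℝ => (x : ℂ) - T' * I := by fun_prop
  have hce : Continuous fun x : ℝ => ee ((x : ℂ) - T' * I) := by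
    unfold ee
    fun_prop
  have hI1 : IntervalIntegrable (fun x : ℝ => B ((sb.re : ℂ) + h * x + y * I) *
      cexp (2 * Real.pi * I * ((sb.re : ℂ) + h * x + y * I) / h)) volume (-(1 / 2)) 0 := by
    refine ContinuousOn.intervalIntegrable (ContinuousOn.congr ?_ hF1)
    refine continuousOn_const.mul (ContinuousOn.mul ?_ hce.continuousOn)
    intro x hx
    rw [uIcc_of_le (by norm_num)] at hx
    have s1 : ((x : ℂ) - T' * I).re = x := by simp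
    have s2 : ((x : ℂ) - T' * I).im = -T' := by simp
    have h1 := (slit_left hT hC (w := (x : ℂ) - T' * I) (by rw [s1]; exact hx.1)
      (by rw [s1]; exact hx.2) (by rw [s2, ← hT', abs_neg, abs_of_pos (by linarith)])
      (Or.inr (by rw [s2, abs_neg, abs_of_pos (by linarith)]; linarith))).1
    exact (ContinuousAt.comp (f := fun x : ℝ => (x : ℂ) - T' * I) h1.continuousAt
      hcx.continuousAt).continuousWithinAt
  have hI2 : IntervalIntegrable (fun x : ℝ => B ((sb.re : ℂ) + h * x + y * I) *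
      cexp (2 * Real.pi * I * ((sb.re : ℂ) + h * x + y * I) / h)) volume 0 (1 / 2) := by
    refine ContinuousOn.intervalIntegrable (ContinuousOn.congr ?_ hF2)
    refine continuousOn_const.mul (ContinuousOn.mul ?_ hce.continuousOn)
    intro x hx
    rw [uIcc_of_le (by norm_num)] at hx
    have s1 : ((x : ℂ) - T' * I).re = x := by simp
    have s2 : ((x : ℂ) - T' * I).im = -T' := by simp
    have h1 := (slit_right hT hC (w := (x : ℂ) - T' * I) (by rw [s1]; exact hx.1)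
      (by rw [s1]; exact hx.2) (by rw [s2, ← hT', abs_neg, abs_of_pos (by linarith)])
      (Or.inr (by rw [s2, abs_neg, abs_of_pos (by linarith)]; linarith))).1
    exact (ContinuousAt.comp (f := fun x : ℝ => (x : ℂ) - T' * I) h1.continuousAt
      hcx.continuousAt).continuousWithinAt
  rw [← intervalIntegral.integral_add_adjacent_intervals hI1 hI2,
    intervalIntegral.integral_congr hF1, intervalIntegral.integral_congr hF2,
    intervalIntegral.integral_const_mul, intervalIntegral.integral_const_mul, ← mul_add,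
    norm_mul (ee (sb / h)), norm_ee]
  have e5 : (sb / h).im = sb.im / h := Complex.div_ofReal_im _ _
  rw [e5, mul_comm]
  have e6 : 2 * Real.pi * (sb.im / h) = 2 * Real.pi * sb.im / h := by ring
  rw [e6]
  exact mul_le_mul_of_nonneg_left hcl (Real.exp_pos _).le

end Pool.Agent.MP_ae5b4e_an_AT
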